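import Pool.Agent.Helper26.PE.Defs

/-!
# PE-Recip: partial summation; sums of `χ * 1`

PROOF.  (1) `1 / n = 1 / x + ∑ t from n to x - 1, 1 / (t (t + 1))`, so the sum is
`A(x) / x + ∑ t < x, A(t) / (t (t + 1)) ≤ κ + κ ∑ t < x, 1 / (t + 1) ≤ κ (2 + log x)`.
(2) For `d ∉ E` (`0 < d < p`): `χ d = s la d`; for `d ∈ E`: `|χ d - s la d| ≤ 2`.  `∑ d ∣ n, la d` is `1` if `n` is a square
and `0` otherwise (Mathlib: `ArithmeticFunction` or by multiplicativity / induction).  So
`|∑ d ∣ n, χ d| ≤ [n square] + 2 #{d ∈ E : d ∣ n}`; sum over `n ≤ x`: at most `√x` squares, `#{n ≤ x : d ∣ n} ≤ x / d`.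
-/

set_option autoImplicit false

namespace Pool.Agent.Helper26.PE

open Finset

variable {p : ℕ} [hp : Fact p.Prime]

theorem sum_inv {E : Finset ℕ} {κ : ℝ} {x : ℕ} (hx : 1 ≤ x) (hκ : 0 ≤ κ) (hE : ∀ n ∈ E, 1 ≤ n)
    (h : ∀ t : ℕ, 1 ≤ t → t ≤ x → (#(E.filter fun n => n ≤ t) : ℝ) ≤ κ * t) :
    ∑ n ∈ E.filter (fun n => n ≤ x), 1 / (n : ℝ) ≤ κ * (2 + Real.log x) := by
  have key : ∀ t : ℕ, t ≤ x → ∑ n ∈ E.filter (fun n => n ≤ t), 1 / (n : ℝ) ≤
      (#(E.filter fun n => n ≤ t) : ℝ) / t + κ * Real.log t := by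
    intro t
    induction t with
    | zero =>
      intro _
      have h0 : E.filter (fun n => n ≤ 0) = ∅ := by
        rw [filter_eq_empty_iff]
        intro n hn hn0
        have := hE n hn
        omega
      rw [h0]
      simp
    | succ t ih =>
      intro ht
      have ih' := ih (by omega)
      obtain ⟨δ, hδ0, hδ1, hδ2⟩ : ∃ δ : ℝ, 0 ≤ δ ∧
          (#(E.filter fun n => n ≤ t + 1) : ℝ) = #(E.filter fun n => n ≤ t) + δ ∧
          ∑ n ∈ E.filter (fun n => n ≤ t + 1), 1 / (n : ℝ) =
            ∑ n ∈ E.filter (fun n => n ≤ t), 1 / (n : ℝ) + δ / ((t : ℝ) + 1) := by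
        by_cases hm : t + 1 ∈ E
        · have h1 : E.filter (fun n => n ≤ t + 1) = insert (t + 1) (E.filter fun n => n ≤ t) := by
            ext n
            rw [mem_filter, mem_insert, mem_filter]
            constructor
            · rintro ⟨h1, h2⟩
              rcases Nat.lt_or_ge t n with h3 | h3
              · left
                omega
              · exact Or.inr ⟨h1, h3⟩
            · rintro (rfl | ⟨h1, h2⟩)
              · exact ⟨hm, le_refl _⟩
              · exact ⟨h1, by omega⟩
          have h2 : t + 1 ∉ E.filter fun n => n ≤ t := by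
            rw [mem_filter]
            rintro ⟨_, h3⟩
            omega
          refine ⟨1, zero_le_one, ?_, ?_⟩
          · rw [h1, card_insert_of_notMem h2]
            push_cast
            ring
          · rw [h1, sum_insert h2]
            push_cast
            ring
        · have h1 : E.filter (fun n => n ≤ t + 1) = E.filter fun n => n ≤ t := by
            ext n
            rw [mem_filter, mem_filter]
            constructor
            · rintro ⟨h1, h2⟩
              refine ⟨h1, ?_⟩
              rcases Nat.lt_or_ge t n with h3 | h3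
              · exfalso
                apply hm
                have h4 : n = t + 1 := by omega
                rwa [← h4]
              · exact h3
            · rintro ⟨h1, h2⟩
              exact ⟨h1, by omega⟩
          refine ⟨0, le_refl _, ?_, ?_⟩
          · rw [h1, add_zero]
          · rw [h1, zero_div, add_zero]
      rw [hδ1, hδ2]
      rcases Nat.eq_zero_or_pos t with rfl | htp
      · have h0 : E.filter (fun n => n ≤ 0) = ∅ := by
          rw [filter_eq_empty_iff]
          intro n hn hn0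
          have := hE n hn
          omega
        rw [h0]
        simp
      · have ht1 : (1 : ℝ) ≤ t := by exact_mod_cast htp
        have ht0 : (0 : ℝ) < t := by linarith
        have hA := h t htp (by omega)
        have hlog : 1 / ((t : ℝ) + 1) ≤ Real.log ((t : ℝ) + 1) - Real.log t := by
          have h1 := Real.log_le_sub_one_of_pos (show (0 : ℝ) < (t : ℝ) / (t + 1) by positivity)
          rw [Real.log_div ht0.ne' (by positivity)] at h1
          have h2 : (t : ℝ) / (t + 1) - 1 = -(1 / ((t : ℝ) + 1)) := by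
            field_simp
            ring
          linarith
        have h3 : (#(E.filter fun n => n ≤ t) : ℝ) / t - (#(E.filter fun n => n ≤ t) : ℝ) / (t + 1) ≤
            κ * (1 / ((t : ℝ) + 1)) := by
          have h4 : (#(E.filter fun n => n ≤ t) : ℝ) / t -
              (#(E.filter fun n => n ≤ t) : ℝ) / (t + 1) =
              (#(E.filter fun n => n ≤ t) : ℝ) / t * (1 / ((t : ℝ) + 1)) := by
            field_simp
            ring
          rw [h4]
          refine mul_le_mul_of_nonneg_right ?_ (by positivity)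
          rw [div_le_iff₀ ht0]
          exact hA
        have h5 := mul_le_mul_of_nonneg_left hlog hκ
        push_cast
        rw [add_div]
        linarith
  have h1 := key x (le_refl _)
  have hx0 : (0 : ℝ) < x := by exact_mod_cast hx
  have h2 : (#(E.filter fun n => n ≤ x) : ℝ) / x ≤ κ := by
    rw [div_le_iff₀ hx0]
    exact h x hx (le_refl _)
  linarith

/-- the divisor sum of Liouville's function -/
theorem Recip_sq (n : ℕ) (hn : n ≠ 0) :
    ∑ d ∈ n.divisors, la d = 0 ∨ (∑ d ∈ n.divisors, la d = 1 ∧ IsSquare n) := by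
  have hcast : ∀ m : ℕ, ∑ d ∈ m.divisors, la d =
      (((ArithmeticFunction.liouville * ((ArithmeticFunction.zeta : ArithmeticFunction ℕ) :
        ArithmeticFunction ℤ)) m : ℤ) : ℝ) := by
    intro m
    rw [ArithmeticFunction.coe_mul_zeta_apply]
    push_cast
    refine sum_congr rfl fun d hd => ?_
    have hd0 : d ≠ 0 := (Nat.pos_of_mem_divisors hd).ne'
    rw [ArithmeticFunction.liouville_apply hd0]
    unfold la
    push_cast
    rfl
  have hm : (ArithmeticFunction.liouville * ((ArithmeticFunction.zeta : ArithmeticFunction ℕ) :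
      ArithmeticFunction ℤ)).IsMultiplicative :=
    ArithmeticFunction.isMultiplicative_liouville.mul
      ArithmeticFunction.isMultiplicative_zeta.natCast
  have key : ∀ m : ℕ, m ≠ 0 →
      (ArithmeticFunction.liouville * ((ArithmeticFunction.zeta : ArithmeticFunction ℕ) :
        ArithmeticFunction ℤ)) m = 0 ∨
      ((ArithmeticFunction.liouville * ((ArithmeticFunction.zeta : ArithmeticFunction ℕ) :
        ArithmeticFunction ℤ)) m = 1 ∧ IsSquare m) := by
    intro m
    induction m using Nat.recOnPosPrimePosCoprime with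
    | prime_pow q k hq hk =>
      intro _
      have h1 : (ArithmeticFunction.liouville * ((ArithmeticFunction.zeta :
          ArithmeticFunction ℕ) : ArithmeticFunction ℤ)) (q ^ k) =
          ∑ j ∈ range (k + 1), (-1 : ℤ) ^ j := by
        rw [ArithmeticFunction.coe_mul_zeta_apply, Nat.sum_divisors_prime_pow hq]
        refine sum_congr rfl fun j _ => ?_
        rw [ArithmeticFunction.liouville_apply (pow_ne_zero _ hq.ne_zero),
          ArithmeticFunction.cardFactors_apply_prime_pow hq]
      rw [h1, neg_one_geom_sum]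
      split_ifs with h2
      · exact Or.inl rfl
      · refine Or.inr ⟨rfl, ?_⟩
        have h3 : Even k := by
          rw [Nat.even_add_one, not_not] at h2
          exact h2
        exact h3.isSquare_pow q
    | zero => exact fun h => absurd rfl h
    | one => exact fun _ => Or.inr ⟨hm.map_one, IsSquare.one⟩
    | coprime a b ha hb hab iha ihb =>
      intro _
      rw [hm.map_mul_of_coprime hab]
      rcases iha (by omega) with h1 | ⟨h1, h1'⟩
      · left
        rw [h1, zero_mul]
      · rcases ihb (by omega) with h2 | ⟨h2, h2'⟩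
        · left
          rw [h2, mul_zero]
        · right
          rw [h1, h2]
          exact ⟨one_mul 1, h1'.mul h2'⟩
  rw [hcast n]
  rcases key n hn with h1 | ⟨h1, h2⟩
  · left
    rw [h1, Int.cast_zero]
  · right
    rw [h1, Int.cast_one]
    exact ⟨rfl, h2⟩

theorem Recip_card (x : ℕ) : (#((Icc 1 x).filter fun n => IsSquare n) : ℝ) ≤ √(x : ℝ) := by
  have h1 : (Icc 1 x).filter (fun n => IsSquare n) ⊆ (Icc 1 (Nat.sqrt x)).image fun m => m * m := by
    intro n hn
    rw [mem_filter, mem_Icc] at hn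
    obtain ⟨⟨h1, h2⟩, m, rfl⟩ := hn
    rw [mem_image]
    refine ⟨m, mem_Icc.2 ⟨?_, Nat.le_sqrt.2 h2⟩, rfl⟩
    rcases Nat.eq_zero_or_pos m with rfl | h3
    · omega
    · exact h3
  have h2 : #((Icc 1 x).filter fun n => IsSquare n) ≤ Nat.sqrt x := by
    refine (card_le_card h1).trans (card_image_le.trans ?_)
    rw [Nat.card_Icc]
    omega
  calc (#((Icc 1 x).filter fun n => IsSquare n) : ℝ) ≤ (Nat.sqrt x : ℝ) := by exact_mod_cast h2
    _ ≤ √(x : ℝ) := Real.nat_sqrt_le_real_sqrt

theorem ones_le {χ : DirichletCharacter ℂ p} {s : ℝ} (hs : s = 1 ∨ s = -1) {E : Finset ℕ}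
    (hE : ∀ n : ℕ, n ∈ E ↔ 0 < n ∧ n < p ∧ (la n : ℂ) * χ (n : ZMod p) ≠ s) {x : ℕ} (hx : x < p) :
    ‖∑ n ∈ Icc 1 x, ∑ d ∈ n.divisors, χ (d : ZMod p)‖ ≤
      √(x : ℝ) + 2 * x * ∑ d ∈ E.filter (fun n => n ≤ x), 1 / (d : ℝ) := by
  classical
  have hs1 : |s| = 1 := by rcases hs with rfl | rfl <;> simp
  have hdiff : ∀ d : ℕ, 0 < d → d < p → ‖χ (d : ZMod p) - ((s * la d : ℝ) : ℂ)‖ ≤
      if d ∈ E then (2 : ℝ) else 0 := by
    intro d hd0 hdp
    split_ifs with h
    · refine (norm_sub_le _ _).trans ?_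
      have h1 : ‖χ (d : ZMod p)‖ ≤ 1 := χ.norm_le_one _
      have h2 : ‖((s * la d : ℝ) : ℂ)‖ = 1 := by
        rw [Complex.norm_real, Real.norm_eq_abs, abs_mul, hs1, la_abs, one_mul]
      linarith
    · rw [hE] at h
      have h1 : (la d : ℂ) * χ (d : ZMod p) = s := by
        by_contra h2
        exact h ⟨hd0, hdp, h2⟩
      have h2 : (la d : ℂ) * la d = 1 := by exact_mod_cast la_sq d
      have h3 : χ (d : ZMod p) = ((s * la d : ℝ) : ℂ) := by
        push_cast
        rw [← h1]
        linear_combination (-χ (d : ZMod p)) * h2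
      rw [h3, sub_self, norm_zero]
  have hn1 : ∀ n ∈ Icc 1 x, ‖∑ d ∈ n.divisors, χ (d : ZMod p)‖ ≤
      (if IsSquare n then (1 : ℝ) else 0) +
        ∑ d ∈ E.filter (fun n => n ≤ x), if d ∣ n then (2 : ℝ) else 0 := by
    intro n hn
    rw [mem_Icc] at hn
    have hn0 : n ≠ 0 := by omega
    have h1 : ∑ d ∈ n.divisors, χ (d : ZMod p) =
        ((s * ∑ d ∈ n.divisors, la d : ℝ) : ℂ) +
          ∑ d ∈ n.divisors, (χ (d : ZMod p) - ((s * la d : ℝ) : ℂ)) := by
      rw [sum_sub_distrib]
      push_cast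
      rw [mul_sum]
      ring
    have h2 : ‖((s * ∑ d ∈ n.divisors, la d : ℝ) : ℂ)‖ ≤ if IsSquare n then (1 : ℝ) else 0 := by
      rw [Complex.norm_real, Real.norm_eq_abs, abs_mul, hs1, one_mul]
      rcases Recip_sq n hn0 with h3 | ⟨h3, h4⟩
      · rw [h3, abs_zero]
        split_ifs <;> norm_num
      · rw [h3, if_pos h4, abs_one]
    have h3 : ‖∑ d ∈ n.divisors, (χ (d : ZMod p) - ((s * la d : ℝ) : ℂ))‖ ≤
        ∑ d ∈ E.filter (fun n => n ≤ x), if d ∣ n then (2 : ℝ) else 0 := by
      calc ‖∑ d ∈ n.divisors, (χ (d : ZMod p) - ((s * la d : ℝ) : ℂ))‖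
          ≤ ∑ d ∈ n.divisors, ‖χ (d : ZMod p) - ((s * la d : ℝ) : ℂ)‖ := norm_sum_le _ _
        _ ≤ ∑ d ∈ n.divisors, if d ∈ E then (2 : ℝ) else 0 := sum_le_sum fun d hd => by
            have h4 := Nat.pos_of_mem_divisors hd
            have h5 := Nat.le_of_dvd (by omega) (Nat.dvd_of_mem_divisors hd)
            exact hdiff d h4 (by omega)
        _ = ∑ d ∈ E.filter (fun n => n ≤ x), if d ∣ n then (2 : ℝ) else 0 := by
            rw [← sum_filter, ← sum_filter]
            refine sum_congr ?_ fun _ _ => rfl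
            ext d
            rw [mem_filter, mem_filter, mem_filter, Nat.mem_divisors]
            constructor
            · rintro ⟨⟨h4, _⟩, h5⟩
              have h6 := Nat.le_of_dvd (by omega) h4
              exact ⟨⟨h5, by omega⟩, h4⟩
            · rintro ⟨⟨h4, _⟩, h5⟩
              exact ⟨⟨h5, hn0⟩, h4⟩
    rw [h1]
    exact (norm_add_le _ _).trans (add_le_add h2 h3)
  refine (norm_sum_le _ _).trans ((sum_le_sum hn1).trans ?_)
  rw [sum_add_distrib, sum_comm]
  refine add_le_add ?_ ?_
  · rw [← sum_filter, sum_const, nsmul_eq_mul, mul_one]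
    exact Recip_card x
  · rw [mul_sum]
    refine sum_le_sum fun d _ => ?_
    rw [← sum_filter, sum_const, nsmul_eq_mul]
    have h1 : (Icc 1 x).filter (fun n => d ∣ n) = (Ioc 0 x).filter (fun n => d ∣ n) := by
      ext n
      rw [mem_filter, mem_filter, mem_Icc, mem_Ioc]
      constructor
      · rintro ⟨⟨h2, h3⟩, h4⟩
        exact ⟨⟨by omega, h3⟩, h4⟩
      · rintro ⟨⟨h2, h3⟩, h4⟩
        exact ⟨⟨by omega, h3⟩, h4⟩
    rw [h1, Nat.Ioc_filter_dvd_card_eq_div]
    have h2 : ((x / d : ℕ) : ℝ) ≤ (x : ℝ) / d := Nat.cast_div_le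
    calc ((x / d : ℕ) : ℝ) * 2 ≤ (x : ℝ) / d * 2 := by linarith
      _ = 2 * x * (1 / d) := by ring

end Pool.Agent.Helper26.PE
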