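import Pool.Agent.Helper26.PE.Defs
import Pool.Agent.Helper18.BV.EstermannLemma
import Pool.Agent.Helper85.BV.LUpper
import Pool.Agent.Helper79.BV.Alt
import Pool.Agent.Helper37.BV.SiegelReal

/-!
# PE-Siegel: Siegel's theorem for prime moduli

PROOF.  `Pool.Agent.Helper37.BV.siegelReal` with `lBound`, `lUpper` (Helper85), `estermann` (Helper18), `altProd`,
`altOne` (Helper79), exactly as in `Pool.Agent.Helper18.BV.bv`; a character `≠ 1` modulo a prime is primitive.
-/

set_option autoImplicit false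

namespace Pool.Agent.Helper26.PE

open Finset

variable {p : ℕ} [hp : Fact p.Prime]

omit hp in
theorem siegel (ε : ℝ) (hε : 0 < ε) : ∃ c : ℝ, 0 < c ∧ ∀ (p : ℕ) [Fact p.Prime]
    (χ : DirichletCharacter ℂ p), χ ≠ 1 → χ ^ 2 = 1 →
      c * (p : ℝ) ^ (-ε) ≤ ‖DirichletCharacter.LFunction χ 1‖ := by
  obtain ⟨c, hc, h⟩ := Pool.Agent.Helper37.BV.siegelReal Pool.Agent.Helper85.BV.lBound
    Pool.Agent.Helper85.BV.lUpper Pool.Agent.Helper18.BV.estermann Pool.Agent.Helper79.BV.altProd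
    Pool.Agent.Helper79.BV.altOne ε hε
  refine ⟨c, hc, fun p hp χ h1 h2 => ?_⟩
  have : NeZero p := ⟨hp.out.ne_zero⟩
  refine h p χ ?_ h1 h2
  rw [DirichletCharacter.isPrimitive_def]
  rcases (Nat.dvd_prime hp.out).1 χ.conductor_dvd_level with h3 | h3
  · exact absurd (DirichletCharacter.eq_one_iff_conductor_eq_one.2 h3) h1
  · exact h3

end Pool.Agent.Helper26.PE
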