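import Pool.Agent.Helper26.PE.Defs

/-!
# PE-Bad: representations of the elements of the exceptional set

PROOF.  If `w = n z ∈ Bd p r` and the pair is not counted in `Ex .. 1` nor in `Ex .. r` then `F (n z) = la n la z` and
`F (n (r z)) = la n F (r z) = la n la (r z) = - la n la z` (`0 < r z < p`), so `F (r w) = - F w`, a contradiction.
-/

set_option autoImplicit false

namespace Pool.Agent.Helper26.PE

open Finset

variable {p : ℕ} [hp : Fact p.Prime]

theorem sum_Bd_le {k m M r : ℕ} {P : Finset ℕ} (hP : ∀ q ∈ P, q.Prime ∧ q < p) (hr : r.Prime)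
    (hm : 0 < m) (h : r * (m * M) < p) :
    ∑ w ∈ Bd p r, TT p k m M P w ≤ Ex p k m M P 1 + Ex p k m M P r := by
  classical
  set A := Tup k P ×ˢ Tup m (Icc 1 M) with hA
  set f : (Fin k → ℕ) × (Fin m → ℕ) → ZMod p :=
    fun c => ((pr c.1 : ℕ) : ZMod p) * ((sm c.2 : ℕ) : ZMod p) with hf
  have h1 : ∑ w ∈ Bd p r, TT p k m M P w = ((#(A.filter fun c => f c ∈ Bd p r) : ℕ) : ℝ) := by
    have h2 : #(A.filter fun c => f c ∈ Bd p r)
        = ∑ w ∈ Bd p r, #((A.filter fun c => f c ∈ Bd p r).filter fun c => f c = w) := by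
      apply card_eq_sum_card_fiberwise
      intro c hc
      have hc' := (mem_filter.mp (Finset.mem_coe.mp hc)).2
      exact Finset.mem_coe.mpr hc'
    rw [h2]
    push_cast
    apply sum_congr rfl
    intro w hw
    unfold TT
    congr 2
    ext c
    rw [mem_filter, mem_filter, mem_filter]
    constructor
    · rintro ⟨h3, h4⟩
      have h5 : f c = w := h4
      exact ⟨⟨h3, by rw [h5]; exact hw⟩, h5⟩
    · rintro ⟨⟨h3, -⟩, h4⟩
      exact ⟨h3, h4⟩
  have h2 : (A.filter fun c => f c ∈ Bd p r) ⊆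
      (A.filter fun c => F (((pr c.1 : ℕ) : ZMod p) * (((1 * sm c.2 : ℕ) : ℕ) : ZMod p)) ≠
        la (pr c.1) * F (((1 * sm c.2 : ℕ) : ℕ) : ZMod p)) ∪
      (A.filter fun c => F (((pr c.1 : ℕ) : ZMod p) * (((r * sm c.2 : ℕ) : ℕ) : ZMod p)) ≠
        la (pr c.1) * F (((r * sm c.2 : ℕ) : ℕ) : ZMod p)) := by
    intro c hc
    rw [mem_filter] at hc
    obtain ⟨hcA, hcB⟩ := hc
    rw [mem_union, mem_filter, mem_filter]
    by_contra hcon
    rw [not_or, not_and, not_and, ne_eq, ne_eq, not_not, not_not] at hcon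
    have e1 := hcon.1 hcA
    have e2 := hcon.2 hcA
    rw [hA, mem_product, mem_Tup, mem_Tup] at hcA
    -- bounds for z
    have hz0 : 1 ≤ sm c.2 := by
      unfold sm
      have h3 : c.2 ⟨0, hm⟩ ≤ ∑ j, c.2 j :=
        Finset.single_le_sum (f := fun j => c.2 j) (fun _ _ => Nat.zero_le _) (mem_univ _)
      exact le_trans (mem_Icc.mp (hcA.2 ⟨0, hm⟩)).1 h3
    have hz1 : sm c.2 ≤ m * M := by
      unfold sm
      have h3 : ∑ j, c.2 j ≤ ∑ _j : Fin m, M :=
        Finset.sum_le_sum fun j _ => (mem_Icc.mp (hcA.2 j)).2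
      simpa using h3
    have hrz : r * sm c.2 < p := lt_of_le_of_lt (Nat.mul_le_mul_left r hz1) h
    have hz : sm c.2 < p := lt_of_le_of_lt (Nat.le_mul_of_pos_left _ hr.pos) hrz
    rw [one_mul, F_nat hz] at e1
    rw [F_nat hrz, la_mul hr.ne_zero (by omega), la_prime hr] at e2
    obtain ⟨-, h4⟩ := mem_Bd.mp hcB
    apply h4
    have e3 : (r : ZMod p) * f c = ((pr c.1 : ℕ) : ZMod p) * (((r * sm c.2 : ℕ) : ℕ) : ZMod p) := by
      rw [hf]
      push_cast
      ring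
    rw [e3, e2]
    have e4 : F (f c) = la (pr c.1) * la (sm c.2) := e1
    rw [e4]
    ring
  have h3 := (card_le_card h2).trans (card_union_le _ _)
  rw [h1]
  unfold Ex
  have h4 : ((#(A.filter fun c => f c ∈ Bd p r) : ℕ) : ℝ) ≤
      ((#(A.filter fun c => F (((pr c.1 : ℕ) : ZMod p) * (((1 * sm c.2 : ℕ) : ℕ) : ZMod p)) ≠
        la (pr c.1) * F (((1 * sm c.2 : ℕ) : ℕ) : ZMod p)) +
      #(A.filter fun c => F (((pr c.1 : ℕ) : ZMod p) * (((r * sm c.2 : ℕ) : ℕ) : ZMod p)) ≠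
        la (pr c.1) * F (((r * sm c.2 : ℕ) : ℕ) : ZMod p)) : ℕ) : ℝ) := by
    exact_mod_cast h3
  rw [Nat.cast_add] at h4
  refine h4.trans (le_of_eq ?_)
  congr

end Pool.Agent.Helper26.PE
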