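import Pool.Agent.Helper26.PE.Miss

/-!
# PE-Beta: the exceptional set of a small prime is small

PROOF.  `Bd p q` is contained in the set of `miss_card`: if `w = (g x).val ≤ 2 M` then `q w < p`, so
`F (q g x) = la (q w) = - la w = - F (g x)`; `F (g (q x)) = s F (q x)`, `F (g x) = s F x`, so `F (q x) = - F x`.
-/

set_option autoImplicit false

namespace Pool.Agent.Helper26.PE

open Finset

variable {p : ℕ} [hp : Fact p.Prime]

theorem Bd_sub (H : Subgroup (ZMod p)ˣ) (hH : Stab H) {q M : ℕ} (hq : q.Prime)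
    (hqM : 2 * q * M < p) {x : ZMod p} (hx : x ∈ Bd p q) :
    x ≠ 0 ∧ ∀ g ∈ H, 2 * M < (((g : (ZMod p)ˣ) : ZMod p) * x).val := by
  obtain ⟨hx0, hxF⟩ := mem_Bd.1 hx
  refine ⟨hx0, fun g hg => ?_⟩
  by_contra hle
  rw [not_lt] at hle
  apply hxF
  obtain ⟨s, hs0, hs⟩ := hH g hg
  have hgx0 : ((g : (ZMod p)ˣ) : ZMod p) * x ≠ 0 := mul_ne_zero g.ne_zero hx0
  obtain ⟨w, hw⟩ : ∃ w, w = (((g : (ZMod p)ˣ) : ZMod p) * x).val := ⟨_, rfl⟩
  rw [← hw] at hle
  have hw0 : 0 < w := by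
    rw [hw, Nat.pos_iff_ne_zero, Ne, ZMod.val_eq_zero]
    exact hgx0
  have hqw : q * w < p := by
    calc q * w ≤ q * (2 * M) := Nat.mul_le_mul_left q hle
      _ = 2 * q * M := by ring
      _ < p := hqM
  have hwp : w < p := by rw [hw]; exact ZMod.val_lt _
  have hgx : (((g : (ZMod p)ˣ) : ZMod p) * x) = (w : ZMod p) := by
    rw [hw, ZMod.natCast_zmod_val]
  have h1 : F ((q : ZMod p) * (((g : (ZMod p)ˣ) : ZMod p) * x)) =
      - F (((g : (ZMod p)ˣ) : ZMod p) * x) := by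
    rw [hgx, ← Nat.cast_mul, F_nat hqw, F_nat hwp, la_mul hq.ne_zero hw0.ne', la_prime hq]
    ring
  have hq0 : (q : ZMod p) ≠ 0 := by
    rw [Ne, ZMod.natCast_eq_zero_iff]
    intro hdvd
    have h2 := Nat.le_of_dvd hq.pos hdvd
    have h3 : q ≤ q * w := Nat.le_mul_of_pos_right q hw0
    omega
  have h4 : (q : ZMod p) * (((g : (ZMod p)ˣ) : ZMod p) * x) =
      ((g : (ZMod p)ˣ) : ZMod p) * ((q : ZMod p) * x) := by ring
  rw [h4, hs _ (mul_ne_zero hq0 hx0), hs _ hx0] at h1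
  have h5 : s * (F ((q : ZMod p) * x) + F x) = 0 := by linarith
  rcases mul_eq_zero.1 h5 with h | h
  · exact absurd h hs0
  · linarith

theorem bad_card (H : Subgroup (ZMod p)ˣ) (hH : Stab H) {q M L : ℕ} (hq : q.Prime) (hM : 0 < M)
    (hqM : 2 * q * M < p) (hL : 0 < L) :
    (#(Bd p q) : ℝ) ≤
      p * (4 * (L : ℝ) ^ 2 / Nat.card H + (p : ℝ) ^ 3 / (2 * (M : ℝ) ^ 3 * (L : ℝ) ^ 2)) := by
  have h2M : 2 * M < p := by
    have h1 : 1 ≤ q := hq.one_le
    calc 2 * M = 2 * 1 * M := by ring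
      _ ≤ 2 * q * M := Nat.mul_le_mul_right M (Nat.mul_le_mul_left 2 h1)
      _ < p := hqM
  refine le_trans ?_ (miss_card H M L hM h2M hL)
  rw [← Set.ncard_coe_finset]
  exact_mod_cast Set.ncard_le_ncard (fun x hx => Bd_sub H hH hq hqM (Finset.mem_coe.1 hx))
    (Set.toFinite _)

end Pool.Agent.Helper26.PE
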