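import Pool.Agent.Helper26.PE.Final
import Pool.Agent.Helper68.CO2.Same

/-!
# PE-Cols: the failing columns

PROOF.  `H` = the stabilizer `HH p lam cm_lam` of Helper68/CO2/Rigid.lean (`FF p lam u = lam u.val`, `la = lam` as a real number), so
`Stab H`.  If the columns `k₁`, `k₂` fail then `U p k₂ * (U p k₁)⁻¹ ∈ H` (`ratio_step` in Same.lean with `const_of_not_mixed`), so the
failing columns inject into `H`: `# ≤ Nat.card H ≤ p ^ ε` for `p ≥ p0`; for `p < p0` the number is at most `p0`.  Compare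
`fail_bound_eps` in Helper68/CO2/Eps.lean.
-/

set_option autoImplicit false

namespace Pool.Agent.Helper26.PE

open Finset

variable {p : ℕ} [hp : Fact p.Prime]

omit hp in
/-- the real value of Liouville's function -/
theorem la_lam (n : ℕ) : la n = ((Pool.Agent.Helper68.CO2.lam n : ℤ) : ℝ) := by
  unfold la Pool.Agent.Helper68.CO2.lam
  push_cast
  rfl

/-- the stabilizer satisfies the condition -/
theorem stab_HH [hn : Fact (1 < p)] :
    Stab (Pool.Agent.Helper68.CO2.HH p Pool.Agent.Helper68.CO2.lam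
      Pool.Agent.Helper68.CO2.cm_lam) := by
  intro g hg
  refine ⟨F ((g : (ZMod p)ˣ) : ZMod p), ?_, fun x hx => ?_⟩
  · rcases F_eq ((g : (ZMod p)ˣ) : ZMod p) with h | h <;> rw [h] <;> norm_num
  · have h1 := Pool.Agent.Helper68.CO2.mem_HH.1 hg (Units.mk0 x hx)
    unfold Pool.Agent.Helper68.CO2.FF at h1
    rw [Units.val_mul, Units.val_mk0] at h1
    unfold F
    rw [la_lam, la_lam, la_lam, h1]
    push_cast
    rfl

omit hp in
/-- the order of the stabilizer, all primes -/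
theorem card_HH_le (ε : ℝ) (hε : 0 < ε) : ∃ C : ℝ, ∀ p : ℕ, p.Prime → ∀ hn : Fact (1 < p),
    (Nat.card (Pool.Agent.Helper68.CO2.HH p Pool.Agent.Helper68.CO2.lam
      Pool.Agent.Helper68.CO2.cm_lam) : ℝ) ≤ C * (p : ℝ) ^ ε := by
  obtain ⟨p0, hp0⟩ := stab_small ε hε
  refine ⟨(p0 : ℝ) + 1, fun p hp hn => ?_⟩
  have hpf : Fact p.Prime := ⟨hp⟩
  have hp1 : (1 : ℝ) ≤ p := by exact_mod_cast hp.one_lt.le
  have hpe : (1 : ℝ) ≤ (p : ℝ) ^ ε := Real.one_le_rpow hp1 hε.le
  have h4 : (0 : ℝ) ≤ p0 := Nat.cast_nonneg _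
  rcases le_or_gt p0 p with h | h
  · have h2 := hp0 p h _ stab_HH
    nlinarith
  · have h1 : Nat.card (Pool.Agent.Helper68.CO2.HH p Pool.Agent.Helper68.CO2.lam
        Pool.Agent.Helper68.CO2.cm_lam) ≤ p := by
      refine (Nat.card_le_card_of_injective _ (Subtype.val_injective)).trans ?_
      rw [Nat.card_eq_fintype_card, ZMod.card_units p]
      omega
    have h5 : (Nat.card (Pool.Agent.Helper68.CO2.HH p Pool.Agent.Helper68.CO2.lam
        Pool.Agent.Helper68.CO2.cm_lam) : ℝ) ≤ p0 := by exact_mod_cast h1.trans h.le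
    nlinarith

omit hp in
theorem fail_bound (ε : ℝ) (hε : 0 < ε) : ∃ C : ℝ, ∀ p : ℕ, p.Prime →
    ({k : ℕ | 1 ≤ k ∧ k < p ∧ ¬ ((∃ j < p, Even (ArithmeticFunction.cardFactors (j * p + k))) ∧
      (∃ j < p, Odd (ArithmeticFunction.cardFactors (j * p + k))))}.ncard : ℝ) ≤
      C * (p : ℝ) ^ ε := by
  obtain ⟨p0, hp0⟩ := stab_small ε hε
  refine ⟨(p0 : ℝ) + 1, fun p hp => ?_⟩
  have hpf : Fact p.Prime := ⟨hp⟩
  have hn : Fact (1 < p) := ⟨hp.one_lt⟩
  have hp1 : (1 : ℝ) ≤ p := by exact_mod_cast hp.one_lt.le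
  have hpe : (1 : ℝ) ≤ (p : ℝ) ^ ε := Real.one_le_rpow hp1 hε.le
  rcases le_or_gt p0 p with h | h
  · have h1 := Pool.Agent.Helper68.CO2.fail_le_card hp
    have h2 := hp0 p h _ stab_HH
    have h3 : ({k : ℕ | 1 ≤ k ∧ k < p ∧
        ¬ ((∃ j < p, Even (ArithmeticFunction.cardFactors (j * p + k))) ∧
        (∃ j < p, Odd (ArithmeticFunction.cardFactors (j * p + k))))}.ncard : ℝ) ≤
        (Nat.card (Pool.Agent.Helper68.CO2.HH p Pool.Agent.Helper68.CO2.lam
          Pool.Agent.Helper68.CO2.cm_lam) : ℝ) := by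
      exact_mod_cast h1
    have h4 : (0 : ℝ) ≤ p0 := Nat.cast_nonneg _
    nlinarith [h3.trans h2]
  · have h1 : {k : ℕ | 1 ≤ k ∧ k < p ∧
        ¬ ((∃ j < p, Even (ArithmeticFunction.cardFactors (j * p + k))) ∧
        (∃ j < p, Odd (ArithmeticFunction.cardFactors (j * p + k))))}.ncard ≤ p := by
      have h2 := Set.ncard_le_ncard (s := {k : ℕ | 1 ≤ k ∧ k < p ∧
        ¬ ((∃ j < p, Even (ArithmeticFunction.cardFactors (j * p + k))) ∧
        (∃ j < p, Odd (ArithmeticFunction.cardFactors (j * p + k))))}) (t := (Finset.range p : Set ℕ))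
        (fun k hk => by
          rw [Finset.mem_coe, Finset.mem_range]
          exact hk.2.1) (Finset.finite_toSet _)
      rwa [Set.ncard_coe_finset, Finset.card_range] at h2
    have h5 : ({k : ℕ | 1 ≤ k ∧ k < p ∧
        ¬ ((∃ j < p, Even (ArithmeticFunction.cardFactors (j * p + k))) ∧
        (∃ j < p, Odd (ArithmeticFunction.cardFactors (j * p + k))))}.ncard : ℝ) ≤ p0 := by
      exact_mod_cast h1.trans h.le
    have h4 : (0 : ℝ) ≤ p0 := Nat.cast_nonneg _
    nlinarith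

end Pool.Agent.Helper26.PE
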