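import Mathlib

/-!
# Project PE (MP_418075_nt): definitions

`F x` is the value of Liouville's function at the representative of `x` in `[0, p - 1]`.
-/

set_option autoImplicit false

namespace Pool.Agent.Helper26.PE

open Finset

/-- Liouville's function with real values -/
noncomputable def la (n : ℕ) : ℝ := (-1) ^ (ArithmeticFunction.cardFactors n)

theorem la_mul {a b : ℕ} (ha : a ≠ 0) (hb : b ≠ 0) : la (a * b) = la a * la b := by
  unfold la
  rw [ArithmeticFunction.cardFactors_mul ha hb, pow_add]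

theorem la_prime {q : ℕ} (hq : q.Prime) : la q = -1 := by
  unfold la
  rw [ArithmeticFunction.cardFactors_apply_prime hq, pow_one]

theorem la_one : la 1 = 1 := by simp [la]

theorem la_sq (n : ℕ) : la n * la n = 1 := by
  unfold la
  rw [← pow_add, ← two_mul, pow_mul]
  norm_num

theorem la_eq (n : ℕ) : la n = 1 ∨ la n = -1 := by
  unfold la
  exact neg_one_pow_eq_or ℝ _

theorem la_abs (n : ℕ) : |la n| = 1 := by
  rcases la_eq n with h | h <;> rw [h] <;> norm_num

variable {p : ℕ} [hp : Fact p.Prime]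

/-- Liouville's function of the representative -/
noncomputable def F (x : ZMod p) : ℝ := la x.val

theorem F_eq (x : ZMod p) : F x = 1 ∨ F x = -1 := la_eq _

theorem F_abs (x : ZMod p) : |F x| = 1 := la_abs _

theorem F_sq (x : ZMod p) : F x * F x = 1 := la_sq _

theorem F_nat {n : ℕ} (hn : n < p) : F (n : ZMod p) = la n := by
  unfold F
  rw [ZMod.val_natCast_of_lt hn]

/-- the exceptional set of a prime `q`: `F (q x) ≠ - F x` -/
noncomputable def Bd (p : ℕ) [Fact p.Prime] (q : ℕ) : Finset (ZMod p) := by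
  classical
  exact univ.filter fun x : ZMod p => x ≠ 0 ∧ F ((q : ZMod p) * x) ≠ - F x

theorem mem_Bd {q : ℕ} {x : ZMod p} :
    x ∈ Bd p q ↔ x ≠ 0 ∧ F ((q : ZMod p) * x) ≠ - F x := by
  classical
  unfold Bd
  rw [mem_filter]
  exact ⟨fun h => h.2, fun h => ⟨mem_univ _, h⟩⟩

/-- its density -/
noncomputable def dl (p : ℕ) [Fact p.Prime] (q : ℕ) : ℝ := (#(Bd p q) : ℝ) / p

/-- `F` is multiplied by a constant by every element of `H` -/
def Stab (H : Subgroup (ZMod p)ˣ) : Prop :=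
  ∀ g ∈ H, ∃ s : ℝ, s ≠ 0 ∧ ∀ x : ZMod p, x ≠ 0 → F (((g : (ZMod p)ˣ) : ZMod p) * x) = s * F x

/-- the primes in `(S, S ^ 2]` -/
def PS (S : ℕ) : Finset ℕ := (Ioc S (S ^ 2)).filter Nat.Prime

/-- tuples of elements of `P` -/
def Tup (k : ℕ) (P : Finset ℕ) : Finset (Fin k → ℕ) := Fintype.piFinset fun _ => P

theorem mem_Tup {k : ℕ} {P : Finset ℕ} {t : Fin k → ℕ} : t ∈ Tup k P ↔ ∀ j, t j ∈ P :=
  Fintype.mem_piFinset

theorem card_Tup (k : ℕ) (P : Finset ℕ) : #(Tup k P) = #P ^ k := by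
  rw [Tup, Fintype.card_piFinset]
  simp

/-- the product of a tuple -/
def pr {k : ℕ} (t : Fin k → ℕ) : ℕ := ∏ j, t j

/-- the sum of a tuple -/
def sm {k : ℕ} (t : Fin k → ℕ) : ℕ := ∑ j, t j

/-- the number of representations `w = n z`, `n` a product of `k` elements of `P`, `z` a sum of `m`
elements of `[1, M]` -/
noncomputable def TT (p : ℕ) [Fact p.Prime] (k m M : ℕ) (P : Finset ℕ) (w : ZMod p) : ℝ := by
  classical
  exact (#((Tup k P ×ˢ Tup m (Icc 1 M)).filter fun c =>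
    ((pr c.1 : ℕ) : ZMod p) * ((sm c.2 : ℕ) : ZMod p) = w) : ℝ)

/-- exceptional pairs `(n, z)` for a factor `r` -/
noncomputable def Ex (p : ℕ) [Fact p.Prime] (k m M : ℕ) (P : Finset ℕ) (r : ℕ) : ℝ := by
  classical
  exact (#((Tup k P ×ˢ Tup m (Icc 1 M)).filter fun c =>
    F (((pr c.1 : ℕ) : ZMod p) * (((r * sm c.2 : ℕ) : ℕ) : ZMod p)) ≠
      la (pr c.1) * F (((r * sm c.2 : ℕ) : ℕ) : ZMod p)) : ℝ)

end Pool.Agent.Helper26.PE
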