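import Pool.Agent.Helper26.PE.Defs

/-!
# PE-Exc1: the exceptional pairs with factor one

PROOF.  Split `t : Fin (k + 1) → ℕ` into the first `k` entries (product `n'`) and the last one `q` (`Fin.snoc`,
`Fin.prod_univ_castSucc`).  `z = sm c.2`, `0 < n' z ≤ Q ^ k m M < p`, so `F (n' z) = la n' * la z`.  If `n' z ∉ Bd p q`
then `F (q n' z) = - F (n' z)` and the pair is not exceptional.  So an exceptional pair has `(n' z : ZMod p) ∈ Bd p q`.  For
given `q` and `w ∈ Bd p q`, `v = w.val = n' z`: the first `k` entries lie in `P.filter (· ∣ v)` (at most `K0 ^ k` choices), `z`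
is determined, and at most `M ^ (m - 1)` tuples in `Tup m (Icc 1 M)` have sum `z`.
-/

set_option autoImplicit false

namespace Pool.Agent.Helper26.PE

open Finset

variable {p : ℕ} [hp : Fact p.Prime]

theorem card_sum_le (m M z : ℕ) (hm : 0 < m) :
    #((Tup m (Icc 1 M)).filter fun t => sm t = z) ≤ M ^ (m - 1) := by
  obtain ⟨n, rfl⟩ : ∃ n, m = n + 1 := ⟨m - 1, by omega⟩
  have h1 : #((Tup (n + 1) (Icc 1 M)).filter fun t => sm t = z) ≤ #(Tup n (Icc 1 M)) := by
    refine Finset.card_le_card_of_injOn (fun t => fun j => t j.succ) ?_ ?_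
    · intro t ht
      have ht' := (mem_filter.1 (mem_coe.1 ht)).1
      exact mem_coe.2 (mem_Tup.2 fun j => mem_Tup.1 ht' _)
    · intro t ht s hs hts
      have ht' := (mem_filter.1 (mem_coe.1 ht)).2
      have hs' := (mem_filter.1 (mem_coe.1 hs)).2
      have h3 : ∀ j : Fin n, t j.succ = s j.succ := fun j => congrFun hts j
      unfold sm at ht' hs'
      rw [Fin.sum_univ_succ] at ht' hs'
      have h4 : ∑ j : Fin n, t j.succ = ∑ j : Fin n, s j.succ :=
        Finset.sum_congr rfl fun j _ => h3 j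
      funext j
      refine Fin.cases ?_ h3 j
      omega
  rw [card_Tup, Nat.card_Icc] at h1
  simpa using h1

theorem exc_one {k m M Q K0 : ℕ} {P : Finset ℕ} {B : ℝ} (hP : ∀ q ∈ P, q.Prime ∧ q ≤ Q)
    (hm : 0 < m) (hM : 0 < M) (h : m * M * Q ^ k < p) (hQp : Q < p)
    (hK : ∀ n : ℕ, 0 < n → n < p → #(P.filter fun q => q ∣ n) ≤ K0)
    (hB : ∀ q ∈ P, (#(Bd p q) : ℝ) ≤ B) :
    Ex p (k + 1) m M P 1 ≤ #P * B * (K0 : ℝ) ^ k * (M : ℝ) ^ (m - 1) := by
  classical
  have hp0 : 0 < p := hp.out.pos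
  -- the target
  obtain ⟨TS, hTS⟩ : ∃ TS : Finset (Σ _ : ℕ, Σ _ : ZMod p, Σ _ : Fin k → ℕ, (Fin m → ℕ)),
      TS = P.sigma fun q => (Bd p q).sigma fun w =>
        (Tup k (P.filter fun q => q ∣ w.val)).sigma fun t' =>
          (Tup m (Icc 1 M)).filter fun s => sm s = w.val / pr t' := ⟨_, rfl⟩
  have hcard : (#TS : ℝ) ≤ #P * B * (K0 : ℝ) ^ k * (M : ℝ) ^ (m - 1) := by
    have h1 : ∀ q ∈ P, ∀ w ∈ Bd p q,
        #((Tup k (P.filter fun q => q ∣ w.val)).sigma fun t' =>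
          (Tup m (Icc 1 M)).filter fun s => sm s = w.val / pr t') ≤ K0 ^ k * M ^ (m - 1) := by
      intro q hq w hw
      rw [Finset.card_sigma]
      refine (Finset.sum_le_card_nsmul _ _ (M ^ (m - 1)) fun t' _ =>
        card_sum_le m M _ hm).trans ?_
      rw [smul_eq_mul, card_Tup]
      refine Nat.mul_le_mul_right _ (Nat.pow_le_pow_left ?_ k)
      refine hK _ ?_ (ZMod.val_lt w)
      rw [Nat.pos_iff_ne_zero, ne_eq, ZMod.val_eq_zero]
      exact (mem_Bd.1 hw).1
    have h2 : (#TS : ℝ) ≤ ∑ q ∈ P, (#(Bd p q) : ℝ) * ((K0 : ℝ) ^ k * (M : ℝ) ^ (m - 1)) := by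
      rw [hTS, Finset.card_sigma, Nat.cast_sum]
      refine Finset.sum_le_sum fun q hq => ?_
      rw [Finset.card_sigma]
      have h3 := Finset.sum_le_card_nsmul (Bd p q) _ (K0 ^ k * M ^ (m - 1)) (h1 q hq)
      rw [smul_eq_mul] at h3
      have h4 : ((#(Bd p q) * (K0 ^ k * M ^ (m - 1)) : ℕ) : ℝ) =
          (#(Bd p q) : ℝ) * ((K0 : ℝ) ^ k * (M : ℝ) ^ (m - 1)) := by push_cast; ring
      rw [← h4]
      exact_mod_cast h3
    refine h2.trans ?_
    refine (Finset.sum_le_sum fun q hq => mul_le_mul_of_nonneg_right (hB q hq)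
      (by positivity)).trans ?_
    rw [Finset.sum_const, nsmul_eq_mul]
    exact le_of_eq (by ring)
  refine le_trans ?_ hcard
  unfold Ex
  rw [Nat.cast_le]
  refine Finset.card_le_card_of_injOn (fun c => ⟨c.1 (Fin.last k),
    ((pr (fun j : Fin k => c.1 j.castSucc) * sm c.2 : ℕ) : ZMod p),
    fun j : Fin k => c.1 j.castSucc, c.2⟩) ?_ ?_
  · rintro ⟨t, s⟩ hts
    obtain ⟨h1, h2⟩ := mem_filter.1 (mem_coe.1 hts)
    obtain ⟨ht, hs⟩ := mem_product.1 h1
    have ht' := mem_Tup.1 ht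
    have hs' := mem_Tup.1 hs
    dsimp only at ht' hs' h2 ⊢
    obtain ⟨n', hn'⟩ : ∃ n', n' = pr (fun j : Fin k => t j.castSucc) := ⟨_, rfl⟩
    obtain ⟨z, hz⟩ : ∃ z, z = sm s := ⟨_, rfl⟩
    obtain ⟨q, hq⟩ : ∃ q, q = t (Fin.last k) := ⟨_, rfl⟩
    have hqP : q ∈ P := hq ▸ ht' _
    have hprt : pr t = n' * q := by
      rw [hn', hq]
      exact Fin.prod_univ_castSucc t
    have hn'Q : n' ≤ Q ^ k := by
      rw [hn']
      refine (Finset.prod_le_pow_card _ _ Q fun j _ => (hP _ (ht' _)).2).trans ?_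
      rw [Finset.card_univ, Fintype.card_fin]
    have hn'pos : 0 < n' := by
      rw [hn']
      exact Finset.prod_pos fun j _ => (hP _ (ht' _)).1.pos
    have hzM : z ≤ m * M := by
      rw [hz]
      refine (Finset.sum_le_card_nsmul _ _ M fun j _ => (mem_Icc.1 (hs' j)).2).trans ?_
      rw [Finset.card_univ, Fintype.card_fin, smul_eq_mul]
    have hzpos : 0 < z := by
      rw [hz]
      refine lt_of_lt_of_le ?_ (Finset.single_le_sum (f := s) (fun j _ => Nat.zero_le _)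
        (mem_univ (⟨0, hm⟩ : Fin m)))
      exact (mem_Icc.1 (hs' _)).1
    have hlt : n' * z < p := by
      refine lt_of_le_of_lt (Nat.mul_le_mul hn'Q hzM) ?_
      rw [mul_comm]
      exact h
    have hzlt : z < p := lt_of_le_of_lt (Nat.le_mul_of_pos_left z hn'pos) hlt
    have hval : (((n' * z : ℕ) : ZMod p)).val = n' * z := ZMod.val_natCast_of_lt hlt
    have hne : ((n' * z : ℕ) : ZMod p) ≠ 0 := by
      intro h0
      rw [← ZMod.val_eq_zero, hval] at h0
      exact (Nat.mul_pos hn'pos hzpos).ne' h0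
    have hBd : ((n' * z : ℕ) : ZMod p) ∈ Bd p q := by
      rw [mem_Bd]
      refine ⟨hne, fun h3 => h2 ?_⟩
      rw [← hz, hprt, one_mul, la_mul hn'pos.ne' (hP q hqP).1.ne_zero,
        la_prime (hP q hqP).1, F_nat hzlt]
      have h4 : ((n' * q : ℕ) : ZMod p) * ((z : ℕ) : ZMod p) =
          (q : ZMod p) * ((n' * z : ℕ) : ZMod p) := by push_cast; ring
      rw [h4, h3, F_nat hlt, la_mul hn'pos.ne' hzpos.ne']
      ring
    rw [hTS]
    refine mem_coe.2 ?_
    simp only [mem_sigma]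
    rw [← hn', ← hz, ← hq]
    refine ⟨hqP, hBd, ?_, ?_⟩
    · rw [mem_Tup]
      intro j
      rw [mem_filter, hval]
      refine ⟨ht' _, ?_⟩
      refine Dvd.dvd.mul_right ?_ z
      rw [hn']
      exact Finset.dvd_prod_of_mem (fun j : Fin k => t j.castSucc) (mem_univ j)
    · rw [mem_filter, hval, Nat.mul_div_cancel_left _ hn'pos]
      exact ⟨hs, hz.symm⟩
  · rintro ⟨t, s⟩ _ ⟨t', s'⟩ _ hE
    simp only [Sigma.mk.injEq, heq_eq_eq] at hE
    obtain ⟨h1, _, h3, h4⟩ := hE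
    refine Prod.ext ?_ h4
    funext j
    refine Fin.lastCases h1 (fun i => congrFun h3 i) j

end Pool.Agent.Helper26.PE
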