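import Pool.Agent.Helper26.PE.Exc1

/-!
# PE-Exc2: the exceptional pairs for a factor `r`, on average over `r`

PROOF.  `w_0 = r z`, `w_(i+1) = t_i w_i` in `ZMod p` (all nonzero), `w_i = (∏ j < i, t j) (r z)`.  If no `w_i` is in
`Bd p (t_i)` then `F (w_k) = (-1) ^ k F (w_0) = la (pr t) F (r z)`.  So an exceptional pair has some `i` with
`(∏ j < i, t j) (r z) ∈ Bd p (t_i)`.  For fixed `t`, `i` and `x ∈ Bd p (t_i)` the integer `v = r z < p` is determined
(`v = (x / ∏ j < i, t j).val`), `r ∈ R.filter (· ∣ v)` has at most `K1` values, `z = v / r`, and `card_sum_le`.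
-/

set_option autoImplicit false

namespace Pool.Agent.Helper26.PE

open Finset

variable {p : ℕ} [hp : Fact p.Prime]

/-- a tuple as a sequence -/
private def exc2_ext {k : ℕ} (t : Fin k → ℕ) (j : ℕ) : ℕ := if h : j < k then t ⟨j, h⟩ else 1

private theorem exc2_pr {k : ℕ} (t : Fin k → ℕ) : pr t = ∏ j ∈ range k, exc2_ext t j := by
  unfold pr
  rw [← Fin.prod_univ_eq_prod_range]
  refine Finset.prod_congr rfl fun j _ => ?_
  unfold exc2_ext
  rw [dif_pos j.2]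

private theorem exc2_step {t : ℕ → ℕ} {k : ℕ} (ht : ∀ j < k, (t j).Prime ∧ t j < p) {y : ZMod p}
    (hy : y ≠ 0) : ∀ i ≤ k, (∀ i' < i, ((∏ j ∈ range i', t j : ℕ) : ZMod p) * y ∉ Bd p (t i')) →
      ((∏ j ∈ range i, t j : ℕ) : ZMod p) * y ≠ 0 ∧
      F (((∏ j ∈ range i, t j : ℕ) : ZMod p) * y) = la (∏ j ∈ range i, t j) * F y := by
  intro i
  induction i with
  | zero =>
    intro _ _
    simp only [Finset.prod_range_zero, Nat.cast_one, one_mul, la_one]
    exact ⟨hy, trivial⟩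
  | succ i ih =>
    intro hi hno
    obtain ⟨h1, h2⟩ := ih (by omega) (fun i' hi' => hno i' (by omega))
    have h3 := ht i (by omega)
    have h4 : ((t i : ℕ) : ZMod p) ≠ 0 := by
      rw [Ne, ZMod.natCast_eq_zero_iff]
      intro h5
      have := Nat.le_of_dvd h3.1.pos h5
      omega
    have h5 : ((∏ j ∈ range (i + 1), t j : ℕ) : ZMod p) * y
        = (t i : ZMod p) * (((∏ j ∈ range i, t j : ℕ) : ZMod p) * y) := by
      rw [Finset.prod_range_succ, Nat.cast_mul]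
      ring
    rw [h5]
    refine ⟨mul_ne_zero h4 h1, ?_⟩
    have h6 := hno i (Nat.lt_succ_self i)
    rw [mem_Bd] at h6
    push Not at h6
    rw [h6 h1, h2, Finset.prod_range_succ, la_mul _ h3.1.ne_zero, la_prime h3.1]
    · ring
    · rw [Finset.prod_ne_zero_iff]
      intro j hj
      exact (ht j (by have := Finset.mem_range.1 hj; omega)).1.ne_zero

private theorem exc2_unit {t : ℕ → ℕ} {k : ℕ} (ht : ∀ j < k, (t j).Prime ∧ t j < p) :
    ∀ i ≤ k, ((∏ j ∈ range i, t j : ℕ) : ZMod p) ≠ 0 := by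
  intro i hi
  rw [Nat.cast_prod, Finset.prod_ne_zero_iff]
  intro j hj
  have h3 := ht j (by have := Finset.mem_range.1 hj; omega)
  rw [Ne, ZMod.natCast_eq_zero_iff]
  intro h5
  have := Nat.le_of_dvd h3.1.pos h5
  omega

private theorem exc2_sm {m M : ℕ} (hm : 0 < m) {u : Fin m → ℕ} (hu : u ∈ Tup m (Icc 1 M)) :
    0 < sm u ∧ sm u ≤ m * M := by
  have h1 := mem_Tup.1 hu
  constructor
  · unfold sm
    have h2 : u ⟨0, hm⟩ ≤ ∑ j, u j :=
      Finset.single_le_sum (f := u) (fun _ _ => Nat.zero_le _) (Finset.mem_univ _)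
    have h3 := (Finset.mem_Icc.1 (h1 ⟨0, hm⟩)).1
    omega
  · unfold sm
    calc ∑ j, u j ≤ ∑ _j : Fin m, M := Finset.sum_le_sum fun j _ => (Finset.mem_Icc.1 (h1 j)).2
      _ = m * M := by simp

open Classical in
private theorem exc2_fix {m M Y K1 : ℕ} {R : Finset ℕ}
    (hR : ∀ r ∈ R, r.Prime ∧ r ≤ Y) (hm : 0 < m) (h : m * M * Y < p)
    (hK1 : ∀ n : ℕ, 0 < n → n < p → #(R.filter fun q => q ∣ n) ≤ K1)
    {g x : ZMod p} (hg : g ≠ 0) (hx : x ≠ 0) :
    ∑ r ∈ R, #((Tup m (Icc 1 M)).filter fun u => g * ((r * sm u : ℕ) : ZMod p) = x) ≤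
      K1 * M ^ (m - 1) := by
  obtain ⟨v, hv⟩ : ∃ v, v = (x * g⁻¹).val := ⟨_, rfl⟩
  have hv0 : 0 < v := by
    rw [Nat.pos_iff_ne_zero, hv, Ne, ZMod.val_eq_zero]
    exact mul_ne_zero hx (inv_ne_zero hg)
  have hvp : v < p := by rw [hv]; exact ZMod.val_lt _
  have key : ∀ r ∈ R, #((Tup m (Icc 1 M)).filter fun u => g * ((r * sm u : ℕ) : ZMod p) = x) ≤
      if r ∣ v then M ^ (m - 1) else 0 := by
    intro r hr
    have hr' := hR r hr
    have h1 : ((Tup m (Icc 1 M)).filter fun u => g * ((r * sm u : ℕ) : ZMod p) = x) ⊆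
        (Tup m (Icc 1 M)).filter fun u => r * sm u = v := by
      intro u hu
      rw [Finset.mem_filter] at hu ⊢
      refine ⟨hu.1, ?_⟩
      have h2 := exc2_sm hm hu.1
      have h3 : r * sm u < p := by
        calc r * sm u ≤ Y * (m * M) := Nat.mul_le_mul hr'.2 h2.2
          _ = m * M * Y := by ring
          _ < p := h
      have h4 : ((r * sm u : ℕ) : ZMod p) = x * g⁻¹ := by
        rw [← hu.2]
        field_simp
      have h5 := congrArg ZMod.val h4
      rw [ZMod.val_natCast_of_lt h3] at h5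
      rw [h5, hv]
    split_ifs with h6
    · refine le_trans (Finset.card_le_card (t := (Tup m (Icc 1 M)).filter fun u => sm u = v / r)
        ?_) (card_sum_le m M (v / r) hm)
      intro u hu
      have h7 := Finset.mem_filter.1 (h1 hu)
      refine Finset.mem_filter.2 ⟨h7.1, ?_⟩
      rw [← h7.2, Nat.mul_div_cancel_left _ hr'.1.pos]
    · rw [Nat.le_zero, Finset.card_eq_zero, Finset.eq_empty_iff_forall_notMem]
      intro u hu
      have h7 := Finset.mem_filter.1 (h1 hu)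
      exact h6 ⟨_, h7.2.symm⟩
  calc _ ≤ ∑ r ∈ R, (if r ∣ v then M ^ (m - 1) else 0) := Finset.sum_le_sum key
    _ = #(R.filter fun q => q ∣ v) * M ^ (m - 1) := by
        rw [← Finset.sum_filter, Finset.sum_const, smul_eq_mul]
    _ ≤ K1 * M ^ (m - 1) := Nat.mul_le_mul_right _ (hK1 v hv0 hvp)

open Classical in
private theorem exc2_set {m M Y K1 : ℕ} {R : Finset ℕ}
    (hR : ∀ r ∈ R, r.Prime ∧ r ≤ Y) (hm : 0 < m) (h : m * M * Y < p)
    (hK1 : ∀ n : ℕ, 0 < n → n < p → #(R.filter fun q => q ∣ n) ≤ K1)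
    {g : ZMod p} (hg : g ≠ 0) (q : ℕ) :
    ∑ r ∈ R, #((Tup m (Icc 1 M)).filter fun u => g * ((r * sm u : ℕ) : ZMod p) ∈ Bd p q) ≤
      #(Bd p q) * (K1 * M ^ (m - 1)) := by
  calc ∑ r ∈ R, #((Tup m (Icc 1 M)).filter fun u => g * ((r * sm u : ℕ) : ZMod p) ∈ Bd p q)
      ≤ ∑ r ∈ R, ∑ x ∈ Bd p q,
        #((Tup m (Icc 1 M)).filter fun u => g * ((r * sm u : ℕ) : ZMod p) = x) := by
        refine Finset.sum_le_sum fun r _ => ?_
        refine le_trans (Finset.card_le_card (t := (Bd p q).biUnion fun x =>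
          (Tup m (Icc 1 M)).filter fun u => g * ((r * sm u : ℕ) : ZMod p) = x) ?_)
          Finset.card_biUnion_le
        intro u hu
        have h1 := Finset.mem_filter.1 hu
        exact Finset.mem_biUnion.2 ⟨_, h1.2, Finset.mem_filter.2 ⟨h1.1, rfl⟩⟩
    _ = ∑ x ∈ Bd p q, ∑ r ∈ R,
        #((Tup m (Icc 1 M)).filter fun u => g * ((r * sm u : ℕ) : ZMod p) = x) :=
        Finset.sum_comm
    _ ≤ ∑ _x ∈ Bd p q, K1 * M ^ (m - 1) := by
        refine Finset.sum_le_sum fun x hx => ?_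
        exact exc2_fix hR hm h hK1 hg (mem_Bd.1 hx).1
    _ = #(Bd p q) * (K1 * M ^ (m - 1)) := by rw [Finset.sum_const, smul_eq_mul]

theorem exc_sum {k m M Y K1 : ℕ} {P R : Finset ℕ} {B : ℝ} (hP : ∀ q ∈ P, q.Prime ∧ q < p)
    (hR : ∀ r ∈ R, r.Prime ∧ r ≤ Y) (hm : 0 < m) (hM : 0 < M) (h : m * M * Y < p)
    (hK1 : ∀ n : ℕ, 0 < n → n < p → #(R.filter fun q => q ∣ n) ≤ K1)
    (hB : ∀ q ∈ P, (#(Bd p q) : ℝ) ≤ B) :
    ∑ r ∈ R, Ex p k m M P r ≤ k * (#P : ℝ) ^ k * B * K1 * (M : ℝ) ^ (m - 1) := by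
  classical
  have hext : ∀ t ∈ Tup k P, ∀ j < k, exc2_ext t j ∈ P := by
    intro t ht j hj
    unfold exc2_ext
    rw [dif_pos hj]
    exact mem_Tup.1 ht _
  have s1 : ∀ r ∈ R, Ex p k m M P r ≤ ∑ t ∈ Tup k P, ∑ i ∈ range k,
      (#((Tup m (Icc 1 M)).filter fun u =>
        ((∏ j ∈ range i, exc2_ext t j : ℕ) : ZMod p) * ((r * sm u : ℕ) : ZMod p) ∈
          Bd p (exc2_ext t i)) : ℝ) := by
    intro r hr
    have hr' := hR r hr
    have h1 : ((Tup k P ×ˢ Tup m (Icc 1 M)).filter fun c =>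
      F (((pr c.1 : ℕ) : ZMod p) * (((r * sm c.2 : ℕ) : ℕ) : ZMod p)) ≠
        la (pr c.1) * F (((r * sm c.2 : ℕ) : ℕ) : ZMod p)) ⊆
        (Tup k P).biUnion fun t => (range k).biUnion fun i =>
          ((Tup m (Icc 1 M)).filter fun u =>
            ((∏ j ∈ range i, exc2_ext t j : ℕ) : ZMod p) * ((r * sm u : ℕ) : ZMod p) ∈
              Bd p (exc2_ext t i)).image fun u => (t, u) := by
      rintro ⟨t, u⟩ hc
      rw [Finset.mem_filter, Finset.mem_product] at hc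
      obtain ⟨⟨ht, hu⟩, hne⟩ := hc
      simp only at ht hu hne
      have h2 := exc2_sm hm hu
      have h3 : r * sm u < p := by
        calc r * sm u ≤ Y * (m * M) := Nat.mul_le_mul hr'.2 h2.2
          _ = m * M * Y := by ring
          _ < p := h
      have hy : ((r * sm u : ℕ) : ZMod p) ≠ 0 := by
        rw [Ne, ZMod.natCast_eq_zero_iff]
        intro h4
        have := Nat.le_of_dvd (Nat.mul_pos hr'.1.pos h2.1) h4
        omega
      by_contra hcon
      apply hne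
      have h5 := (exc2_step (t := exc2_ext t) (k := k) (fun j hj => hP _ (hext t ht j hj)) hy k
        le_rfl (fun i hi hmem => hcon ?_)).2
      · rw [← exc2_pr] at h5
        exact h5
      · refine Finset.mem_biUnion.2 ⟨t, ht, Finset.mem_biUnion.2 ⟨i, Finset.mem_range.2 hi, ?_⟩⟩
        exact Finset.mem_image.2 ⟨u, Finset.mem_filter.2 ⟨hu, hmem⟩, rfl⟩
    have h2 : #((Tup k P ×ˢ Tup m (Icc 1 M)).filter fun c =>
      F (((pr c.1 : ℕ) : ZMod p) * (((r * sm c.2 : ℕ) : ℕ) : ZMod p)) ≠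
        la (pr c.1) * F (((r * sm c.2 : ℕ) : ℕ) : ZMod p)) ≤
        ∑ t ∈ Tup k P, ∑ i ∈ range k, #((Tup m (Icc 1 M)).filter fun u =>
            ((∏ j ∈ range i, exc2_ext t j : ℕ) : ZMod p) * ((r * sm u : ℕ) : ZMod p) ∈
              Bd p (exc2_ext t i)) := by
      refine le_trans (Finset.card_le_card h1) (le_trans Finset.card_biUnion_le ?_)
      refine Finset.sum_le_sum fun t _ => le_trans Finset.card_biUnion_le ?_
      exact Finset.sum_le_sum fun i _ => Finset.card_image_le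
    have h3 : Ex p k m M P r = (#((Tup k P ×ˢ Tup m (Icc 1 M)).filter fun c =>
      F (((pr c.1 : ℕ) : ZMod p) * (((r * sm c.2 : ℕ) : ℕ) : ZMod p)) ≠
        la (pr c.1) * F (((r * sm c.2 : ℕ) : ℕ) : ZMod p)) : ℝ) := by
      unfold Ex
      rfl
    rw [h3]
    exact_mod_cast h2
  have s2 : ∀ t ∈ Tup k P, ∀ i ∈ range k, ∑ r ∈ R,
      (#((Tup m (Icc 1 M)).filter fun u =>
        ((∏ j ∈ range i, exc2_ext t j : ℕ) : ZMod p) * ((r * sm u : ℕ) : ZMod p) ∈
          Bd p (exc2_ext t i)) : ℝ) ≤ B * (K1 * (M : ℝ) ^ (m - 1)) := by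
    intro t ht i hi
    have hi' := Finset.mem_range.1 hi
    have h1 := exc2_set hR hm h hK1 (g := ((∏ j ∈ range i, exc2_ext t j : ℕ) : ZMod p))
      (exc2_unit (k := k) (fun j hj => hP _ (hext t ht j hj)) i hi'.le) (exc2_ext t i)
    have h2 : ∑ r ∈ R, (#((Tup m (Icc 1 M)).filter fun u =>
        ((∏ j ∈ range i, exc2_ext t j : ℕ) : ZMod p) * ((r * sm u : ℕ) : ZMod p) ∈
          Bd p (exc2_ext t i)) : ℝ) ≤ (#(Bd p (exc2_ext t i)) : ℝ) * (K1 * (M : ℝ) ^ (m - 1)) := by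
      exact_mod_cast h1
    exact le_trans h2 (mul_le_mul_of_nonneg_right (hB _ (hext t ht i hi')) (by positivity))
  calc ∑ r ∈ R, Ex p k m M P r
      ≤ ∑ r ∈ R, ∑ t ∈ Tup k P, ∑ i ∈ range k,
        (#((Tup m (Icc 1 M)).filter fun u =>
          ((∏ j ∈ range i, exc2_ext t j : ℕ) : ZMod p) * ((r * sm u : ℕ) : ZMod p) ∈
            Bd p (exc2_ext t i)) : ℝ) := Finset.sum_le_sum s1
    _ = ∑ t ∈ Tup k P, ∑ i ∈ range k, ∑ r ∈ R,
        (#((Tup m (Icc 1 M)).filter fun u =>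
          ((∏ j ∈ range i, exc2_ext t j : ℕ) : ZMod p) * ((r * sm u : ℕ) : ZMod p) ∈
            Bd p (exc2_ext t i)) : ℝ) := by
        rw [Finset.sum_comm]
        exact Finset.sum_congr rfl fun t _ => Finset.sum_comm
    _ ≤ ∑ _t ∈ Tup k P, ∑ _i ∈ range k, B * (K1 * (M : ℝ) ^ (m - 1)) :=
        Finset.sum_le_sum fun t ht => Finset.sum_le_sum fun i hi => s2 t ht i hi
    _ = k * (#P : ℝ) ^ k * B * K1 * (M : ℝ) ^ (m - 1) := by
        rw [Finset.sum_const, Finset.sum_const, card_Tup, Finset.card_range]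
        simp only [nsmul_eq_mul, Nat.cast_pow]
        ring

end Pool.Agent.Helper26.PE
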