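import Pool.Agent.Helper26.PE.Defs

/-!
# PE-Primes: counting primes

PROOF.  (1) Chebyshev's lower bound `π(x) ≥ c x / log x` (see Helper68/CO2/PiGrow.lean `pi_real` for the Mathlib lemma used
there), `π(S ^ 2) - S ≥ S ^ (2 - a)` for large `S`.  (2) Chebyshev's upper bound (Mathlib) and dyadic blocks
`(2 ^ i Y, 2 ^ (i+1) Y]`: each contributes at most `π(2 ^ (i+1) Y) / (2 ^ i Y) ≤ C / log Y`; there are `≤ 1 + log (N / Y) / log 2`
blocks.  (A Mertens theorem of the pool may also be used.)  (3) The product of the distinct primes of `P` which divide `n` divides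
`n`, so `S ^ # ≤ n`.
-/

set_option autoImplicit false

namespace Pool.Agent.Helper26.PE

open Finset

variable {p : ℕ} [hp : Fact p.Prime]

private theorem Primes_real (a : ℝ) (ha : 0 < a) : ∃ B : ℝ, ∀ y : ℝ, B ≤ y →
    y ^ (2 - a) + y ≤ (y ^ 2 * Real.log 2 - Real.log (y ^ 2 + 1)) / Real.log (y ^ 2) := by
  have hl2 : (0 : ℝ) < Real.log 2 := Real.log_pos (by norm_num)
  have h1 : (fun y : ℝ => y ^ (2 - a) * Real.log y) =o[Filter.atTop]
      (fun y : ℝ => y ^ (2 - a) * y ^ a) :=
    (Asymptotics.isBigO_refl _ _).mul_isLittleO (isLittleO_log_rpow_atTop ha)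
  have h2 : (Real.log) =o[Filter.atTop] (fun y : ℝ => y) := Real.isLittleO_log_id_atTop
  have e1 := h1.bound (show 0 < Real.log 2 / 8 by positivity)
  have e2 := h2.bound (show 0 < Real.log 2 / 8 by positivity)
  have key : ∀ᶠ y : ℝ in Filter.atTop,
      y ^ (2 - a) + y ≤ (y ^ 2 * Real.log 2 - Real.log (y ^ 2 + 1)) / Real.log (y ^ 2) := by
    filter_upwards [e1, e2, Filter.eventually_ge_atTop (3 : ℝ)] with y h1 h2 h3
    have hy0 : 0 < y := by linarith
    have hlog : 0 < Real.log y := Real.log_pos (by linarith)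
    have hpow : y ^ (2 - a) * y ^ a = y ^ 2 := by
      rw [← Real.rpow_add hy0, sub_add_cancel]
      norm_num
    rw [hpow, Real.norm_of_nonneg (by positivity), Real.norm_of_nonneg (by positivity)] at h1
    rw [Real.norm_of_nonneg hlog.le, Real.norm_of_nonneg hy0.le] at h2
    rw [Real.log_pow, Nat.cast_ofNat, le_div_iff₀ (by positivity)]
    have h4 : y * Real.log y ≤ Real.log 2 / 8 * y ^ 2 := by nlinarith
    have h6 : Real.log (y ^ 2 + 1) ≤ 3 * Real.log y := by
      have h7 : Real.log (y ^ 2 + 1) ≤ Real.log (y ^ 3) :=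
        Real.log_le_log (by positivity) (by nlinarith [sq_nonneg y])
      rwa [Real.log_pow, Nat.cast_ofNat] at h7
    have h8 : Real.log y ≤ Real.log 2 / 8 * y ^ 2 := by nlinarith
    have h9 : (y ^ (2 - a) + y) * (2 * Real.log y) =
        2 * (y ^ (2 - a) * Real.log y) + 2 * (y * Real.log y) := by ring
    rw [h9]
    have h10 : 0 ≤ Real.log 2 * y ^ 2 := by positivity
    linarith
  obtain ⟨B, hB⟩ := Filter.eventually_atTop.1 key
  exact ⟨B, fun y hy => hB y hy⟩

omit hp in
theorem many_primes (a : ℝ) (ha : 0 < a) : ∃ S0 : ℕ, ∀ S : ℕ, S0 ≤ S →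
    (S : ℝ) ^ (2 - a) ≤ (#(PS S) : ℝ) := by
  obtain ⟨B, hB⟩ := Primes_real a ha
  refine ⟨⌈B⌉₊, fun S hS => ?_⟩
  have hSB : B ≤ (S : ℝ) := (Nat.le_ceil B).trans (by exact_mod_cast hS)
  have h1 := hB S hSB
  have h2 := Chebyshev.pi_ge (S ^ 2)
  push_cast at h2
  have h3 := h1.trans h2
  have h4 : Nat.primeCounting (S ^ 2) ≤ #(PS S) + S := by
    rw [Nat.primeCounting, Nat.primeCounting', Nat.count_eq_card_filter_range]
    have h5 : (range (S ^ 2 + 1)).filter Nat.Prime ⊆ PS S ∪ Ioc 0 S := by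
      intro q hq
      rw [mem_filter, mem_range] at hq
      rw [mem_union, PS, mem_filter, mem_Ioc, mem_Ioc]
      have := hq.2.pos
      by_cases h : q ≤ S
      · exact Or.inr ⟨this, h⟩
      · exact Or.inl ⟨⟨by omega, by omega⟩, hq.2⟩
    refine (card_le_card h5).trans ((card_union_le _ _).trans ?_)
    rw [Nat.card_Ioc, Nat.sub_zero]
  have h5 : (Nat.primeCounting (S ^ 2) : ℝ) ≤ (#(PS S) : ℝ) + S := by exact_mod_cast h4
  linarith

/-- one block -/
private theorem Primes_block (M N : ℕ) (hM : 2 ≤ M) (hN : N ≤ 2 * M + 1) :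
    ∑ q ∈ (Ioc M N).filter Nat.Prime, 1 / (q : ℝ) ≤ 4 * Real.log 2 / Real.log M := by
  have hlM : 0 < Real.log M := Real.log_pos (by exact_mod_cast hM)
  have h1 : ∀ q ∈ (Ioc M N).filter Nat.Prime, 1 / (q : ℝ) ≤
      Real.log q * (1 / ((M + 1) * Real.log M)) := by
    intro q hq
    rw [mem_filter, mem_Ioc] at hq
    have hq1 : ((M : ℝ) + 1) ≤ q := by exact_mod_cast hq.1.1
    have hM0 : (0 : ℝ) < M := by
      have : 0 < M := by omega
      exact_mod_cast this
    have h2 : Real.log M ≤ Real.log q := Real.log_le_log hM0 (by linarith)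
    rw [mul_one_div, div_le_div_iff₀ (by linarith) (by positivity), one_mul]
    nlinarith
  refine (sum_le_sum h1).trans ?_
  rw [← sum_mul]
  have h3 : ∑ q ∈ (Ioc M N).filter Nat.Prime, Real.log q ≤ Chebyshev.theta N := by
    rw [Chebyshev.theta, Nat.floor_natCast]
    refine sum_le_sum_of_subset_of_nonneg ?_ ?_
    · intro q hq
      rw [mem_filter, mem_Ioc] at hq ⊢
      exact ⟨⟨by omega, hq.1.2⟩, hq.2⟩
    · intro q hq _
      exact Real.log_natCast_nonneg q
  have h4 := Chebyshev.theta_le_log4_mul_x (x := (N : ℝ)) (by positivity)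
  have h5 : Real.log 4 = 2 * Real.log 2 := by
    rw [show (4 : ℝ) = 2 ^ 2 by norm_num, Real.log_pow, Nat.cast_ofNat]
  have hN' : (N : ℝ) ≤ 2 * (M + 1) := by
    have : N ≤ 2 * (M + 1) := by omega
    exact_mod_cast this
  have hl2 : (0 : ℝ) < Real.log 2 := Real.log_pos (by norm_num)
  have h6 : ∑ q ∈ (Ioc M N).filter Nat.Prime, Real.log q ≤ 4 * Real.log 2 * (M + 1) := by
    refine (h3.trans h4).trans ?_
    rw [h5]
    nlinarith
  have hM1 : (0 : ℝ) < (M : ℝ) + 1 := by positivity
  rw [mul_one_div, div_le_div_iff₀ (by positivity) hlM]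
  nlinarith

omit hp in
theorem mertens_block : ∃ C : ℝ, 0 < C ∧ ∀ Y N : ℕ, 2 ≤ Y → Y ≤ N →
    ∑ q ∈ (Ioc Y N).filter Nat.Prime, 1 / (q : ℝ) ≤
      C * (1 + Real.log ((N : ℝ) / Y)) / Real.log Y := by
  refine ⟨4, by norm_num, fun Y N hY hN => ?_⟩
  have hlY : 0 < Real.log Y := Real.log_pos (by exact_mod_cast hY)
  have hY0 : (0 : ℝ) < Y := by
    have : 0 < Y := by omega
    exact_mod_cast this
  have hl2 : (0 : ℝ) < Real.log 2 := Real.log_pos (by norm_num)
  have hl1 : Real.log 2 ≤ 1 := by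
    have := Real.log_two_lt_d9
    linarith
  induction N using Nat.strong_induction_on with
  | _ N ih =>
    by_cases h : N ≤ 2 * Y + 1
    · refine (Primes_block Y N hY h).trans ?_
      rw [div_le_div_iff_of_pos_right hlY]
      have h1 : 0 ≤ Real.log ((N : ℝ) / Y) := by
        refine Real.log_nonneg ?_
        rw [le_div_iff₀ hY0, one_mul]
        exact_mod_cast hN
      linarith
    · have hM1 : Y ≤ N / 2 := by omega
      have hM2 : N / 2 < N := by omega
      have hM3 : N ≤ 2 * (N / 2) + 1 := by omega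
      have h1 := ih (N / 2) hM2 hM1
      have h2 := Primes_block (N / 2) N (by omega) hM3
      have hM0 : (0 : ℝ) < ((N / 2 : ℕ) : ℝ) := by
        have : 0 < N / 2 := by omega
        exact_mod_cast this
      have hN0 : (0 : ℝ) < (N : ℝ) := by
        have : 0 < N := by omega
        exact_mod_cast this
      have h3 : (Ioc Y N).filter Nat.Prime =
          (Ioc Y (N / 2)).filter Nat.Prime ∪ (Ioc (N / 2) N).filter Nat.Prime := by
        rw [← filter_union, Ioc_union_Ioc_eq_Ioc hM1 hM2.le]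
      have h4 : Disjoint ((Ioc Y (N / 2)).filter Nat.Prime) ((Ioc (N / 2) N).filter Nat.Prime) := by
        rw [disjoint_left]
        intro q hq hq'
        rw [mem_filter, mem_Ioc] at hq hq'
        omega
      rw [h3, sum_union h4]
      have h5 : Real.log Y ≤ Real.log ((N / 2 : ℕ) : ℝ) :=
        Real.log_le_log hY0 (by exact_mod_cast hM1)
      have h6 : 4 * Real.log 2 / Real.log ((N / 2 : ℕ) : ℝ) ≤ 4 * Real.log 2 / Real.log Y :=
        div_le_div_of_nonneg_left (by positivity) hlY h5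
      have h7 : Real.log (((N / 2 : ℕ) : ℝ) / Y) ≤ Real.log ((N : ℝ) / Y) - Real.log 2 := by
        rw [Real.log_div hM0.ne' hY0.ne', Real.log_div hN0.ne' hY0.ne']
        have h8 : Real.log ((N / 2 : ℕ) : ℝ) + Real.log 2 ≤ Real.log N := by
          rw [← Real.log_mul hM0.ne' (by norm_num)]
          refine Real.log_le_log (by positivity) ?_
          have : (N / 2) * 2 ≤ N := Nat.div_mul_le_self N 2
          exact_mod_cast this
        linarith
      calc _ ≤ 4 * (1 + Real.log (((N / 2 : ℕ) : ℝ) / Y)) / Real.log Y +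
            4 * Real.log 2 / Real.log Y := add_le_add h1 (h2.trans h6)
        _ = 4 * (1 + Real.log (((N / 2 : ℕ) : ℝ) / Y) + Real.log 2) / Real.log Y := by ring
        _ ≤ _ := by
            rw [div_le_div_iff_of_pos_right hlY]
            linarith

omit hp in
theorem card_big {S K n : ℕ} (hS : 1 < S) (hn : 0 < n) (h : n < S ^ (K + 1)) (P : Finset ℕ)
    (hP : ∀ q ∈ P, q.Prime ∧ S < q) : #(P.filter fun q => q ∣ n) ≤ K := by
  by_contra hcon
  push Not at hcon
  set T := P.filter fun q => q ∣ n with hT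
  have h1 : ∏ q ∈ T, q ∣ n := by
    refine prod_primes_dvd n (fun q hq => ?_) (fun q hq => ?_)
    · rw [hT, mem_filter] at hq
      exact (hP q hq.1).1.prime
    · rw [hT, mem_filter] at hq
      exact hq.2
  have h2 : S ^ #T ≤ ∏ q ∈ T, q := by
    rw [← prod_const]
    refine prod_le_prod (fun _ _ => Nat.zero_le _) fun q hq => ?_
    rw [hT, mem_filter] at hq
    exact (hP q hq.1).2.le
  have h3 : S ^ (K + 1) ≤ S ^ #T := Nat.pow_le_pow_right (by omega) hcon
  have h4 := Nat.le_of_dvd hn h1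
  omega

end Pool.Agent.Helper26.PE
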