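import Pool.Agent.Helper26.PE.Ext
import Pool.Agent.Helper26.PE.Beta
import Pool.Agent.Helper26.PE.Primes

/-!
# PE-Fin1: the choice of the parameters, first part

PROOF.  `Q = S ^ 2`, `P = PS S` (primes in `(S, Q]`).  `S ^ (4 k0 + 4) ≤ p < (S + 1) ^ (4 k0 + 4)`.  (a) For primes
`q ≤ Q`: `bad_card` with `M = ⌊(p - 1) / (2 q)⌋ ≥ p / (4 q)` and `L = S ^ 11`, `Nat.card H ≥ S ^ 40`:
`#Bd ≤ p (4 S ^ -18 + 32 q ^ 3 / S ^ 22) ≤ 36 p S ^ -16 =: B`.  (b) For `2 ≤ k ≤ k0` take `R` = the primes in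
`(Q ^ (k-1), Q ^ k]`, `Y0 = Q ^ (k - 1)`, `L = S ^ (2 k + 1)`, `m = 2 k0 + 3`, `M = ⌊(p - 1) / (m Q ^ k)⌋ ≥ p / (2 m Q ^ k)`,
`K0 = 4 k0 + 5` (`card_big`: `p < (S + 1) ^ (4 k0 + 4) < S ^ (4 k0 + 5)`; elements of `R`, `P` are `> S`); `2 L Q ^ (k+1) = 2 S ^ (4 k + 3)
< p`.  In `ext_sum`: `#P ≥ S ^ (2 - a)`, `a = 1 / (8 (k0 + 2))` (`many_primes`), so `4 K0 ^ (k+1) L / #P ^ (k+1) ≤ C S ^ (-1 + 1/8)`,
`2 p (p / (2 L M)) ^ (2 m) ≤ 2 p (m / S) ^ (4 k0 + 6) ≤ C S ^ -2`, `2 B K0 ^ k / (#P ^ k M) ≤ C S ^ (-16 + 1/8)`,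
`2 (k + 1) B K0 / (M Y0) ≤ C S ^ -14`, `∑ 1 / r ≤ 1 + log p ≤ C S ^ (1/16)`.  (c) The primes `q ≤ Q` contribute at most
`36 S ^ -16 (1 + log Q)`.  Sum of all: `≤ S ^ (-1/2)` for `S ≥ S0 (k0)`.
-/

set_option autoImplicit false

namespace Pool.Agent.Helper26.PE

open Finset

variable {p : ℕ} [hp : Fact p.Prime]

omit hp in
/-- reciprocals of the elements of a set of positive integers up to `N` -/
theorem Fin1_sum_inv {R : Finset ℕ} {N : ℕ} (hR : ∀ r ∈ R, 1 ≤ r ∧ r ≤ N) :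
    ∑ r ∈ R, 1 / (r : ℝ) ≤ 1 + Real.log N := by
  have h1 : ∑ r ∈ R, 1 / (r : ℝ) ≤ ∑ r ∈ Icc 1 N, 1 / (r : ℝ) := by
    apply Finset.sum_le_sum_of_subset_of_nonneg
    · intro r hr
      exact Finset.mem_Icc.2 (hR r hr)
    · intro r _ _
      positivity
  refine h1.trans ?_
  have h2 := harmonic_le_one_add_log N
  rw [harmonic_eq_sum_Icc] at h2
  push_cast at h2
  refine le_trans (le_of_eq ?_) h2
  exact Finset.sum_congr rfl fun r _ => one_div _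

omit hp in
/-- the four terms of `ext_sum` -/
theorem Fin1_terms {s E n Mr pr m K : ℝ} {k0 j : ℕ} (hs : 1 ≤ s) (hE : 1 ≤ E) (hn : 0 < n)
    (hM : 0 < Mr) (hp0 : 0 < pr) (hm : 0 < m) (hK : 1 ≤ K) (hj : j + 1 ≤ k0)
    (h1 : s ^ (2 * (j + 1)) ≤ n ^ (j + 1) * E) (h2 : s ^ (2 * (j + 2)) ≤ n ^ (j + 2) * E)
    (hpM : pr ≤ 2 * (m * s ^ (2 * (j + 1))) * Mr)
    (hp1 : pr ≤ 2 ^ (4 * k0 + 4) * s ^ (4 * k0 + 4)) :
    2 * (36 * pr / s ^ 16) * K ^ (j + 1) / (n ^ (j + 1) * Mr) ≤ 144 * m * K ^ k0 * (E / s) ∧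
    4 * K ^ (j + 1 + 1) * s ^ (2 * (j + 1) + 1) / n ^ (j + 1 + 1) ≤
      4 * K ^ (k0 + 1) * (E / s) ∧
    2 * pr * (pr / (2 * s ^ (2 * (j + 1) + 1) * Mr)) ^ (2 * (2 * k0 + 3)) ≤
      2 * 2 ^ (4 * k0 + 4) * m ^ (4 * k0 + 6) * (E / s) ∧
    2 * ((j + 1 : ℕ) + 1) * (36 * pr / s ^ 16) * K / (Mr * s ^ (2 * j)) ≤
      144 * (k0 + 1) * K * m * (E / s) := by
  have hs0 : 0 < s := by linarith
  have hE0 : 0 < E := by linarith
  have hK0 : 0 < K := by linarith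
  have hs16 : s ≤ s ^ 16 := by
    calc s = s ^ 1 := (pow_one s).symm
      _ ≤ s ^ 16 := pow_le_pow_right₀ hs (by norm_num)
  have hs14 : s ≤ s ^ 14 := by
    calc s = s ^ 1 := (pow_one s).symm
      _ ≤ s ^ 14 := pow_le_pow_right₀ hs (by norm_num)
  have hKk : K ^ (j + 1) ≤ K ^ k0 := pow_le_pow_right₀ hK hj
  have hKk1 : K ^ (j + 1 + 1) ≤ K ^ (k0 + 1) := pow_le_pow_right₀ hK (by omega)
  have hEs : 0 < E / s := by positivity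
  refine ⟨?_, ?_, ?_, ?_⟩
  · rw [div_le_iff₀ (by positivity)]
    calc 2 * (36 * pr / s ^ 16) * K ^ (j + 1)
        ≤ 2 * (36 * (2 * (m * s ^ (2 * (j + 1))) * Mr) / s ^ 16) * K ^ k0 := by gcongr
      _ = 144 * m * K ^ k0 * Mr * (s ^ (2 * (j + 1)) / s ^ 16) := by ring
      _ ≤ 144 * m * K ^ k0 * Mr * ((n ^ (j + 1) * E) / s) := by gcongr
      _ = 144 * m * K ^ k0 * (E / s) * (n ^ (j + 1) * Mr) := by ring
  · rw [div_le_iff₀ (by positivity)]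
    calc 4 * K ^ (j + 1 + 1) * s ^ (2 * (j + 1) + 1)
        = 4 * K ^ (j + 1 + 1) * (s ^ (2 * (j + 2)) / s) := by
          have : s ^ (2 * (j + 2)) = s ^ (2 * (j + 1) + 1) * s := by
            rw [← pow_succ]
            congr 1
          rw [this, mul_div_assoc, div_self hs0.ne', mul_one]
      _ ≤ 4 * K ^ (k0 + 1) * ((n ^ (j + 2) * E) / s) := by gcongr
      _ = 4 * K ^ (k0 + 1) * (E / s) * n ^ (j + 1 + 1) := by ring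
  · have e1 : pr / (2 * s ^ (2 * (j + 1) + 1) * Mr) ≤ m / s := by
      rw [div_le_div_iff₀ (by positivity) hs0]
      calc pr * s ≤ 2 * (m * s ^ (2 * (j + 1))) * Mr * s := by gcongr
        _ = m * (2 * s ^ (2 * (j + 1) + 1) * Mr) := by ring
    have e2 : (pr / (2 * s ^ (2 * (j + 1) + 1) * Mr)) ^ (2 * (2 * k0 + 3)) ≤
        (m / s) ^ (4 * k0 + 6) := by
      have : 2 * (2 * k0 + 3) = 4 * k0 + 6 := by ring
      rw [this]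
      exact pow_le_pow_left₀ (by positivity) e1 _
    calc 2 * pr * (pr / (2 * s ^ (2 * (j + 1) + 1) * Mr)) ^ (2 * (2 * k0 + 3))
        ≤ 2 * (2 ^ (4 * k0 + 4) * s ^ (4 * k0 + 4)) * (m / s) ^ (4 * k0 + 6) := by gcongr
      _ = 2 * 2 ^ (4 * k0 + 4) * m ^ (4 * k0 + 6) * (1 / s ^ 2) := by
          rw [div_pow]
          have : s ^ (4 * k0 + 6) = s ^ (4 * k0 + 4) * s ^ 2 := by rw [← pow_add]
          rw [this]
          field_simp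
      _ ≤ 2 * 2 ^ (4 * k0 + 4) * m ^ (4 * k0 + 6) * (E / s) := by
          gcongr ?_ * ?_
          rw [div_le_div_iff₀ (by positivity) hs0]
          nlinarith [mul_nonneg (sub_nonneg.2 hE) (sq_nonneg s)]
  · rw [div_le_iff₀ (by positivity)]
    have hj1 : ((j + 1 : ℕ) : ℝ) + 1 ≤ (k0 : ℝ) + 1 := by
      have : ((j + 1 : ℕ) : ℝ) ≤ (k0 : ℝ) := by exact_mod_cast hj
      linarith
    calc 2 * (((j + 1 : ℕ) : ℝ) + 1) * (36 * pr / s ^ 16) * K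
        ≤ 2 * ((k0 : ℝ) + 1) * (36 * (2 * (m * s ^ (2 * (j + 1))) * Mr) / s ^ 16) * K := by
          gcongr
      _ = 144 * (k0 + 1) * K * m * (1 / s ^ 14) * (Mr * s ^ (2 * j)) := by
          have h3 : s ^ (2 * (j + 1)) = s ^ (2 * j) * s ^ 2 := by rw [← pow_add]; ring_nf
          have h4 : s ^ 16 = s ^ 14 * s ^ 2 := by rw [← pow_add]
          rw [h3, h4]
          field_simp
          ring
      _ ≤ 144 * (k0 + 1) * K * m * (E / s) * (Mr * s ^ (2 * j)) := by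
          gcongr

/-- the bound for the exceptional sets of the primes up to `S ^ 2` -/
theorem Fin1_bd {k0 S : ℕ} (hk0 : 1 ≤ k0) (hS : 2 ≤ S) (h1 : S ^ (4 * k0 + 4) ≤ p)
    (H : Subgroup (ZMod p)ˣ) (hH : Stab H) (hc : S ^ 40 ≤ Nat.card H) {q : ℕ} (hq : q.Prime)
    (hqS : q ≤ S ^ 2) : (#(Bd p q) : ℝ) ≤ 36 * p / (S : ℝ) ^ 16 := by
  have h8 : S ^ 4 ≤ p :=
    (Nat.pow_le_pow_right (by omega) (by omega : 4 ≤ 4 * k0 + 4)).trans h1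
  have h4 : 4 * q ≤ p := by
    have : 4 * q ≤ S ^ 2 * S ^ 2 := Nat.mul_le_mul (by nlinarith) hqS
    calc 4 * q ≤ S ^ 2 * S ^ 2 := this
      _ = S ^ 4 := by ring
      _ ≤ p := h8
  have hq1 := hq.two_le
  set M : ℕ := (p - 1) / (2 * q) with hM
  have hM1 : 1 ≤ M := (Nat.one_le_div_iff (by omega)).2 (by omega)
  have hM2 : 2 * q * M ≤ p - 1 := Nat.mul_div_le _ _
  have hM3 : p ≤ 4 * q * M := by
    have h5 : p - 1 < 2 * q * (M + 1) := Nat.lt_mul_div_succ _ (by omega)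
    have h6 : 2 * q * (M + 1) ≤ 2 * q * (2 * M) := Nat.mul_le_mul_left _ (by omega)
    have h7 : 2 * q * (2 * M) = 4 * q * M := by ring
    omega
  have hb := bad_card H hH hq hM1 (by omega : 2 * q * M < p) (L := S ^ 11) (by positivity)
  refine hb.trans ?_
  have hs0 : (0 : ℝ) < S := by exact_mod_cast (by omega : 0 < S)
  have hs1 : (1 : ℝ) ≤ S := by exact_mod_cast (by omega : 1 ≤ S)
  have hp0 : (0 : ℝ) < p := by exact_mod_cast hp.out.pos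
  have hMr : (0 : ℝ) < M := by exact_mod_cast hM1
  have hc' : (S : ℝ) ^ 40 ≤ Nat.card H := by exact_mod_cast hc
  have hqr : (q : ℝ) ≤ (S : ℝ) ^ 2 := by exact_mod_cast hqS
  have hq0 : (0 : ℝ) < q := by exact_mod_cast hq.pos
  have hpM : (p : ℝ) ≤ 4 * q * M := by exact_mod_cast hM3
  have e1 : 4 * ((S ^ 11 : ℕ) : ℝ) ^ 2 / Nat.card H ≤ 4 / (S : ℝ) ^ 16 := by
    calc 4 * ((S ^ 11 : ℕ) : ℝ) ^ 2 / Nat.card H ≤ 4 * ((S ^ 11 : ℕ) : ℝ) ^ 2 / (S : ℝ) ^ 40 := by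
          gcongr
      _ = 4 / ((S : ℝ) ^ 16 * (S : ℝ) ^ 2) := by
          push_cast
          field_simp
      _ ≤ 4 / (S : ℝ) ^ 16 := by
          gcongr
          have : (1 : ℝ) ≤ (S : ℝ) ^ 2 := one_le_pow₀ hs1
          have h5 : (0 : ℝ) < (S : ℝ) ^ 16 := by positivity
          nlinarith
  have e2 : (p : ℝ) ^ 3 / (2 * (M : ℝ) ^ 3 * ((S ^ 11 : ℕ) : ℝ) ^ 2) ≤ 32 / (S : ℝ) ^ 16 := by
    calc (p : ℝ) ^ 3 / (2 * (M : ℝ) ^ 3 * ((S ^ 11 : ℕ) : ℝ) ^ 2)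
        ≤ (4 * (S : ℝ) ^ 2 * M) ^ 3 / (2 * (M : ℝ) ^ 3 * ((S ^ 11 : ℕ) : ℝ) ^ 2) := by
          gcongr
          exact hpM.trans (by gcongr)
      _ = 32 / (S : ℝ) ^ 16 := by
          push_cast
          field_simp
          ring
  calc (p : ℝ) * (4 * ((S ^ 11 : ℕ) : ℝ) ^ 2 / Nat.card H +
        (p : ℝ) ^ 3 / (2 * (M : ℝ) ^ 3 * ((S ^ 11 : ℕ) : ℝ) ^ 2))
      ≤ p * (4 / (S : ℝ) ^ 16 + 32 / (S : ℝ) ^ 16) := by gcongr
    _ = 36 * p / (S : ℝ) ^ 16 := by ring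

/-- one block of primes -/
theorem Fin1_block {k0 S : ℕ} (hS : 2 ^ (4 * k0 + 4) ≤ S) (hS3 : 3 ≤ S) (hSm : 2 * k0 + 3 ≤ S)
    {E : ℝ} (hE : 1 ≤ E)
    (hP : ∀ i, i ≤ k0 + 1 → (S : ℝ) ^ (2 * i) ≤ (#(PS S) : ℝ) ^ i * E) (hPne : (PS S).Nonempty)
    (h1 : S ^ (4 * k0 + 4) ≤ p) (h2 : p < (S + 1) ^ (4 * k0 + 4))
    (hB : ∀ q ∈ PS S, (#(Bd p q) : ℝ) ≤ 36 * p / (S : ℝ) ^ 16) {j : ℕ} (hj0 : 1 ≤ j)
    (hj : j + 1 ≤ k0) :
    ∑ r ∈ (Ioc (S ^ (2 * j)) (S ^ (2 * (j + 1)))).filter Nat.Prime, dl p r / r ≤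
      (144 * ((2 * k0 + 3 : ℕ) : ℝ) * ((4 * k0 + 4 : ℕ) : ℝ) ^ k0 * (E / S) +
        (4 * ((4 * k0 + 4 : ℕ) : ℝ) ^ (k0 + 1) * (E / S) +
          2 * 2 ^ (4 * k0 + 4) * ((2 * k0 + 3 : ℕ) : ℝ) ^ (4 * k0 + 6) * (E / S))) *
        (1 + Real.log ((S ^ (2 * (j + 1)) : ℕ) : ℝ)) +
      144 * (k0 + 1) * ((4 * k0 + 4 : ℕ) : ℝ) * ((2 * k0 + 3 : ℕ) : ℝ) * (E / S) := by
  have hs0 : (0 : ℝ) < S := by exact_mod_cast (by omega : 0 < S)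
  have hs1 : (1 : ℝ) ≤ S := by exact_mod_cast (by omega : 1 ≤ S)
  have hp0 : (0 : ℝ) < p := by exact_mod_cast hp.out.pos
  obtain ⟨D, hD⟩ : ∃ D, D = (2 * k0 + 3) * (S ^ 2) ^ (j + 1) := ⟨_, rfl⟩
  have hDp : 2 * D ≤ p - 1 := by
    have h3 : 2 * D < S ^ (4 * k0 + 4) := by
      calc 2 * D = 2 * (2 * k0 + 3) * S ^ (2 * (j + 1)) := by rw [hD, ← pow_mul]; ring
        _ ≤ S * S * S ^ (2 * (j + 1)) := by
            gcongr
            omega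
        _ = S ^ (2 * j + 4) := by ring
        _ < S ^ (4 * k0 + 4) := Nat.pow_lt_pow_right (by omega) (by omega)
    omega
  have hD0 : 0 < D := by
    rw [hD]
    positivity
  set M : ℕ := (p - 1) / D with hM
  have hM1 : 1 ≤ M := (Nat.one_le_div_iff hD0).2 (by omega)
  have hM2 : D * M ≤ p - 1 := Nat.mul_div_le _ _
  have hppos := hp.out.pos
  have hM3 : p ≤ 2 * D * M := by
    have h5 : p - 1 < D * (M + 1) := Nat.lt_mul_div_succ _ hD0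
    have h6 : D * (M + 1) ≤ D * (2 * M) := Nat.mul_le_mul_left _ (by omega)
    have h7 : D * (2 * M) = 2 * D * M := by ring
    omega
  have h2S : (S + 1) ^ (4 * k0 + 4) ≤ (2 * S) ^ (4 * k0 + 4) := Nat.pow_le_pow_left (by omega) _
  have hpS : p < S ^ (4 * k0 + 4 + 1) := by
    calc p < (S + 1) ^ (4 * k0 + 4) := h2
      _ ≤ (2 * S) ^ (4 * k0 + 4) := h2S
      _ = 2 ^ (4 * k0 + 4) * S ^ (4 * k0 + 4) := mul_pow _ _ _
      _ ≤ S * S ^ (4 * k0 + 4) := Nat.mul_le_mul_right _ hS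
      _ = S ^ (4 * k0 + 4 + 1) := by ring
  have hPS : ∀ q ∈ PS S, q.Prime ∧ S < q ∧ q ≤ S ^ 2 := by
    intro q hq
    rw [PS, mem_filter, mem_Ioc] at hq
    exact ⟨hq.2, hq.1.1, hq.1.2⟩
  have hRr : ∀ r ∈ (Ioc (S ^ (2 * j)) (S ^ (2 * (j + 1)))).filter Nat.Prime,
      r.Prime ∧ S ^ (2 * j) < r ∧ r ≤ (S ^ 2) ^ (j + 1) := by
    intro r hr
    rw [mem_filter, mem_Ioc] at hr
    refine ⟨hr.2, hr.1.1, ?_⟩
    rw [← pow_mul]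
    exact hr.1.2
  have hSj : S ≤ S ^ (2 * j) := by
    calc S = S ^ 1 := (pow_one S).symm
      _ ≤ S ^ (2 * j) := Nat.pow_le_pow_right (by omega) (by omega)
  have hext := ext_sum (p := p) (k := j + 1) (m := 2 * k0 + 3) (M := M) (L := S ^ (2 * (j + 1) + 1))
    (Q := S ^ 2) (Y0 := S ^ (2 * j)) (K0 := 4 * k0 + 4) (P := PS S)
    (R := (Ioc (S ^ (2 * j)) (S ^ (2 * (j + 1)))).filter Nat.Prime) (B := 36 * p / (S : ℝ) ^ 16)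
    (fun q hq => ⟨(hPS q hq).1, (hPS q hq).2.2⟩) hPne (by omega) hM1 (by positivity) (by omega)
    (by positivity)
    (by
      have : (2 * k0 + 3) * M * (S ^ 2) ^ (j + 1) = D * M := by rw [hD]; ring
      omega)
    (by
      calc 2 * S ^ (2 * (j + 1) + 1) * (S ^ 2) ^ (j + 1 + 1) = 2 * S ^ (4 * j + 7) := by
            rw [← pow_mul]; ring
        _ < S * S ^ (4 * j + 7) := Nat.mul_lt_mul_of_pos_right (by omega) (by positivity)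
        _ = S ^ (4 * j + 8) := by ring
        _ ≤ S ^ (4 * k0 + 4) := Nat.pow_le_pow_right (by omega) (by omega)
        _ ≤ p := h1)
    hRr (by positivity)
    (fun n hn hnp => card_big (by omega) hn (hnp.trans hpS) _ fun q hq =>
      ⟨(hPS q hq).1, (hPS q hq).2.1⟩)
    (fun n hn hnp => card_big (by omega) hn (hnp.trans hpS) _ fun r hr =>
      ⟨(hRr r hr).1, lt_of_le_of_lt hSj (hRr r hr).2.1⟩)
    hB
  have hn0 : (0 : ℝ) < #(PS S) := by exact_mod_cast hPne.card_pos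
  have hpM : (p : ℝ) ≤ 2 * (((2 * k0 + 3 : ℕ) : ℝ) * (S : ℝ) ^ (2 * (j + 1))) * (M : ℝ) := by
    have h5 : (p : ℝ) ≤ 2 * (D : ℝ) * (M : ℝ) := by exact_mod_cast hM3
    rw [hD] at h5
    push_cast at h5 ⊢
    rw [pow_mul]
    exact h5
  have hp1 : (p : ℝ) ≤ 2 ^ (4 * k0 + 4) * (S : ℝ) ^ (4 * k0 + 4) := by
    have h5 : p ≤ 2 ^ (4 * k0 + 4) * S ^ (4 * k0 + 4) := by
      rw [← mul_pow]
      exact (h2.trans_le h2S).le
    exact_mod_cast h5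
  obtain ⟨t1, t2, t3, t4⟩ := Fin1_terms (s := (S : ℝ)) (E := E) (n := (#(PS S) : ℝ)) (Mr := (M : ℝ))
    (pr := (p : ℝ)) (m := ((2 * k0 + 3 : ℕ) : ℝ)) (K := ((4 * k0 + 4 : ℕ) : ℝ)) (k0 := k0) (j := j)
    hs1 hE hn0 (by exact_mod_cast hM1) hp0 (by positivity)
    (by exact_mod_cast (by omega : 1 ≤ 4 * k0 + 4)) hj (hP (j + 1) (by omega))
    (hP (j + 2) (by omega)) hpM hp1
  have hsum : ∑ r ∈ (Ioc (S ^ (2 * j)) (S ^ (2 * (j + 1)))).filter Nat.Prime, 1 / (r : ℝ) ≤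
      1 + Real.log ((S ^ (2 * (j + 1)) : ℕ) : ℝ) := by
    apply Fin1_sum_inv
    intro r hr
    rw [mem_filter, mem_Ioc] at hr
    exact ⟨hr.2.one_lt.le, hr.1.2⟩
  have hsum0 : 0 ≤ ∑ r ∈ (Ioc (S ^ (2 * j)) (S ^ (2 * (j + 1)))).filter Nat.Prime, 1 / (r : ℝ) :=
    Finset.sum_nonneg fun r _ => by positivity
  refine hext.trans ?_
  push_cast at t1 t2 t3 t4 ⊢
  push_cast at hsum
  refine add_le_add ?_ ?_
  · refine mul_le_mul ?_ hsum hsum0 ?_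
    · exact add_le_add t1 (add_le_add t2 t3)
    · positivity
  · exact t4

omit hp in
/-- powers of the number of primes -/
theorem Fin1_P {k0 : ℕ} {s n a : ℝ} (hs : 1 ≤ s) (ha : a = 1 / (8 * ((k0 : ℝ) + 2)))
    (hn : s ^ (2 - a) ≤ n) {i : ℕ} (hi : i ≤ k0 + 1) :
    s ^ (2 * i) ≤ n ^ i * s ^ (1 / 8 : ℝ) := by
  have hs0 : 0 < s := by linarith
  have hk : (0 : ℝ) < (k0 : ℝ) + 2 := by positivity
  have hi' : (i : ℝ) ≤ (k0 : ℝ) + 2 := by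
    have : (i : ℝ) ≤ ((k0 + 1 : ℕ) : ℝ) := by exact_mod_cast hi
    push_cast at this
    linarith
  have hai : a * i ≤ 1 / 8 := by
    rw [ha, div_mul_eq_mul_div, one_mul, div_le_div_iff₀ (by positivity) (by norm_num)]
    linarith
  have h1 : (s ^ (2 - a)) ^ i ≤ n ^ i := pow_le_pow_left₀ (by positivity) hn i
  have h2 : (s ^ (2 - a)) ^ i = s ^ ((2 - a) * (i : ℝ)) := by
    rw [Real.rpow_mul hs0.le, Real.rpow_natCast]
  have h3 : s ^ (2 * i) = s ^ (((2 * i : ℕ) : ℝ)) := (Real.rpow_natCast _ _).symm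
  calc s ^ (2 * i) = s ^ (((2 * i : ℕ) : ℝ)) := h3
    _ ≤ s ^ ((2 - a) * (i : ℝ) + 1 / 8) := by
        apply Real.rpow_le_rpow_of_exponent_le hs
        push_cast
        nlinarith
    _ = (s ^ (2 - a)) ^ i * s ^ (1 / 8 : ℝ) := by rw [Real.rpow_add hs0, h2]
    _ ≤ n ^ i * s ^ (1 / 8 : ℝ) := by gcongr

omit hp in
/-- the final inequality between the powers -/
theorem Fin1_small (W : ℝ) : ∃ S1 : ℕ, ∀ S : ℕ, S1 ≤ S →
    (S : ℝ) ^ (1 / 8 : ℝ) / S * (W * (1 + Real.log S)) ≤ (S : ℝ) ^ (-(1 / 2) : ℝ) := by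
  have h1 : Filter.Tendsto (fun x : ℝ => x ^ (-(3 / 8) : ℝ)) Filter.atTop (nhds 0) :=
    tendsto_rpow_neg_atTop (by norm_num)
  have h2 : Filter.Tendsto (fun x : ℝ => Real.log x / x ^ (3 / 8 : ℝ)) Filter.atTop (nhds 0) :=
    (isLittleO_log_rpow_atTop (by norm_num : (0 : ℝ) < 3 / 8)).tendsto_div_nhds_zero
  have h3 : Filter.Tendsto (fun x : ℝ => W * (x ^ (-(3 / 8) : ℝ) + Real.log x / x ^ (3 / 8 : ℝ)))
      Filter.atTop (nhds (W * (0 + 0))) := (h1.add h2).const_mul W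
  rw [add_zero, mul_zero] at h3
  have h4 := (h3.comp tendsto_natCast_atTop_atTop).eventually (ge_mem_nhds (by norm_num : (0 : ℝ) < 1))
  obtain ⟨S1, hS1⟩ := Filter.eventually_atTop.1 h4
  refine ⟨max S1 1, fun S hS => ?_⟩
  have h5 := hS1 S (le_trans (le_max_left _ _) hS)
  have hS0 : 1 ≤ S := le_trans (le_max_right _ _) hS
  have hs0 : (0 : ℝ) < S := by exact_mod_cast hS0
  simp only [Function.comp_apply] at h5
  have h6 : W * (1 + Real.log S) ≤ (S : ℝ) ^ (3 / 8 : ℝ) := by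
    have h7 : W * (1 + Real.log S) = W * ((S : ℝ) ^ (-(3 / 8) : ℝ) +
        Real.log S / (S : ℝ) ^ (3 / 8 : ℝ)) * (S : ℝ) ^ (3 / 8 : ℝ) := by
      have h8 : (0 : ℝ) < (S : ℝ) ^ (3 / 8 : ℝ) := by positivity
      rw [Real.rpow_neg hs0.le]
      field_simp
    rw [h7]
    have h8 : (0 : ℝ) < (S : ℝ) ^ (3 / 8 : ℝ) := by positivity
    nlinarith
  calc (S : ℝ) ^ (1 / 8 : ℝ) / S * (W * (1 + Real.log S))
      ≤ (S : ℝ) ^ (1 / 8 : ℝ) / S * (S : ℝ) ^ (3 / 8 : ℝ) := by gcongr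
    _ = (S : ℝ) ^ (-(1 / 2) : ℝ) := by
        have h9 : (S : ℝ) ^ (1 / 8 : ℝ) / S = (S : ℝ) ^ ((1 / 8 : ℝ) - 1) := by
          rw [Real.rpow_sub hs0, Real.rpow_one]
        rw [h9, ← Real.rpow_add hs0]
        norm_num

/-- the sum over all the blocks -/
theorem Fin1_ind {S : ℕ} (hS : 1 ≤ S) {k0 : ℕ} {A Z : ℝ}
    (hA : ∑ q ∈ (Icc 1 (S ^ (2 * 1))).filter Nat.Prime, dl p q / q ≤ A)
    (hZ : ∀ j, 1 ≤ j → j + 1 ≤ k0 →
      ∑ r ∈ (Ioc (S ^ (2 * j)) (S ^ (2 * (j + 1)))).filter Nat.Prime, dl p r / r ≤ Z) :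
    ∀ j, j + 1 ≤ k0 →
      ∑ q ∈ (Icc 1 (S ^ (2 * (j + 1)))).filter Nat.Prime, dl p q / q ≤ A + j * Z := by
  intro j
  induction j with
  | zero =>
    intro _
    simpa using hA
  | succ j ih =>
    intro hj
    have h1 := ih (by omega)
    have h2 := hZ (j + 1) (by omega) hj
    have h3 : S ^ (2 * (j + 1)) ≤ S ^ (2 * (j + 1 + 1)) :=
      Nat.pow_le_pow_right hS (by omega)
    have h4 : (Icc 1 (S ^ (2 * (j + 1 + 1)))).filter Nat.Prime =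
        (Icc 1 (S ^ (2 * (j + 1)))).filter Nat.Prime ∪
          (Ioc (S ^ (2 * (j + 1))) (S ^ (2 * (j + 1 + 1)))).filter Nat.Prime := by
      ext q
      simp only [mem_union, mem_filter, mem_Icc, mem_Ioc]
      constructor
      · rintro ⟨⟨a, b⟩, c⟩
        rcases le_or_gt q (S ^ (2 * (j + 1))) with h | h
        · exact Or.inl ⟨⟨a, h⟩, c⟩
        · exact Or.inr ⟨⟨h, b⟩, c⟩
      · rintro (⟨⟨a, b⟩, c⟩ | ⟨⟨a, b⟩, c⟩)
        · exact ⟨⟨a, b.trans h3⟩, c⟩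
        · exact ⟨⟨c.one_lt.le, b⟩, c⟩
    have h5 : Disjoint ((Icc 1 (S ^ (2 * (j + 1)))).filter Nat.Prime)
        ((Ioc (S ^ (2 * (j + 1))) (S ^ (2 * (j + 1 + 1)))).filter Nat.Prime) := by
      rw [Finset.disjoint_left]
      intro q hq hq'
      rw [mem_filter, mem_Icc] at hq
      rw [mem_filter, mem_Ioc] at hq'
      omega
    rw [h4, Finset.sum_union h5]
    push_cast
    linarith

/-- the primes up to `S ^ 2` -/
theorem Fin1_first {S : ℕ} (hS : 1 ≤ S)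
    (hB : ∀ q : ℕ, q.Prime → q ≤ S ^ 2 → (#(Bd p q) : ℝ) ≤ 36 * p / (S : ℝ) ^ 16) :
    ∑ q ∈ (Icc 1 (S ^ (2 * 1))).filter Nat.Prime, dl p q / q ≤
      36 / (S : ℝ) ^ 16 * (1 + Real.log ((S ^ (2 * 1) : ℕ) : ℝ)) := by
  have hp0 : (0 : ℝ) < p := by exact_mod_cast hp.out.pos
  have hs0 : (0 : ℝ) < S := by exact_mod_cast hS
  have h1 : ∑ q ∈ (Icc 1 (S ^ (2 * 1))).filter Nat.Prime, dl p q / q ≤
      36 / (S : ℝ) ^ 16 * ∑ q ∈ (Icc 1 (S ^ (2 * 1))).filter Nat.Prime, 1 / (q : ℝ) := by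
    rw [Finset.mul_sum]
    apply Finset.sum_le_sum
    intro q hq
    rw [mem_filter, mem_Icc] at hq
    have h2 := hB q hq.2 (by simpa using hq.1.2)
    have h3 : dl p q ≤ 36 / (S : ℝ) ^ 16 := by
      unfold dl
      rw [div_le_iff₀ hp0]
      refine h2.trans (le_of_eq ?_)
      ring
    rw [mul_one_div]
    gcongr
  refine h1.trans ?_
  have h4 : ∑ q ∈ (Icc 1 (S ^ (2 * 1))).filter Nat.Prime, 1 / (q : ℝ) ≤
      1 + Real.log ((S ^ (2 * 1) : ℕ) : ℝ) := by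
    apply Fin1_sum_inv
    intro r hr
    rw [mem_filter, mem_Icc] at hr
    exact hr.1
  gcongr

omit hp in
theorem fin_one (k0 : ℕ) (hk0 : 1 ≤ k0) : ∃ S0 : ℕ, ∀ S : ℕ, S0 ≤ S → ∀ (p : ℕ) [Fact p.Prime],
    S ^ (4 * k0 + 4) ≤ p → p < (S + 1) ^ (4 * k0 + 4) → ∀ H : Subgroup (ZMod p)ˣ, Stab H →
    S ^ 40 ≤ Nat.card H →
    ∑ q ∈ (Icc 1 (S ^ (2 * k0))).filter Nat.Prime, dl p q / q ≤ (S : ℝ) ^ (-(1 / 2) : ℝ) := by
  obtain ⟨a, ha⟩ : ∃ a : ℝ, a = 1 / (8 * ((k0 : ℝ) + 2)) := ⟨_, rfl⟩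
  have ha0 : 0 < a := by rw [ha]; positivity
  have ha1 : a ≤ 1 := by
    rw [ha, div_le_one (by positivity)]
    nlinarith [(Nat.cast_nonneg k0 : (0 : ℝ) ≤ k0)]
  obtain ⟨T0, hT0⟩ := many_primes a ha0
  obtain ⟨C0, hC0⟩ : ∃ C0 : ℝ, C0 = 144 * ((2 * k0 + 3 : ℕ) : ℝ) * ((4 * k0 + 4 : ℕ) : ℝ) ^ k0 +
      (4 * ((4 * k0 + 4 : ℕ) : ℝ) ^ (k0 + 1) +
        2 * 2 ^ (4 * k0 + 4) * ((2 * k0 + 3 : ℕ) : ℝ) ^ (4 * k0 + 6)) := ⟨_, rfl⟩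
  obtain ⟨C1, hC1⟩ : ∃ C1 : ℝ, C1 = 144 * ((k0 : ℝ) + 1) * ((4 * k0 + 4 : ℕ) : ℝ) *
      ((2 * k0 + 3 : ℕ) : ℝ) := ⟨_, rfl⟩
  have hC00 : 0 ≤ C0 := by rw [hC0]; positivity
  have hC10 : 0 ≤ C1 := by rw [hC1]; positivity
  obtain ⟨S1, hS1⟩ := Fin1_small (2 * (k0 : ℝ) * (36 + k0 * (C0 + C1)))
  refine ⟨max (max T0 S1) (max (2 ^ (4 * k0 + 4)) (max 3 (2 * k0 + 3))), ?_⟩
  intro S hS p hp h1 h2 H hH hc
  simp only [max_le_iff] at hS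
  obtain ⟨⟨hS0, hSS1⟩, hSp, hS3, hSm⟩ := hS
  have hs0 : (0 : ℝ) < S := by exact_mod_cast (by omega : 0 < S)
  have hs1 : (1 : ℝ) ≤ S := by exact_mod_cast (by omega : 1 ≤ S)
  have hlog : 0 ≤ Real.log (S : ℝ) := Real.log_nonneg hs1
  have hn := hT0 S hS0
  have hE : (1 : ℝ) ≤ (S : ℝ) ^ (1 / 8 : ℝ) := Real.one_le_rpow hs1 (by norm_num)
  have hP : ∀ i, i ≤ k0 + 1 →
      (S : ℝ) ^ (2 * i) ≤ (#(PS S) : ℝ) ^ i * (S : ℝ) ^ (1 / 8 : ℝ) :=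
    fun i hi => Fin1_P hs1 ha hn hi
  have hPne : (PS S).Nonempty := by
    rw [← Finset.card_pos]
    have h3 : (0 : ℝ) < #(PS S) := lt_of_lt_of_le (by positivity) hn
    exact_mod_cast h3
  have hB : ∀ q : ℕ, q.Prime → q ≤ S ^ 2 → (#(Bd p q) : ℝ) ≤ 36 * p / (S : ℝ) ^ 16 :=
    fun q hq hqS => Fin1_bd hk0 (by omega) h1 H hH hc hq hqS
  have hBP : ∀ q ∈ PS S, (#(Bd p q) : ℝ) ≤ 36 * p / (S : ℝ) ^ 16 := by
    intro q hq
    rw [PS, mem_filter, mem_Ioc] at hq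
    exact hB q hq.2 hq.1.2
  have hlogj : ∀ j, j ≤ k0 → Real.log ((S ^ (2 * j) : ℕ) : ℝ) ≤ 2 * k0 * Real.log S := by
    intro j hj
    push_cast
    rw [Real.log_pow]
    have : ((2 * j : ℕ) : ℝ) ≤ 2 * k0 := by exact_mod_cast Nat.mul_le_mul_left 2 hj
    gcongr
  obtain ⟨e, he⟩ : ∃ e : ℝ, e = (S : ℝ) ^ (1 / 8 : ℝ) / S := ⟨_, rfl⟩
  have he0 : 0 < e := by rw [he]; positivity
  have hfirst : ∑ q ∈ (Icc 1 (S ^ (2 * 1))).filter Nat.Prime, dl p q / q ≤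
      36 * e * (1 + 2 * k0 * Real.log S) := by
    refine (Fin1_first (by omega) hB).trans ?_
    have h3 := hlogj 1 hk0
    have h4 : 36 / (S : ℝ) ^ 16 ≤ 36 * e := by
      rw [he, mul_div_assoc', div_le_div_iff₀ (by positivity) hs0]
      have h5 : (S : ℝ) ≤ (S : ℝ) ^ 16 := by
        calc (S : ℝ) = (S : ℝ) ^ 1 := (pow_one _).symm
          _ ≤ (S : ℝ) ^ 16 := pow_le_pow_right₀ hs1 (by norm_num)
      nlinarith [mul_nonneg (sub_nonneg.2 hE) (by positivity : (0 : ℝ) ≤ (S : ℝ) ^ 16)]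
    have h6 : 0 ≤ Real.log ((S ^ (2 * 1) : ℕ) : ℝ) := Real.log_natCast_nonneg _
    gcongr
  have hZ : ∀ j, 1 ≤ j → j + 1 ≤ k0 →
      ∑ r ∈ (Ioc (S ^ (2 * j)) (S ^ (2 * (j + 1)))).filter Nat.Prime, dl p r / r ≤
        (C0 * (1 + 2 * k0 * Real.log S) + C1) * e := by
    intro j hj0 hj
    refine (Fin1_block hSp hS3 hSm hE hP hPne h1 h2 hBP hj0 hj).trans ?_
    have h3 := hlogj (j + 1) hj
    rw [← he]
    calc (144 * ((2 * k0 + 3 : ℕ) : ℝ) * ((4 * k0 + 4 : ℕ) : ℝ) ^ k0 * e +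
        (4 * ((4 * k0 + 4 : ℕ) : ℝ) ^ (k0 + 1) * e +
          2 * 2 ^ (4 * k0 + 4) * ((2 * k0 + 3 : ℕ) : ℝ) ^ (4 * k0 + 6) * e)) *
        (1 + Real.log ((S ^ (2 * (j + 1)) : ℕ) : ℝ)) +
      144 * (k0 + 1) * ((4 * k0 + 4 : ℕ) : ℝ) * ((2 * k0 + 3 : ℕ) : ℝ) * e
        = C0 * e * (1 + Real.log ((S ^ (2 * (j + 1)) : ℕ) : ℝ)) + C1 * e := by
          rw [hC0, hC1]
          ring
      _ ≤ C0 * e * (1 + 2 * k0 * Real.log S) + C1 * e := by gcongr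
      _ = (C0 * (1 + 2 * k0 * Real.log S) + C1) * e := by ring
  obtain ⟨j, rfl⟩ : ∃ j, k0 = j + 1 := ⟨k0 - 1, by omega⟩
  have hall := Fin1_ind (by omega) hfirst hZ j le_rfl
  refine hall.trans (le_trans ?_ (hS1 S hSS1))
  rw [← he]
  push_cast
  obtain ⟨l, hl⟩ : ∃ l : ℝ, l = Real.log (S : ℝ) := ⟨_, rfl⟩
  rw [← hl] at hlog ⊢
  have hjr : (0 : ℝ) ≤ (j : ℝ) := Nat.cast_nonneg j
  have g1 : (1 : ℝ) + 2 * ((j : ℝ) + 1) * l ≤ 2 * ((j : ℝ) + 1) * (1 + l) := by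
    nlinarith
  have g2 : (1 : ℝ) ≤ 2 * ((j : ℝ) + 1) * (1 + l) := by
    nlinarith [mul_nonneg hjr hlog]
  have g3 : 0 ≤ 2 * ((j : ℝ) + 1) * (1 + l) := by positivity
  calc 36 * e * (1 + 2 * ((j : ℝ) + 1) * l) +
        (j : ℝ) * ((C0 * (1 + 2 * ((j : ℝ) + 1) * l) + C1) * e)
      ≤ 36 * e * (2 * ((j : ℝ) + 1) * (1 + l)) +
        ((j : ℝ) + 1) * ((C0 * (2 * ((j : ℝ) + 1) * (1 + l)) +
          C1 * (2 * ((j : ℝ) + 1) * (1 + l))) * e) := by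
        have g4 : C1 ≤ C1 * (2 * ((j : ℝ) + 1) * (1 + l)) := by nlinarith
        have g5 : (j : ℝ) ≤ (j : ℝ) + 1 := by linarith
        gcongr
    _ = e * (2 * ((j : ℝ) + 1) * (36 + ((j : ℝ) + 1) * (C0 + C1)) * (1 + l)) := by ring

end Pool.Agent.Helper26.PE
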