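import Pool.Agent.Helper26.PE.Beta

/-!
# PE-Fin1a: the exceptional sets of the primes up to `S ^ 2`

PROOF.  `bad_card` with `M = (p - 1) / (2 * q)`, `L = S ^ 11`: `4 M q ≥ p` (as `p ≥ S ^ 8`, `q ≤ S ^ 2`), `Nat.card H ≥ S ^ 40`:
`#Bd ≤ p (4 S ^ 22 / S ^ 40 + 32 q ^ 3 / S ^ 22) ≤ p (4 S ^ -18 + 32 S ^ -16) ≤ 36 p / S ^ 16`.
-/

set_option autoImplicit false

namespace Pool.Agent.Helper26.PE

open Finset

theorem fin_beta : ∃ S0 : ℕ, ∀ S : ℕ, S0 ≤ S → ∀ (p : ℕ) [Fact p.Prime], S ^ 8 ≤ p →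
    ∀ H : Subgroup (ZMod p)ˣ, Stab H → S ^ 40 ≤ Nat.card H → ∀ q : ℕ, q.Prime → q ≤ S ^ 2 →
    (#(Bd p q) : ℝ) ≤ 36 * p / (S : ℝ) ^ 16 := by
  refine ⟨2, fun S hS p hp hSp H hH hcard q hq hqS => ?_⟩
  have hq2 : 2 ≤ q := hq.two_le
  -- sizes
  have h4q : 4 * q ≤ p := by
    have h1 : 4 ≤ S ^ 6 := by
      calc 4 ≤ 2 ^ 6 := by norm_num
        _ ≤ S ^ 6 := Nat.pow_le_pow_left hS 6
    calc 4 * q ≤ S ^ 6 * S ^ 2 := Nat.mul_le_mul h1 hqS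
      _ = S ^ 8 := by ring
      _ ≤ p := hSp
  obtain ⟨M, hMdef⟩ : ∃ M, M = (p - 1) / (2 * q) := ⟨_, rfl⟩
  have hM : 0 < M := by
    rw [hMdef]
    exact Nat.div_pos (by omega) (by omega)
  have hmul : 2 * q * M ≤ p - 1 := by rw [hMdef]; exact Nat.mul_div_le _ _
  have hqM : 2 * q * M < p := by omega
  have hlt : p - 1 < 2 * q * (M + 1) := by
    rw [hMdef]; exact Nat.lt_mul_div_succ (p - 1) (by omega)
  have hp4 : p ≤ 4 * (M * q) := by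
    have e1 : 2 * q * (M + 1) = 2 * (M * q) + 2 * q := by ring
    rw [e1] at hlt
    omega
  have hL : 0 < S ^ 11 := Nat.pow_pos (by omega)
  have hb := bad_card H hH hq hM hqM hL
  refine hb.trans ?_
  have hX : (0 : ℝ) < S := by
    have : 0 < S := by omega
    exact_mod_cast this
  have hX1 : (1 : ℝ) ≤ S := by
    have : 1 ≤ S := by omega
    exact_mod_cast this
  have hMr : (0 : ℝ) < M := by exact_mod_cast hM
  have hpr : (0 : ℝ) ≤ p := Nat.cast_nonneg p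
  -- first part
  have ha : 4 * ((S ^ 11 : ℕ) : ℝ) ^ 2 / (Nat.card H : ℝ) ≤ 4 / (S : ℝ) ^ 16 := by
    have hc : ((S : ℝ)) ^ 40 ≤ (Nat.card H : ℝ) := by exact_mod_cast hcard
    rw [div_le_div_iff₀ (lt_of_lt_of_le (by positivity) hc) (by positivity)]
    have e1 : ((S ^ 11 : ℕ) : ℝ) ^ 2 = (S : ℝ) ^ 22 := by push_cast; ring
    rw [e1]
    have e2 : (4 : ℝ) * S ^ 22 * S ^ 16 = 4 * S ^ 38 := by ring
    rw [e2]
    have h38 : (S : ℝ) ^ 38 ≤ (S : ℝ) ^ 40 := pow_le_pow_right₀ hX1 (by norm_num)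
    linarith
  -- second part
  have hb2 : (p : ℝ) ^ 3 / (2 * (M : ℝ) ^ 3 * ((S ^ 11 : ℕ) : ℝ) ^ 2) ≤ 32 / (S : ℝ) ^ 16 := by
    rw [div_le_div_iff₀ (by positivity) (by positivity)]
    have e1 : ((S ^ 11 : ℕ) : ℝ) ^ 2 = (S : ℝ) ^ 22 := by push_cast; ring
    rw [e1]
    have hpM : (p : ℝ) ≤ 4 * (M * S ^ 2) := by
      have h1 : p ≤ 4 * (M * S ^ 2) :=
        hp4.trans (Nat.mul_le_mul_left 4 (Nat.mul_le_mul_left M hqS))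
      exact_mod_cast h1
    have hp3 : (p : ℝ) ^ 3 ≤ (4 * (M * S ^ 2)) ^ 3 := pow_le_pow_left₀ hpr hpM 3
    calc (p : ℝ) ^ 3 * (S : ℝ) ^ 16 ≤ (4 * (M * S ^ 2)) ^ 3 * (S : ℝ) ^ 16 :=
          mul_le_mul_of_nonneg_right hp3 (by positivity)
      _ = 32 * (2 * (M : ℝ) ^ 3 * (S : ℝ) ^ 22) := by ring
  calc (p : ℝ) * (4 * ((S ^ 11 : ℕ) : ℝ) ^ 2 / (Nat.card H : ℝ) +
        (p : ℝ) ^ 3 / (2 * (M : ℝ) ^ 3 * ((S ^ 11 : ℕ) : ℝ) ^ 2))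
      ≤ p * (4 / (S : ℝ) ^ 16 + 32 / (S : ℝ) ^ 16) :=
        mul_le_mul_of_nonneg_left (add_le_add ha hb2) hpr
    _ = 36 * p / (S : ℝ) ^ 16 := by ring

end Pool.Agent.Helper26.PE
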