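import Pool.Agent.Helper26.PE.Gauss

/-!
# PE-Real: a character which is near `-1` on most primes is real

PROOF.  `ψ = χ ^ 2 ≠ 1`.  `M ^ 2 - |∑ i, j, ψ (i + j)| ≤ ∑ i, j, |1 - ψ (i + j)|`, and `pair_sum`.  If all prime factors of
`n = i + j` are `≤ Y`: `|1 - ψ n| ≤ ∑ q, ∑ a ≥ 1, [q ^ a ∣ n] |ψ q - 1|` (telescoping), `|ψ q - 1| ≤ 2 |χ q + 1|`; otherwise
`|1 - ψ n| ≤ 2` and some prime `q > Y` divides `n ≤ 2 M`.  For every `i` the numbers `i + j` are different elements of `[1, 2 M]`, so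
`∑ i, j, f (i + j) ≤ M ∑ n ≤ 2 M, f n`; and `∑ n ≤ 2 M, v_q n = v_q ((2 M)!) ≤ 2 M / (q - 1) ≤ 4 M / q`.  So
`∑ ≤ 8 M ^ 2 ∑ q ≤ Y, |χ q + 1| / q + 4 M ^ 2 ∑ Y < q ≤ 2 M, 1 / q`, and Cauchy-Schwarz.
-/

set_option autoImplicit false

namespace Pool.Agent.Helper26.PE

open Finset

variable {p : ℕ} [hp : Fact p.Prime]

private theorem Real_list (ψ : DirichletCharacter ℂ p) (l : List ℕ) :
    ‖1 - ψ ((l.prod : ℕ) : ZMod p)‖ ≤ (l.map fun q : ℕ => ‖1 - ψ (q : ZMod p)‖).sum := by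
  induction l with
  | nil => simp
  | cons q l ih =>
    rw [List.prod_cons, List.map_cons, List.sum_cons, Nat.cast_mul, map_mul]
    have h1 : 1 - ψ (q : ZMod p) * ψ ((l.prod : ℕ) : ZMod p) =
        (1 - ψ (q : ZMod p)) + ψ (q : ZMod p) * (1 - ψ ((l.prod : ℕ) : ZMod p)) := by ring
    rw [h1]
    refine (norm_add_le _ _).trans (add_le_add le_rfl ?_)
    rw [norm_mul]
    have h2 : ‖ψ (q : ZMod p)‖ ≤ 1 := DirichletCharacter.norm_le_one ψ _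
    have h3 : 0 ≤ ‖1 - ψ ((l.prod : ℕ) : ZMod p)‖ := norm_nonneg _
    nlinarith

private theorem Real_fac (ψ : DirichletCharacter ℂ p) {n : ℕ} (hn : n ≠ 0) :
    ‖1 - ψ (n : ZMod p)‖ ≤ ∑ q ∈ n.primeFactors, (n.factorization q : ℝ) * ‖1 - ψ (q : ZMod p)‖ := by
  have h := Real_list ψ n.primeFactorsList
  rw [Nat.prod_primeFactorsList hn, Finset.sum_list_map_count] at h
  refine h.trans (le_of_eq ?_)
  refine Finset.sum_congr rfl fun q _ => ?_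
  rw [Nat.primeFactorsList_count_eq, nsmul_eq_mul]

private theorem Real_sq (χ : DirichletCharacter ℂ p) (a : ZMod p) :
    ‖1 - (χ ^ 2) a‖ ≤ 2 * ‖χ a + 1‖ := by
  rw [MulChar.pow_apply' χ two_ne_zero]
  have h1 : 1 - χ a ^ 2 = (1 - χ a) * (χ a + 1) := by ring
  rw [h1, norm_mul]
  have h2 : ‖χ a‖ ≤ 1 := DirichletCharacter.norm_le_one χ _
  have h3 : ‖1 - χ a‖ ≤ 2 := by
    refine (norm_sub_le _ _).trans ?_
    rw [norm_one]
    linarith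
  exact mul_le_mul_of_nonneg_right h3 (norm_nonneg _)

private theorem Real_two (ψ : DirichletCharacter ℂ p) (a : ZMod p) : ‖1 - ψ a‖ ≤ 2 := by
  have h2 : ‖ψ a‖ ≤ 1 := DirichletCharacter.norm_le_one ψ _
  refine (norm_sub_le _ _).trans ?_
  rw [norm_one]
  linarith

/-- the bound for one number -/
private theorem Real_point (χ : DirichletCharacter ℂ p) (Y N : ℕ) {n : ℕ} (hn : n ∈ Icc 1 N) :
    ‖1 - (χ ^ 2) (n : ZMod p)‖ ≤
      (∑ q ∈ (Icc 1 Y).filter Nat.Prime, 2 * ‖χ (q : ZMod p) + 1‖ * (n.factorization q : ℝ)) +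
      2 * ∑ q ∈ (Ioc Y N).filter Nat.Prime, (if q ∣ n then (1 : ℝ) else 0) := by
  rw [mem_Icc] at hn
  have hn0 : n ≠ 0 := by omega
  have hA : 0 ≤ ∑ q ∈ (Icc 1 Y).filter Nat.Prime,
      2 * ‖χ (q : ZMod p) + 1‖ * (n.factorization q : ℝ) :=
    Finset.sum_nonneg fun q _ => by positivity
  have hB : 0 ≤ ∑ q ∈ (Ioc Y N).filter Nat.Prime, (if q ∣ n then (1 : ℝ) else 0) :=
    Finset.sum_nonneg fun q _ => by split_ifs <;> norm_num
  by_cases h : ∃ q, q.Prime ∧ Y < q ∧ q ∣ n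
  · obtain ⟨q, hq, hYq, hqn⟩ := h
    have hqN : q ≤ N := (Nat.le_of_dvd (by omega) hqn).trans hn.2
    have h1 : (1 : ℝ) ≤ ∑ q ∈ (Ioc Y N).filter Nat.Prime, (if q ∣ n then (1 : ℝ) else 0) := by
      have h2 := Finset.single_le_sum (f := fun q : ℕ => if q ∣ n then (1 : ℝ) else 0)
        (s := (Ioc Y N).filter Nat.Prime)
        (fun q _ => by
          show (0 : ℝ) ≤ if q ∣ n then (1 : ℝ) else 0
          split_ifs <;> norm_num)
        (mem_filter.2 ⟨mem_Ioc.2 ⟨hYq, hqN⟩, hq⟩)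
      simpa [hqn] using h2
    have h3 := Real_two (χ ^ 2) (n : ZMod p)
    linarith
  · have hsub : n.primeFactors ⊆ (Icc 1 Y).filter Nat.Prime := by
      intro q hq
      have h1 := Nat.prime_of_mem_primeFactors hq
      have h2 := Nat.dvd_of_mem_primeFactors hq
      rw [mem_filter, mem_Icc]
      refine ⟨⟨h1.one_le, ?_⟩, h1⟩
      by_contra h3
      exact h ⟨q, h1, by omega, h2⟩
    have h1 := Real_fac (χ ^ 2) hn0
    have h2 : ∑ q ∈ n.primeFactors, (n.factorization q : ℝ) * ‖1 - (χ ^ 2) (q : ZMod p)‖ ≤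
        ∑ q ∈ n.primeFactors, 2 * ‖χ (q : ZMod p) + 1‖ * (n.factorization q : ℝ) := by
      refine Finset.sum_le_sum fun q _ => ?_
      rw [mul_comm]
      exact mul_le_mul_of_nonneg_right (Real_sq χ _) (Nat.cast_nonneg _)
    have h3 : ∑ q ∈ n.primeFactors, 2 * ‖χ (q : ZMod p) + 1‖ * (n.factorization q : ℝ) ≤
        ∑ q ∈ (Icc 1 Y).filter Nat.Prime, 2 * ‖χ (q : ZMod p) + 1‖ * (n.factorization q : ℝ) :=
      Finset.sum_le_sum_of_subset_of_nonneg hsub fun q _ _ => by positivity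
    linarith

/-- the sum over pairs -/
private theorem Real_conv (f : ℕ → ℝ) (hf : ∀ n, 0 ≤ f n) (M : ℕ) :
    ∑ i ∈ Icc 1 M, ∑ j ∈ Icc 1 M, f (i + j) ≤ M * ∑ n ∈ Icc 1 (2 * M), f n := by
  have h1 : ∀ i ∈ Icc 1 M, ∑ j ∈ Icc 1 M, f (i + j) ≤ ∑ n ∈ Icc 1 (2 * M), f n := by
    intro i hi
    rw [mem_Icc] at hi
    have h2 : ∑ j ∈ Icc 1 M, f (i + j) = ∑ n ∈ (Icc 1 M).image (fun j => i + j), f n := by
      rw [Finset.sum_image]
      intro a _ b _ hab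
      exact Nat.add_left_cancel hab
    rw [h2]
    refine Finset.sum_le_sum_of_subset_of_nonneg ?_ fun n _ _ => hf n
    intro n hn
    obtain ⟨j, hj, rfl⟩ := mem_image.1 hn
    rw [mem_Icc] at hj ⊢
    omega
  refine (Finset.sum_le_sum h1).trans ?_
  rw [Finset.sum_const, Nat.card_Icc, nsmul_eq_mul, Nat.add_sub_cancel]

/-- Legendre's formula -/
private theorem Real_leg {q : ℕ} (hq : q.Prime) (N : ℕ) :
    ∑ n ∈ Icc 1 N, (n.factorization q : ℝ) ≤ 2 * N / q := by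
  have h1 : ∑ n ∈ Icc 1 N, n.factorization q = (N.factorial).factorization q := by
    have e : Icc 1 N = Ico 1 (N + 1) := by
      ext n
      rw [mem_Icc, mem_Ico]
      omega
    rw [e, ← Finset.prod_Ico_id_eq_factorial, Nat.factorization_prod_apply]
    intro n hn
    rw [mem_Ico] at hn
    omega
  have h2 : (q - 1) * (N.factorial).factorization q ≤ N := by
    have := Fact.mk hq
    rw [Nat.factorization_def _ hq, sub_one_mul_padicValNat_factorial]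
    exact Nat.sub_le _ _
  have h3 : (∑ n ∈ Icc 1 N, (n.factorization q : ℝ)) = (((N.factorial).factorization q : ℕ) : ℝ) := by
    rw [← h1]
    push_cast
    rfl
  rw [h3, le_div_iff₀ (by exact_mod_cast hq.pos)]
  have h4 := hq.two_le
  obtain ⟨r, hr⟩ : ∃ r, q = r + 2 := ⟨q - 2, by omega⟩
  have h5 : (r + 1) * (N.factorial).factorization q ≤ N := by
    rwa [hr, show r + 2 - 1 = r + 1 by omega, ← hr] at h2
  have h6 : (N.factorial).factorization q * q ≤ 2 * N := by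
    rw [hr] at h5 ⊢
    nlinarith
  exact_mod_cast h6

private theorem Real_cnt (q N : ℕ) :
    ∑ n ∈ Icc 1 N, (if q ∣ n then (1 : ℝ) else 0) ≤ N / q := by
  rw [Finset.sum_boole]
  have h1 : ((Icc 1 N).filter fun n => q ∣ n).card = N / q := by
    have h2 := Nat.Ioc_filter_dvd_card_eq_div N q
    rw [← h2]
    rfl
  rw [h1]
  exact Nat.cast_div_le

theorem pair_ineq (χ : DirichletCharacter ℂ p) {Y M : ℕ} (hM : 0 < M) (h2M : 2 * M < p)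
    (h : χ ^ 2 ≠ 1) :
    (M : ℝ) ^ 2 ≤ √(p : ℝ) * M +
      8 * (M : ℝ) ^ 2 * (√(∑ q ∈ (Icc 1 Y).filter Nat.Prime, ‖χ (q : ZMod p) + 1‖ ^ 2 / q) *
        √(∑ q ∈ (Icc 1 Y).filter Nat.Prime, 1 / (q : ℝ))) +
      4 * (M : ℝ) ^ 2 * ∑ q ∈ (Ioc Y (2 * M)).filter Nat.Prime, 1 / (q : ℝ) := by
  have hps := pair_sum (χ ^ 2) h (M := M) (by omega)
  have e1 : ((M : ℝ) ^ 2 : ℝ) = ‖(∑ i ∈ Icc 1 M, ∑ j ∈ Icc 1 M, (1 : ℂ))‖ := by
    simp [sq]
  have e2 : (∑ i ∈ Icc 1 M, ∑ j ∈ Icc 1 M, (1 : ℂ)) =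
      (∑ i ∈ Icc 1 M, ∑ j ∈ Icc 1 M, (χ ^ 2) ((i + j : ℕ) : ZMod p)) +
        ∑ i ∈ Icc 1 M, ∑ j ∈ Icc 1 M, (1 - (χ ^ 2) ((i + j : ℕ) : ZMod p)) := by
    rw [← Finset.sum_add_distrib]
    refine Finset.sum_congr rfl fun i _ => ?_
    rw [← Finset.sum_add_distrib]
    refine Finset.sum_congr rfl fun j _ => ?_
    ring
  have e3 : ‖∑ i ∈ Icc 1 M, ∑ j ∈ Icc 1 M, (1 - (χ ^ 2) ((i + j : ℕ) : ZMod p))‖ ≤
      ∑ i ∈ Icc 1 M, ∑ j ∈ Icc 1 M, ‖1 - (χ ^ 2) ((i + j : ℕ) : ZMod p)‖ :=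
    (norm_sum_le _ _).trans (Finset.sum_le_sum fun i _ => norm_sum_le _ _)
  have e4 := Real_conv (fun n => ‖1 - (χ ^ 2) ((n : ℕ) : ZMod p)‖) (fun n => norm_nonneg _) M
  have e5 : ∑ n ∈ Icc 1 (2 * M), ‖1 - (χ ^ 2) ((n : ℕ) : ZMod p)‖ ≤
      ∑ n ∈ Icc 1 (2 * M),
        ((∑ q ∈ (Icc 1 Y).filter Nat.Prime, 2 * ‖χ (q : ZMod p) + 1‖ * (n.factorization q : ℝ)) +
          2 * ∑ q ∈ (Ioc Y (2 * M)).filter Nat.Prime, (if q ∣ n then (1 : ℝ) else 0)) :=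
    Finset.sum_le_sum fun n hn => Real_point χ Y (2 * M) hn
  rw [Finset.sum_add_distrib, Finset.sum_comm, ← Finset.mul_sum, Finset.sum_comm (s := Icc 1 (2 * M))
    (t := (Ioc Y (2 * M)).filter Nat.Prime)] at e5
  have e6 : ∑ q ∈ (Icc 1 Y).filter Nat.Prime, ∑ n ∈ Icc 1 (2 * M),
      2 * ‖χ (q : ZMod p) + 1‖ * (n.factorization q : ℝ) ≤
      8 * M * ∑ q ∈ (Icc 1 Y).filter Nat.Prime, ‖χ (q : ZMod p) + 1‖ / q := by
    rw [Finset.mul_sum]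
    refine Finset.sum_le_sum fun q hq => ?_
    rw [← Finset.mul_sum]
    have h1 := Real_leg (mem_filter.1 hq).2 (2 * M)
    have h2 : 0 ≤ 2 * ‖χ (q : ZMod p) + 1‖ := by positivity
    refine (mul_le_mul_of_nonneg_left h1 h2).trans (le_of_eq ?_)
    push_cast
    ring
  have e7 : ∑ q ∈ (Ioc Y (2 * M)).filter Nat.Prime, ∑ n ∈ Icc 1 (2 * M),
      (if q ∣ n then (1 : ℝ) else 0) ≤
      2 * M * ∑ q ∈ (Ioc Y (2 * M)).filter Nat.Prime, 1 / (q : ℝ) := by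
    rw [Finset.mul_sum]
    refine Finset.sum_le_sum fun q _ => ?_
    refine (Real_cnt q (2 * M)).trans (le_of_eq ?_)
    push_cast
    ring
  have e8 : ∑ q ∈ (Icc 1 Y).filter Nat.Prime, ‖χ (q : ZMod p) + 1‖ / q ≤
      √(∑ q ∈ (Icc 1 Y).filter Nat.Prime, ‖χ (q : ZMod p) + 1‖ ^ 2 / q) *
        √(∑ q ∈ (Icc 1 Y).filter Nat.Prime, 1 / (q : ℝ)) := by
    have h1 := Real.sum_mul_le_sqrt_mul_sqrt ((Icc 1 Y).filter Nat.Prime)
      (fun q : ℕ => ‖χ (q : ZMod p) + 1‖ / √(q : ℝ)) (fun q : ℕ => 1 / √(q : ℝ))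
    have hs : ∀ q : ℕ, √(q : ℝ) ^ 2 = q := fun q => Real.sq_sqrt (Nat.cast_nonneg q)
    have hs' : ∀ q : ℕ, √(q : ℝ) * √(q : ℝ) = q := fun q => Real.mul_self_sqrt (Nat.cast_nonneg q)
    simp only [div_pow, hs, one_pow, div_mul_div_comm, hs', mul_one] at h1
    exact h1
  have hM0 : (0 : ℝ) ≤ M := Nat.cast_nonneg M
  have e9 : (M : ℝ) ^ 2 ≤ √(p : ℝ) * M + M * (8 * M * ∑ q ∈ (Icc 1 Y).filter Nat.Prime, ‖χ (q : ZMod p) + 1‖ / q +
      2 * (2 * M * ∑ q ∈ (Ioc Y (2 * M)).filter Nat.Prime, 1 / (q : ℝ))) := by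
    rw [e1, e2]
    refine (norm_add_le _ _).trans (add_le_add hps ?_)
    refine e3.trans (e4.trans ?_)
    refine mul_le_mul_of_nonneg_left ?_ hM0
    refine e5.trans ?_
    exact add_le_add e6 (mul_le_mul_of_nonneg_left e7 (by norm_num))
  refine e9.trans ?_
  have e10 := mul_le_mul_of_nonneg_left e8 (by positivity : (0 : ℝ) ≤ 8 * (M : ℝ) ^ 2)
  nlinarith [e10]

end Pool.Agent.Helper26.PE
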