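import Pool.Agent.Helper26.PE.Uniq
import Pool.Agent.Helper26.PE.Real
import Pool.Agent.Helper26.PE.Primes

/-!
# PE-Fin2: the choice of the parameters, second part

PROOF.  `legendre_close` with `Y = S ^ (2 k0)`, `Δ = S ^ (-1/2)`, `θ = S ^ (-1/4)`.  `hreal`: suppose `W χ ≤ θ` and
`χ ^ 2 ≠ 1`; `pair_ineq` with `M = S ^ (2 k0 + 3)` (`2 M < S ^ (4 k0 + 4) ≤ p`): `√p ≤ (S + 1) ^ (2 k0 + 2) ≤ 2 S ^ (2 k0 + 2)`, so
`√p M ≤ (2 / S) M ^ 2`; `8 √W √(∑ 1 / q) ≤ 8 S ^ (-1/8) √(1 + log p) → 0`; `mertens_block` with `N = 2 M`, `N / Y = 2 S ^ 3`: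
`4 ∑ ≤ 4 C (1 + log 2 + 3 log S) / (2 k0 log S) ≤ 4 C 5 / (2 k0) ≤ 1 / 4` for `k0 ≥ k1 := 40 C + 1`.  Total `< 1`, a contradiction.
-/

set_option autoImplicit false

namespace Pool.Agent.Helper26.PE

open Finset

variable {p : ℕ} [hp : Fact p.Prime]

private theorem Fin2_growth (k0 : ℕ) (hk0 : 1 ≤ k0) : ∃ S0 : ℕ, ∀ S : ℕ, S0 ≤ S →
    1 + 2 * (k0 : ℝ) * Real.log S ≤ (S : ℝ) ^ (1 / 4 : ℝ) / 1024 := by
  have hk : (0 : ℝ) < k0 := by exact_mod_cast hk0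
  have h1 : ∀ᶠ x : ℝ in Filter.atTop, ‖Real.log x‖ ≤ 1 / (4096 * (k0 : ℝ)) * ‖x ^ (1 / 4 : ℝ)‖ :=
    (isLittleO_log_rpow_atTop (by norm_num : (0 : ℝ) < 1 / 4)).bound (by positivity)
  have h2 : ∀ᶠ x : ℝ in Filter.atTop, (2048 : ℝ) ≤ x ^ (1 / 4 : ℝ) :=
    (tendsto_rpow_atTop (by norm_num : (0 : ℝ) < 1 / 4)).eventually_ge_atTop 2048
  have h3 := tendsto_natCast_atTop_atTop.eventually (h1.and h2)
  obtain ⟨S0, hS0⟩ := Filter.eventually_atTop.1 h3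
  refine ⟨S0, fun S hS => ?_⟩
  obtain ⟨h4, h5⟩ := hS0 S hS
  have h6 : Real.log (S : ℝ) ≤ 1 / (4096 * (k0 : ℝ)) * (S : ℝ) ^ (1 / 4 : ℝ) := by
    refine (le_abs_self _).trans ?_
    rw [← Real.norm_eq_abs]
    refine h4.trans (le_of_eq ?_)
    rw [Real.norm_of_nonneg (by positivity)]
  have h7 : 2 * (k0 : ℝ) * Real.log S ≤ (S : ℝ) ^ (1 / 4 : ℝ) / 2048 := by
    calc 2 * (k0 : ℝ) * Real.log S
        ≤ 2 * (k0 : ℝ) * (1 / (4096 * (k0 : ℝ)) * (S : ℝ) ^ (1 / 4 : ℝ)) :=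
          mul_le_mul_of_nonneg_left h6 (by positivity)
      _ = (S : ℝ) ^ (1 / 4 : ℝ) / 2048 := by
          field_simp
          ring
  linarith

private theorem Fin2_recip (Y : ℕ) :
    ∑ q ∈ (Icc 1 Y).filter Nat.Prime, 1 / (q : ℝ) ≤ 1 + Real.log Y := by
  have h1 : ∑ q ∈ (Icc 1 Y).filter Nat.Prime, 1 / (q : ℝ) ≤ ∑ q ∈ Icc 1 Y, 1 / (q : ℝ) :=
    sum_le_sum_of_subset_of_nonneg (filter_subset _ _) fun i _ _ => by positivity
  refine h1.trans (le_trans (le_of_eq ?_) (harmonic_le_one_add_log Y))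
  rw [harmonic_eq_sum_Icc]
  push_cast
  exact sum_congr rfl fun i _ => one_div _

private theorem Fin2_sqrt {S k p : ℕ} (hS : 2 * k ≤ S) (hS1 : 1 ≤ S) (hp : p < (S + 1) ^ (2 * k)) :
    √(p : ℝ) ≤ 2 * (S : ℝ) ^ k := by
  have hS0 : (0 : ℝ) < S := by exact_mod_cast hS1
  have h1 : √(p : ℝ) ≤ ((S : ℝ) + 1) ^ k := by
    rw [Real.sqrt_le_left (by positivity), ← pow_mul, mul_comm k 2]
    exact_mod_cast hp.le
  refine h1.trans ?_
  have h2 : ((S : ℝ) + 1) ^ k = (S : ℝ) ^ k * (1 + 1 / (S : ℝ)) ^ k := by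
    rw [← mul_pow]
    congr 1
    field_simp
  have h3 : (1 + 1 / (S : ℝ)) ^ k ≤ 2 := by
    have h4 : 1 + 1 / (S : ℝ) ≤ Real.exp (1 / (S : ℝ)) := by
      have := Real.add_one_le_exp (1 / (S : ℝ))
      linarith
    have h5 : (1 + 1 / (S : ℝ)) ^ k ≤ Real.exp (1 / (S : ℝ)) ^ k :=
      pow_le_pow_left₀ (by positivity) h4 k
    rw [← Real.exp_nat_mul] at h5
    refine h5.trans ?_
    have h6 : (k : ℝ) * (1 / (S : ℝ)) ≤ 1 / 2 := by
      rw [mul_one_div, div_le_iff₀ hS0]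
      have : (2 : ℝ) * k ≤ S := by exact_mod_cast hS
      linarith
    refine (Real.exp_le_exp.2 h6).trans ?_
    have h7 : Real.exp (1 / 2) ^ 2 ≤ 2 ^ 2 := by
      rw [← Real.exp_nat_mul]
      have h8 : ((2 : ℕ) : ℝ) * (1 / 2) = 1 := by norm_num
      rw [h8]
      have := Real.exp_one_lt_d9
      linarith
    exact (pow_le_pow_iff_left₀ (Real.exp_pos _).le (by norm_num) (by norm_num)).1 h7
  rw [h2, mul_comm]
  exact mul_le_mul_of_nonneg_right h3 (by positivity)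

omit hp in
theorem fin_two : ∃ k1 : ℕ, ∀ k0 : ℕ, k1 ≤ k0 → ∃ S0 : ℕ, ∀ S : ℕ, S0 ≤ S →
    ∀ (p : ℕ) [Fact p.Prime], S ^ (4 * k0 + 4) ≤ p → p < (S + 1) ^ (4 * k0 + 4) →
    ∑ q ∈ (Icc 1 (S ^ (2 * k0))).filter Nat.Prime, dl p q / q ≤ (S : ℝ) ^ (-(1 / 2) : ℝ) →
    ∃ (χ : DirichletCharacter ℂ p) (s : ℝ), χ ^ 2 = 1 ∧ χ ≠ 1 ∧
      ∑ q ∈ (Icc 1 (S ^ (2 * k0))).filter Nat.Prime, ‖χ (q : ZMod p) + 1‖ ^ 2 / q ≤
        (S : ℝ) ^ (-(1 / 4) : ℝ) ∧ (s = 1 ∨ s = -1) ∧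
      (Set.ncard {x : ZMod p | x ≠ 0 ∧ (F x : ℂ) * χ x ≠ s} : ℝ) ≤
        4 * (S : ℝ) ^ (-(1 / 4) : ℝ) * p := by
  obtain ⟨C, hC, hmb⟩ := mertens_block
  refine ⟨⌈40 * C⌉₊ + 1, fun k0 hk0 => ?_⟩
  have hk1 : 1 ≤ k0 := by omega
  have hkC : 40 * C ≤ (k0 : ℝ) := by
    refine (Nat.le_ceil _).trans ?_
    exact_mod_cast (by omega : ⌈40 * C⌉₊ ≤ k0)
  have hk0R : (0 : ℝ) < k0 := by exact_mod_cast hk1
  obtain ⟨S0, hS0⟩ := Fin2_growth k0 hk1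
  refine ⟨max S0 (max 10 (4 * k0 + 4)), fun S hS p _ hp1 hp2 hsum => ?_⟩
  have hSS0 : S0 ≤ S := (le_max_left _ _).trans hS
  have hS10 : 10 ≤ S := (le_max_left _ _).trans ((le_max_right _ _).trans hS)
  have hSk : 4 * k0 + 4 ≤ S := (le_max_right _ _).trans ((le_max_right _ _).trans hS)
  have hgr := hS0 S hSS0
  have hSR : (10 : ℝ) ≤ S := by exact_mod_cast hS10
  have hSpos : (0 : ℝ) < S := by linarith
  have hlog1 : 1 ≤ Real.log S := by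
    rw [Real.le_log_iff_exp_le hSpos]
    have := Real.exp_one_lt_d9
    linarith
  obtain ⟨x, hx⟩ : ∃ x : ℝ, x = (S : ℝ) ^ (1 / 4 : ℝ) := ⟨_, rfl⟩
  rw [← hx] at hgr
  have hx1024 : 1024 ≤ x := by
    have : 0 ≤ 2 * (k0 : ℝ) * Real.log S := by positivity
    linarith
  have hxpos : 0 < x := by linarith
  have hθ : (S : ℝ) ^ (-(1 / 4) : ℝ) = x⁻¹ := by rw [Real.rpow_neg hSpos.le, hx]
  have hΔ : (S : ℝ) ^ (-(1 / 2) : ℝ) = x⁻¹ * x⁻¹ := by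
    rw [← hθ, ← Real.rpow_add hSpos]
    norm_num
  have hxinv : 0 < x⁻¹ := inv_pos.2 hxpos
  have hxinv' : x⁻¹ ≤ 1 / 1024 := by
    rw [inv_le_comm₀ hxpos (by norm_num)]
    norm_num
    exact hx1024
  have hY2 : 2 ≤ S ^ (2 * k0) := by
    calc 2 ≤ S := by omega
      _ = S ^ 1 := (pow_one S).symm
      _ ≤ S ^ (2 * k0) := Nat.pow_le_pow_right (by omega) (by omega)
  have hYp : S ^ (2 * k0) < p :=
    lt_of_lt_of_le (Nat.pow_lt_pow_right (by omega) (by omega)) hp1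
  -- the key inequality
  have hreal : ∀ χ : DirichletCharacter ℂ p,
      ∑ q ∈ (Icc 1 (S ^ (2 * k0))).filter Nat.Prime, ‖χ (q : ZMod p) + 1‖ ^ 2 / q ≤ x⁻¹ →
        χ ^ 2 = 1 := by
    intro χ hW
    by_contra hne
    have hM : 0 < S ^ (2 * k0 + 3) := Nat.pow_pos (by omega)
    have h2M : 2 * S ^ (2 * k0 + 3) < p := by
      have h1 : 2 * S ^ (2 * k0 + 3) < S * S ^ (2 * k0 + 3) :=
        Nat.mul_lt_mul_of_pos_right (by omega) hM
      have h2 : S * S ^ (2 * k0 + 3) = S ^ (2 * k0 + 4) := by ring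
      have h3 : S ^ (2 * k0 + 4) ≤ S ^ (4 * k0 + 4) := Nat.pow_le_pow_right (by omega) (by omega)
      omega
    have key := pair_ineq χ (Y := S ^ (2 * k0)) hM h2M hne
    have hsq : √(p : ℝ) ≤ 2 * (S : ℝ) ^ (2 * k0 + 2) :=
      Fin2_sqrt (by omega) (by omega) (by
        have : 2 * (2 * k0 + 2) = 4 * k0 + 4 := by ring
        rw [this]
        exact hp2)
    obtain ⟨B, hB⟩ : ∃ B : ℝ, B = (S : ℝ) ^ (2 * k0 + 2) := ⟨_, rfl⟩
    have hBpos : 0 < B := by rw [hB]; positivity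
    rw [← hB] at hsq
    have hA : ((S ^ (2 * k0 + 3) : ℕ) : ℝ) = B * S := by
      rw [hB]
      push_cast
      ring
    rw [hA] at key
    -- the second term
    have h2 : √(∑ q ∈ (Icc 1 (S ^ (2 * k0))).filter Nat.Prime, ‖χ (q : ZMod p) + 1‖ ^ 2 / q) *
        √(∑ q ∈ (Icc 1 (S ^ (2 * k0))).filter Nat.Prime, 1 / (q : ℝ)) ≤ 1 / 32 := by
      have h3 : ∑ q ∈ (Icc 1 (S ^ (2 * k0))).filter Nat.Prime, 1 / (q : ℝ) ≤ x / 1024 := by
        refine (Fin2_recip _).trans (le_trans (le_of_eq ?_) hgr)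
        push_cast
        rw [Real.log_pow]
        push_cast
        ring
      have h4 : √(∑ q ∈ (Icc 1 (S ^ (2 * k0))).filter Nat.Prime,
          ‖χ (q : ZMod p) + 1‖ ^ 2 / q) * √(∑ q ∈ (Icc 1 (S ^ (2 * k0))).filter Nat.Prime,
          1 / (q : ℝ)) ≤ √(x⁻¹) * √(x / 1024) :=
        mul_le_mul (Real.sqrt_le_sqrt hW) (Real.sqrt_le_sqrt h3) (Real.sqrt_nonneg _)
          (Real.sqrt_nonneg _)
      refine h4.trans (le_of_eq ?_)
      rw [← Real.sqrt_mul hxinv.le]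
      have h5 : x⁻¹ * (x / 1024) = (1 / 32) ^ 2 := by
        field_simp
        norm_num
      rw [h5, Real.sqrt_sq (by norm_num)]
    -- the third term
    have h3 : ∑ q ∈ (Ioc (S ^ (2 * k0)) (2 * S ^ (2 * k0 + 3))).filter Nat.Prime,
        1 / (q : ℝ) ≤ 1 / 16 := by
      have h4 := hmb (S ^ (2 * k0)) (2 * S ^ (2 * k0 + 3)) hY2 (by
        have : S ^ (2 * k0) ≤ S ^ (2 * k0 + 3) := Nat.pow_le_pow_right (by omega) (by omega)
        omega)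
      refine h4.trans ?_
      have h5 : ((2 * S ^ (2 * k0 + 3) : ℕ) : ℝ) / ((S ^ (2 * k0) : ℕ) : ℝ) = 2 * (S : ℝ) ^ 3 := by
        push_cast
        rw [pow_add]
        field_simp
      have h6 : Real.log (((2 * S ^ (2 * k0 + 3) : ℕ) : ℝ) / ((S ^ (2 * k0) : ℕ) : ℝ)) ≤
          1 + 3 * Real.log S := by
        rw [h5, Real.log_mul (by norm_num) (by positivity), Real.log_pow]
        have := Real.log_two_lt_d9
        push_cast
        linarith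
      have h7 : Real.log ((S ^ (2 * k0) : ℕ) : ℝ) = 2 * (k0 : ℝ) * Real.log S := by
        push_cast
        rw [Real.log_pow]
        push_cast
        ring
      rw [h7, div_le_iff₀ (by positivity)]
      calc C * (1 + Real.log (((2 * S ^ (2 * k0 + 3) : ℕ) : ℝ) / ((S ^ (2 * k0) : ℕ) : ℝ)))
          ≤ C * (5 * Real.log S) := mul_le_mul_of_nonneg_left (by linarith) hC.le
        _ = (40 * C) * (Real.log S / 8) := by ring
        _ ≤ (k0 : ℝ) * (Real.log S / 8) := mul_le_mul_of_nonneg_right hkC (by positivity)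
        _ = 1 / 16 * (2 * (k0 : ℝ) * Real.log S) := by ring
    have hBS : 0 < B * S := by positivity
    have h4 : √(p : ℝ) * (B * S) ≤ 2 * B * (B * S) :=
      mul_le_mul_of_nonneg_right hsq hBS.le
    have h5 := mul_le_mul_of_nonneg_left h2 (by positivity : 0 ≤ 8 * (B * S) ^ 2)
    have h6 := mul_le_mul_of_nonneg_left h3 (by positivity : 0 ≤ 4 * (B * (S : ℝ)) ^ 2)
    have h7 : (B * S) ^ 2 ≤ 2 * B * (B * S) + 8 * (B * S) ^ 2 * (1 / 32) +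
        4 * (B * S) ^ 2 * (1 / 16) := by
      linarith
    have h8 : (B * S) * (B * (S - 4)) ≤ 0 := by nlinarith
    have h9 : 0 < (B * S) * (B * (S - 4)) := by
      have : 0 < (S : ℝ) - 4 := by linarith
      positivity
    linarith
  obtain ⟨χ, s, h1, h2, h3, h4, h5⟩ := legendre_close (p := p) (Y := S ^ (2 * k0)) (θ := x⁻¹)
    (Δ := x⁻¹ * x⁻¹) hY2 hYp hxinv (by linarith) (by rw [← hΔ]; exact hsum)
    (by nlinarith) hreal
  refine ⟨χ, s, h1, h2, ?_, h4, ?_⟩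
  · rw [hθ]
    exact h3
  · rw [hθ]
    refine h5.trans (le_of_eq ?_)
    field_simp

end Pool.Agent.Helper26.PE
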