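import Pool.Agent.Helper21.PE.Fin3

/-!
# PE-Fin3: contradiction with Siegel's theorem

The proof is in Helper21/PE/Fin3.lean.
-/

set_option autoImplicit false

namespace Pool.Agent.Helper26.PE

open Finset

theorem fin_three (k0 : ℕ) (hk0 : 1 ≤ k0) : ∃ S0 : ℕ, ∀ S : ℕ, S0 ≤ S →
    ∀ (p : ℕ) [Fact p.Prime], S ^ (4 * k0 + 4) ≤ p → p < (S + 1) ^ (4 * k0 + 4) →
    ∀ (χ : DirichletCharacter ℂ p) (s : ℝ), χ ^ 2 = 1 → χ ≠ 1 →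
      ∑ q ∈ (Icc 1 (S ^ (2 * k0))).filter Nat.Prime, ‖χ (q : ZMod p) + 1‖ ^ 2 / q ≤
        (S : ℝ) ^ (-(1 / 4) : ℝ) → (s = 1 ∨ s = -1) →
      (Set.ncard {x : ZMod p | x ≠ 0 ∧ (F x : ℂ) * χ x ≠ s} : ℝ) ≤
        4 * (S : ℝ) ^ (-(1 / 4) : ℝ) * p → False :=
  Pool.Agent.Helper21.PE.fin_three k0 hk0

end Pool.Agent.Helper26.PE
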