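import Pool.Agent.Helper26.PE.Scale
import Pool.Agent.Helper53.KM.G13

/-!
# PE-Fin3a: the set where `la` and `χ` differ is sparse at all scales, with parameters

PROOF.  `κ = 4 S ^ (-1/4)`.  A prime `q ≤ S ^ (1/4)` has `χ q = ± 1` (`χ ^ 2 = 1`, `q < p`), and `χ q = 1` would give
`4 / q ≤ S ^ (-1/4)`, that is `q ≥ 4 S ^ (1/4)`; so `χ q = -1`.  `N = ⌊S ^ (1/16)⌋₊`, `J = 32 (4 k0 + 5)`: `N ^ (J + 1) ≥ p` for
large `S` (`N ≥ S ^ (1/17)`, `p < (S + 1) ^ (4 k0 + 4) ≤ S ^ (4 k0 + 5)`).  `D = ⌈C p ^ a⌉₊`, `divisor_bound` in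
Helper53/KM/G13.lean (namespace Pool.Agent.M17.Helper89.SLE), `a = 1 / (64 J (4 k0 + 5))`, so `D ^ J ≤ S ^ (1/32)`.  `scale`:
`# ≤ D ^ J N κ t ≤ 4 S ^ (1/32 + 1/16 - 1/4) t = 4 S ^ (-5/32) t ≤ S ^ (-1/8) t`.
-/

set_option autoImplicit false

namespace Pool.Agent.Helper26.PE

open Finset

private theorem Fin3a_ev {a : ℝ} (ha : 0 < a) (c : ℝ) :
    ∀ᶠ S : ℕ in Filter.atTop, c ≤ (S : ℝ) ^ a :=
  ((tendsto_rpow_atTop ha).comp tendsto_natCast_atTop_atTop).eventually_ge_atTop c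

private theorem Fin3a_pow {k0 S p : ℕ} (hS : 2 ^ (4 * k0 + 4) ≤ S)
    (hp : p < (S + 1) ^ (4 * k0 + 4)) : p < S ^ (4 * k0 + 5) := by
  have hS1 : 1 ≤ S := le_trans Nat.one_le_two_pow hS
  calc p < (S + 1) ^ (4 * k0 + 4) := hp
    _ ≤ (2 * S) ^ (4 * k0 + 4) := Nat.pow_le_pow_left (by omega) _
    _ = 2 ^ (4 * k0 + 4) * S ^ (4 * k0 + 4) := mul_pow _ _ _
    _ ≤ S * S ^ (4 * k0 + 4) := Nat.mul_le_mul_right _ hS
    _ = S ^ (4 * k0 + 5) := by ring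

/-- the small primes -/
private theorem Fin3a_good {k0 S p N : ℕ} [hp : Fact p.Prime] (hk0 : 1 ≤ k0) (hS1 : 1 ≤ S)
    {χ : DirichletCharacter ℂ p} (hχ : χ ^ 2 = 1)
    (hsum : ∑ q ∈ (Icc 1 (S ^ (2 * k0))).filter Nat.Prime, ‖χ (q : ZMod p) + 1‖ ^ 2 / q ≤
        (S : ℝ) ^ (-(1 / 4) : ℝ))
    (hNp : N < p) (hN : (N : ℝ) ≤ (S : ℝ) ^ (1 / 16 : ℝ)) (q : ℕ) (hq : q.Prime) (hqN : q ≤ N) :
    χ (q : ZMod p) = -1 := by
  have hS1' : (1 : ℝ) ≤ S := by exact_mod_cast hS1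
  have hS0 : (0 : ℝ) < S := by linarith
  have hq0 : (0 : ℝ) < q := by exact_mod_cast hq.pos
  have hne : (q : ZMod p) ≠ 0 := by
    intro h
    rw [ZMod.natCast_eq_zero_iff] at h
    have := Nat.le_of_dvd hq.pos h
    omega
  have h1 : χ (q : ZMod p) ^ 2 = 1 := by
    have h2 : (χ ^ 2) (q : ZMod p) = 1 := by
      rw [hχ, MulChar.one_apply (isUnit_iff_ne_zero.2 hne)]
    rwa [MulChar.pow_apply' χ (by norm_num)] at h2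
  have hq1 : (q : ℝ) ≤ (S : ℝ) ^ (1 / 16 : ℝ) := le_trans (by exact_mod_cast hqN) hN
  have h1b : χ (q : ZMod p) = 1 ∨ χ (q : ZMod p) = -1 := by
    rcases mul_eq_zero.1 (show (χ (q : ZMod p) - 1) * (χ (q : ZMod p) + 1) = 0 by
      linear_combination h1) with h | h
    · exact Or.inl (sub_eq_zero.1 h)
    · exact Or.inr (eq_neg_of_add_eq_zero_left h)
  rcases h1b with h | h
  · exfalso
    have h3 : q ∈ (Icc 1 (S ^ (2 * k0))).filter Nat.Prime := by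
      rw [mem_filter, mem_Icc]
      refine ⟨⟨hq.one_lt.le, ?_⟩, hq⟩
      have h4 : (S : ℝ) ^ (1 / 16 : ℝ) ≤ (S : ℝ) ^ (1 : ℝ) :=
        Real.rpow_le_rpow_of_exponent_le hS1' (by norm_num)
      rw [Real.rpow_one] at h4
      have h5 : q ≤ S := by exact_mod_cast hq1.trans h4
      exact h5.trans (Nat.le_self_pow (by omega) S)
    have h4 : ‖χ (q : ZMod p) + 1‖ ^ 2 / (q : ℝ) ≤ (S : ℝ) ^ (-(1 / 4) : ℝ) :=
      le_trans (single_le_sum (f := fun q : ℕ => ‖χ (q : ZMod p) + 1‖ ^ 2 / (q : ℝ))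
        (fun _ _ => by positivity) h3) hsum
    have h5 : ‖χ (q : ZMod p) + 1‖ ^ 2 = 4 := by
      rw [h]
      norm_num
    rw [h5, Real.rpow_neg hS0.le, div_le_iff₀ hq0, ← div_eq_inv_mul,
      le_div_iff₀ (by positivity)] at h4
    have h6 : (S : ℝ) ^ (1 / 16 : ℝ) ≤ (S : ℝ) ^ (1 / 4 : ℝ) :=
      Real.rpow_le_rpow_of_exponent_le hS1' (by norm_num)
    have h7 : (0 : ℝ) < (S : ℝ) ^ (1 / 4 : ℝ) := by positivity
    linarith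
  · exact h

/-- the estimate of the constants -/
private theorem Fin3a_const {S J P p : ℕ} {C a N D : ℝ} (hS1 : (1 : ℝ) ≤ S)
    (ha0 : 0 < a) (hP : 0 < P) (hJ : J = 32 * P) (ha : a * (64 * J * P) = 1) (hC : 1 ≤ C)
    (hp1 : 1 ≤ p) (hp : (p : ℝ) ≤ (S : ℝ) ^ P) (hN0 : 0 ≤ N) (hN : N ≤ (S : ℝ) ^ (1 / 16 : ℝ))
    (hD0 : 0 ≤ D) (hD : D ≤ C * (p : ℝ) ^ a + 1)
    (hSC : 2 * C ≤ (S : ℝ) ^ (P * a)) (hS4 : 4 ≤ (S : ℝ) ^ (1 / 32 : ℝ)) :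
    D ^ J * N * (4 * (S : ℝ) ^ (-(1 / 4) : ℝ)) ≤ (S : ℝ) ^ (-(1 / 8) : ℝ) := by
  have hS0 : (0 : ℝ) < S := by linarith
  have hp0 : (0 : ℝ) ≤ p := Nat.cast_nonneg _
  have h1 : (p : ℝ) ^ a ≤ (S : ℝ) ^ (P * a) := by
    have h2 : (p : ℝ) ^ a ≤ ((S : ℝ) ^ P) ^ a := Real.rpow_le_rpow hp0 hp ha0.le
    rwa [← Real.rpow_natCast_mul hS0.le] at h2
  have h1' : (1 : ℝ) ≤ (p : ℝ) ^ a := Real.one_le_rpow (by exact_mod_cast hp1) ha0.le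
  have h2 : D ≤ (S : ℝ) ^ (P * a) * (S : ℝ) ^ (P * a) := by
    have h3 : C * (p : ℝ) ^ a + 1 ≤ 2 * C * (p : ℝ) ^ a := by nlinarith
    have h4 : 2 * C * (p : ℝ) ^ a ≤ (S : ℝ) ^ (P * a) * (S : ℝ) ^ (P * a) :=
      mul_le_mul hSC h1 (by positivity) (by positivity)
    linarith
  rw [← Real.rpow_add hS0] at h2
  have h3 : D ^ J ≤ (S : ℝ) ^ (1 / 32 : ℝ) := by
    have h4 : D ^ J ≤ ((S : ℝ) ^ (P * a + P * a)) ^ J := pow_le_pow_left₀ hD0 h2 J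
    rw [← Real.rpow_mul_natCast hS0.le] at h4
    have h5 : (P * a + P * a) * J = 1 / 32 := by
      linear_combination (1 / 32) * ha
    rwa [h5] at h4
  have h4 : (0 : ℝ) ≤ (S : ℝ) ^ (-(1 / 4) : ℝ) := by positivity
  calc D ^ J * N * (4 * (S : ℝ) ^ (-(1 / 4) : ℝ))
      ≤ (S : ℝ) ^ (1 / 32 : ℝ) * (S : ℝ) ^ (1 / 16 : ℝ) *
        ((S : ℝ) ^ (1 / 32 : ℝ) * (S : ℝ) ^ (-(1 / 4) : ℝ)) := by
        apply mul_le_mul
        · exact mul_le_mul h3 hN hN0 (by positivity)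
        · exact mul_le_mul_of_nonneg_right hS4 h4
        · positivity
        · positivity
    _ = (S : ℝ) ^ (-(1 / 8) : ℝ) := by
        rw [← Real.rpow_add hS0, ← Real.rpow_add hS0, ← Real.rpow_add hS0]
        norm_num

/-- powers of `N` -/
private theorem Fin3a_N {S J P p N : ℕ} (hS1 : (1 : ℝ) ≤ S) (hJ : J = 32 * P)
    (hp : p < S ^ P) (hN : (S : ℝ) ^ (1 / 32 : ℝ) ≤ N) : p ≤ N ^ (J + 1) := by
  have hS0 : (0 : ℝ) < S := by linarith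
  have hN1 : (1 : ℝ) ≤ N := le_trans (Real.one_le_rpow hS1 (by norm_num)) hN
  have h1 : ((S : ℝ) ^ (1 / 32 : ℝ)) ^ J ≤ (N : ℝ) ^ J :=
    pow_le_pow_left₀ (by positivity) hN J
  rw [← Real.rpow_mul_natCast hS0.le] at h1
  have h2 : (1 / 32 : ℝ) * J = P := by
    rw [hJ]
    push_cast
    ring
  rw [h2, Real.rpow_natCast] at h1
  have h3 : S ^ P ≤ N ^ J := by exact_mod_cast h1
  have h4 : N ^ J ≤ N ^ (J + 1) := Nat.pow_le_pow_right (by exact_mod_cast hN1) (by omega)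
  omega

theorem fin_scale (k0 : ℕ) (hk0 : 1 ≤ k0) : ∃ S0 : ℕ, ∀ S : ℕ, S0 ≤ S →
    ∀ (p : ℕ) [Fact p.Prime], S ^ (4 * k0 + 4) ≤ p → p < (S + 1) ^ (4 * k0 + 4) →
    ∀ (χ : DirichletCharacter ℂ p) (s : ℝ) (E : Finset ℕ), χ ^ 2 = 1 →
      ∑ q ∈ (Icc 1 (S ^ (2 * k0))).filter Nat.Prime, ‖χ (q : ZMod p) + 1‖ ^ 2 / q ≤
        (S : ℝ) ^ (-(1 / 4) : ℝ) →
      (∀ n : ℕ, n ∈ E ↔ 0 < n ∧ n < p ∧ (la n : ℂ) * χ (n : ZMod p) ≠ s) →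
      (#E : ℝ) ≤ 4 * (S : ℝ) ^ (-(1 / 4) : ℝ) * p →
      ∀ t : ℕ, 1 ≤ t → t < p →
        (#(E.filter fun n => n ≤ t) : ℝ) ≤ (S : ℝ) ^ (-(1 / 8) : ℝ) * t := by
  obtain ⟨P, hPdef⟩ : ∃ P : ℕ, P = 4 * k0 + 5 := ⟨_, rfl⟩
  obtain ⟨J, hJdef⟩ : ∃ J : ℕ, J = 32 * P := ⟨_, rfl⟩
  have hP0 : 0 < P := by omega
  have hJ0 : 0 < J := by omega
  have hP0' : (0 : ℝ) < P := by exact_mod_cast hP0
  have hJ0' : (0 : ℝ) < J := by exact_mod_cast hJ0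
  obtain ⟨a, hadef⟩ : ∃ a : ℝ, a = 1 / (64 * J * P) := ⟨_, rfl⟩
  have ha0 : 0 < a := by rw [hadef]; positivity
  have ha1 : a * (64 * J * P) = 1 := by
    rw [hadef, one_div, inv_mul_cancel₀ (by positivity)]
  obtain ⟨C, hC1, hC⟩ := Pool.Agent.M17.Helper89.SLE.divisor_bound a ha0
  have hev := ((Fin3a_ev (show (0 : ℝ) < 1 / 32 by norm_num) 4).and
    (Fin3a_ev (show (0 : ℝ) < P * a by positivity) (2 * C))).and
    (Filter.eventually_ge_atTop (2 ^ (4 * k0 + 4)))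
  obtain ⟨S0, hS0⟩ := Filter.eventually_atTop.1 hev
  refine ⟨S0, ?_⟩
  intro S hS p hpf hSp hpS χ s E hχ hsum hE hEc t ht1 htp
  obtain ⟨⟨h4, h2C⟩, h2pow⟩ := hS0 S hS
  have hS1 : 1 ≤ S := le_trans Nat.one_le_two_pow h2pow
  have hS1' : (1 : ℝ) ≤ S := by exact_mod_cast hS1
  have hS0' : (0 : ℝ) < S := by linarith
  have hpP : p < S ^ P := by
    rw [hPdef]
    exact Fin3a_pow h2pow hpS
  obtain ⟨N, hNdef⟩ : ∃ N : ℕ, N = ⌊(S : ℝ) ^ (1 / 16 : ℝ)⌋₊ := ⟨_, rfl⟩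
  have hN1 : (N : ℝ) ≤ (S : ℝ) ^ (1 / 16 : ℝ) := by
    rw [hNdef]
    exact Nat.floor_le (by positivity)
  have hN2 : (S : ℝ) ^ (1 / 32 : ℝ) ≤ N := by
    have h5 : (S : ℝ) ^ (1 / 16 : ℝ) < N + 1 := by
      rw [hNdef]
      exact Nat.lt_floor_add_one _
    have h6 : (S : ℝ) ^ (1 / 16 : ℝ) = (S : ℝ) ^ (1 / 32 : ℝ) * (S : ℝ) ^ (1 / 32 : ℝ) := by
      rw [← Real.rpow_add hS0']
      norm_num
    rw [h6] at h5
    nlinarith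
  have hN3 : 2 ≤ N := by
    have : (2 : ℝ) ≤ N := by linarith
    exact_mod_cast this
  have hS2 : S < p := by
    have h5 : 2 ≤ S := by
      by_contra h5
      have h6 : S = 1 := by omega
      rw [h6] at h4
      norm_num at h4
    calc S = S ^ 1 := (pow_one S).symm
      _ < S ^ (4 * k0 + 4) := Nat.pow_lt_pow_right (by omega) (by omega)
      _ ≤ p := hSp
  have hNS : N ≤ S := by
    have h5 : (S : ℝ) ^ (1 / 16 : ℝ) ≤ (S : ℝ) ^ (1 : ℝ) :=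
      Real.rpow_le_rpow_of_exponent_le hS1' (by norm_num)
    rw [Real.rpow_one] at h5
    exact_mod_cast hN1.trans h5
  have hNp : N < p := lt_of_le_of_lt hNS hS2
  obtain ⟨D, hDdef⟩ : ∃ D : ℕ, D = ⌈C * (p : ℝ) ^ a⌉₊ := ⟨_, rfl⟩
  have hp1 : 1 ≤ p := hpf.out.one_lt.le
  have hCp : (1 : ℝ) ≤ C * (p : ℝ) ^ a := by
    have h5 : (1 : ℝ) ≤ (p : ℝ) ^ a := Real.one_le_rpow (by exact_mod_cast hp1) ha0.le
    nlinarith
  have hD1 : C * (p : ℝ) ^ a ≤ D := by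
    rw [hDdef]
    exact Nat.le_ceil _
  have hD2 : (D : ℝ) ≤ C * (p : ℝ) ^ a + 1 := by
    rw [hDdef]
    exact (Nat.ceil_lt_add_one (by linarith)).le
  have hD3 : 1 ≤ D := by
    have : (1 : ℝ) ≤ D := hCp.trans hD1
    exact_mod_cast this
  have hD4 : ∀ n : ℕ, 0 < n → n < p → #n.divisors ≤ D := by
    intro n hn0 hnp
    have h5 := hC n hn0
    have h6 : (n : ℝ) ^ a ≤ (p : ℝ) ^ a :=
      Real.rpow_le_rpow (Nat.cast_nonneg _) (by exact_mod_cast hnp.le) ha0.le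
    have h7 : C * (n : ℝ) ^ a ≤ C * (p : ℝ) ^ a :=
      mul_le_mul_of_nonneg_left h6 (by linarith)
    exact_mod_cast h5.trans (h7.trans hD1)
  have hκ0 : (0 : ℝ) ≤ 4 * (S : ℝ) ^ (-(1 / 4) : ℝ) := by positivity
  have hmain := scale hE hN3 hNp (Fin3a_good hk0 hS1 hχ hsum hNp hN1) hD3 hD4 hκ0 hEc
    (Fin3a_N hS1' hJdef hpP hN2) t ht1 htp
  refine hmain.trans ?_
  refine mul_le_mul_of_nonneg_right ?_ (Nat.cast_nonneg t)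
  exact Fin3a_const hS1' ha0 hP0 hJdef ha1 hC1 hp1 (by exact_mod_cast hpP.le)
    (Nat.cast_nonneg _) hN1 (Nat.cast_nonneg _) hD2 h2C h4

end Pool.Agent.Helper26.PE
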