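import Pool.Agent.Helper26.PE.Geo
import Pool.Agent.Helper68.CO2.Four

/-!
# PE-Gauss: Gauss sums, Polya-Vinogradov, sums over pairs

PROOF.  (1) Mathlib: `gaussSum` of `χ⁻¹` and `ZMod.stdAddChar`; `gaussSum_mul_gaussSum_eq_card` (or
`gaussSum_mulShift`) and `‖gaussSum‖ ^ 2 = p` (the conjugate of `gaussSum χ ψ` is `gaussSum χ⁻¹ ψ⁻¹`).  Compare also
`Pool.Agent.Helper68.CO2.orth`.  (2) `τ ∑ n ∈ Ioc 0 b, χ n = ∑ a ≠ 0, χ⁻¹ a ∑ n ∈ Icc 1 b, ψ (a n)`, norm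
`≤ ∑ a ≠ 0, p / (2 ‖a‖) ≤ p ∑ j ≤ (p - 1) / 2, 1 / j ≤ p (1 + log p)`; `Ioc a b` is a difference of two such sums.
(3) `τ ∑ i, j, χ (i + j) = ∑ a, χ⁻¹ a (∑ i ∈ Icc 1 M, ψ (a i)) ^ 2`, norm `≤ ∑ a, |∑ i, ψ (a i)| ^ 2 = p M` (Parseval,
`Pool.Agent.Helper68.CO2.parseval`).
-/

set_option autoImplicit false

namespace Pool.Agent.Helper26.PE

open Finset

variable {p : ℕ} [hp : Fact p.Prime]

theorem gauss (χ : DirichletCharacter ℂ p) (hχ : χ ≠ 1) :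
    ∃ τ : ℂ, ‖τ‖ = √(p : ℝ) ∧
      ∀ n : ZMod p, τ * χ n = ∑ a : ZMod p, χ⁻¹ a * (ZMod.stdAddChar (a * n) : ℂ) := by
  have hχ' : χ⁻¹ ≠ 1 := inv_ne_one.mpr hχ
  refine ⟨gaussSum χ⁻¹ (ZMod.stdAddChar (N := p)), ?_, ?_⟩
  · have h1 := gaussSum_mul_gaussSum_eq_card hχ' (ZMod.isPrimitive_stdAddChar p)
    rw [← star_gaussSum_eq, ZMod.card] at h1
    have h2 : ((‖gaussSum χ⁻¹ (ZMod.stdAddChar (N := p))‖ ^ 2 : ℝ) : ℂ) = ((p : ℝ) : ℂ) := by
      rw [Complex.ofReal_pow, ← Complex.mul_conj']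
      rw [Complex.ofReal_natCast]
      exact h1
    have h3 : ‖gaussSum χ⁻¹ (ZMod.stdAddChar (N := p))‖ ^ 2 = (p : ℝ) := Complex.ofReal_injective h2
    rw [← h3, Real.sqrt_sq (norm_nonneg _)]
  · intro n
    rcases eq_or_ne n 0 with rfl | hn
    · have h0 : χ 0 = 0 := MulChar.map_zero χ
      rw [h0, mul_zero]
      simp only [mul_zero, AddChar.map_zero_eq_one, mul_one]
      exact (MulChar.sum_eq_zero_of_ne_one hχ').symm
    · obtain ⟨u, hu⟩ : IsUnit n := isUnit_iff_ne_zero.mpr hn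
      have h1 := gaussSum_mulShift_eq χ⁻¹ (ZMod.stdAddChar (N := p)) u
      rw [inv_inv, hu] at h1
      rw [mul_comm, ← h1]
      unfold gaussSum
      refine Finset.sum_congr rfl fun a _ => ?_
      rw [AddChar.mulShift_apply, mul_comm n a]

private theorem Gauss_count (g : ℕ → ℝ) (hg : ∀ j, 0 ≤ g j) :
    ∑ a ∈ (univ : Finset (ZMod p)).erase 0, g a.valMinAbs.natAbs ≤
      2 * ∑ j ∈ Icc 1 (p / 2), g j := by
  classical
  have hmaps : ∀ a ∈ (univ : Finset (ZMod p)).erase 0, a.valMinAbs.natAbs ∈ Icc 1 (p / 2) := by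
    intro a ha
    rw [mem_Icc]
    refine ⟨?_, ZMod.natAbs_valMinAbs_le a⟩
    rw [Nat.one_le_iff_ne_zero]
    intro h
    rw [Int.natAbs_eq_zero, ZMod.valMinAbs_eq_zero] at h
    exact (Finset.mem_erase.mp ha).1 h
  rw [← Finset.sum_fiberwise_of_maps_to hmaps, Finset.mul_sum]
  refine Finset.sum_le_sum fun j _ => ?_
  have h1 : ∑ a ∈ ((univ : Finset (ZMod p)).erase 0).filter (fun a => a.valMinAbs.natAbs = j),
      g a.valMinAbs.natAbs = ((((univ : Finset (ZMod p)).erase 0).filter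
        (fun a => a.valMinAbs.natAbs = j)).card : ℝ) * g j := by
    rw [Finset.sum_congr rfl (g := fun _ => g j), Finset.sum_const, nsmul_eq_mul]
    intro a ha
    rw [(Finset.mem_filter.mp ha).2]
  rw [h1]
  refine mul_le_mul_of_nonneg_right ?_ (hg j)
  have h2 : ((univ : Finset (ZMod p)).erase 0).filter (fun a => a.valMinAbs.natAbs = j) ⊆
      {((j : ℕ) : ZMod p), -((j : ℕ) : ZMod p)} := by
    intro a ha
    have h3 := (Finset.mem_filter.mp ha).2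
    rw [Finset.mem_insert, Finset.mem_singleton]
    have h4 := ZMod.coe_valMinAbs a
    rcases Int.natAbs_eq a.valMinAbs with h5 | h5
    · left
      rw [← h4, h5, h3, Int.cast_natCast]
    · right
      rw [← h4, h5, h3, Int.cast_neg, Int.cast_natCast]
  have h3 := (Finset.card_le_card h2).trans Finset.card_le_two
  exact_mod_cast h3

private theorem Gauss_sum (χ : DirichletCharacter ℂ p) (hχ : χ ≠ 1) (b : ℕ) :
    ‖∑ n ∈ Icc 1 b, χ (n : ZMod p)‖ ≤ √(p : ℝ) * (1 + Real.log p) := by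
  classical
  obtain ⟨τ, hτ, hτ2⟩ := gauss χ hχ
  have hp0 : (0 : ℝ) < p := by exact_mod_cast hp.out.pos
  have hs0 : 0 < √(p : ℝ) := Real.sqrt_pos.mpr hp0
  have hinv : ∀ a : ZMod p, ‖χ⁻¹ a‖ ≤ 1 := fun a => DirichletCharacter.norm_le_one _ a
  have h1 : τ * ∑ n ∈ Icc 1 b, χ (n : ZMod p) = ∑ a : ZMod p, χ⁻¹ a *
      ∑ n ∈ Icc 1 b, (ZMod.stdAddChar (a * (n : ZMod p)) : ℂ) := by
    have e1 : ∀ n ∈ Icc 1 b, τ * χ (n : ZMod p) =
        ∑ a : ZMod p, χ⁻¹ a * (ZMod.stdAddChar (a * (n : ZMod p)) : ℂ) := fun n _ => hτ2 _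
    rw [Finset.mul_sum, Finset.sum_congr rfl e1, Finset.sum_comm]
    refine Finset.sum_congr rfl fun a _ => ?_
    rw [Finset.mul_sum]
  have h2 : ‖∑ a : ZMod p, χ⁻¹ a * ∑ n ∈ Icc 1 b, (ZMod.stdAddChar (a * (n : ZMod p)) : ℂ)‖ ≤
      ∑ a ∈ (univ : Finset (ZMod p)).erase 0, (p : ℝ) / (2 * (a.valMinAbs.natAbs : ℝ)) := by
    rw [← Finset.add_sum_erase _ _ (Finset.mem_univ (0 : ZMod p)), MulChar.map_zero, zero_mul,
      zero_add]
    refine (norm_sum_le _ _).trans (Finset.sum_le_sum fun a ha => ?_)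
    rw [norm_mul]
    calc ‖χ⁻¹ a‖ * ‖∑ n ∈ Icc 1 b, (ZMod.stdAddChar (a * (n : ZMod p)) : ℂ)‖
        ≤ 1 * ((p : ℝ) / (2 * (a.valMinAbs.natAbs : ℝ))) :=
          mul_le_mul (hinv a) (geo_bound b (Finset.mem_erase.mp ha).1) (norm_nonneg _) zero_le_one
      _ = _ := one_mul _
  have h3 := Gauss_count (p := p) (fun j => (p : ℝ) / (2 * (j : ℝ))) (fun j => by positivity)
  have h4 : ∑ j ∈ Icc 1 (p / 2), (p : ℝ) / (2 * (j : ℝ)) ≤ p / 2 * (1 + Real.log p) := by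
    have e : ∑ j ∈ Icc 1 (p / 2), (p : ℝ) / (2 * (j : ℝ)) =
        p / 2 * ∑ j ∈ Icc 1 (p / 2), ((j : ℝ))⁻¹ := by
      rw [Finset.mul_sum]
      refine Finset.sum_congr rfl fun j hj => ?_
      have : (0 : ℝ) < j := by exact_mod_cast (Finset.mem_Icc.mp hj).1
      field_simp
    rw [e]
    refine mul_le_mul_of_nonneg_left ?_ (by positivity)
    have h5 := harmonic_le_one_add_log (p / 2)
    rw [harmonic_eq_sum_Icc] at h5
    push_cast at h5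
    refine h5.trans ?_
    have h6 : Real.log ((p / 2 : ℕ) : ℝ) ≤ Real.log p := by
      apply Real.log_le_log
      · have : 1 ≤ p / 2 := by
          have := hp.out.two_le
          omega
        exact_mod_cast this
      · exact_mod_cast Nat.div_le_self p 2
    linarith
  have h5 : √(p : ℝ) * ‖∑ n ∈ Icc 1 b, χ (n : ZMod p)‖ ≤ p * (1 + Real.log p) := by
    rw [← hτ, ← norm_mul, h1]
    refine h2.trans ?_
    linarith
  have h6 : √(p : ℝ) * ‖∑ n ∈ Icc 1 b, χ (n : ZMod p)‖ ≤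
      √(p : ℝ) * (√(p : ℝ) * (1 + Real.log p)) := by
    rw [← mul_assoc, Real.mul_self_sqrt hp0.le]
    exact h5
  exact le_of_mul_le_mul_left h6 hs0

theorem pv (χ : DirichletCharacter ℂ p) (hχ : χ ≠ 1) (a b : ℕ) :
    ‖∑ n ∈ Ioc a b, χ (n : ZMod p)‖ ≤ 2 * √(p : ℝ) * (1 + Real.log p) := by
  have hlog : 0 ≤ Real.log p := Real.log_natCast_nonneg p
  have hs : 0 ≤ √(p : ℝ) := Real.sqrt_nonneg _
  rcases le_or_gt a b with hab | hab
  · have h1 : ∑ n ∈ Icc 1 b, χ (n : ZMod p) =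
        ∑ n ∈ Icc 1 a, χ (n : ZMod p) + ∑ n ∈ Ioc a b, χ (n : ZMod p) := by
      have hI : ∀ c : ℕ, Icc 1 c = Ioc 0 c := fun c => by
        ext x
        rw [mem_Icc, mem_Ioc]
        omega
      rw [hI, hI, Finset.sum_Ioc_consecutive _ (Nat.zero_le a) hab]
    have h2 : ∑ n ∈ Ioc a b, χ (n : ZMod p) =
        ∑ n ∈ Icc 1 b, χ (n : ZMod p) - ∑ n ∈ Icc 1 a, χ (n : ZMod p) := by
      rw [h1]; ring
    rw [h2]
    refine (norm_sub_le _ _).trans ?_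
    have h3 := Gauss_sum χ hχ a
    have h4 := Gauss_sum χ hχ b
    linarith
  · rw [Finset.Ioc_eq_empty (by omega), Finset.sum_empty, norm_zero]
    positivity

theorem pair_sum (χ : DirichletCharacter ℂ p) (hχ : χ ≠ 1) {M : ℕ} (hM : M < p) :
    ‖∑ i ∈ Icc 1 M, ∑ j ∈ Icc 1 M, χ ((i + j : ℕ) : ZMod p)‖ ≤ √(p : ℝ) * M := by
  classical
  obtain ⟨τ, hτ, hτ2⟩ := gauss χ hχ
  have hp0 : (0 : ℝ) < p := by exact_mod_cast hp.out.pos
  have hs0 : 0 < √(p : ℝ) := Real.sqrt_pos.mpr hp0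
  have hinj : Set.InjOn (fun i : ℕ => (i : ZMod p)) (Icc 1 M : Finset ℕ) := by
    intro i hi j hj hij
    rw [Finset.coe_Icc, Set.mem_Icc] at hi hj
    have h1 := (ZMod.natCast_eq_natCast_iff' i j p).mp hij
    rwa [Nat.mod_eq_of_lt (by omega), Nat.mod_eq_of_lt (by omega)] at h1
  obtain ⟨S, hS⟩ : ∃ S : Finset (ZMod p), S = (Icc 1 M).image (fun i : ℕ => (i : ZMod p)) :=
    ⟨_, rfl⟩
  have hcard : S.card = M := by
    rw [hS, Finset.card_image_of_injOn hinj, Nat.card_Icc]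
    omega
  have hhat : ∀ a : ZMod p, ∑ i ∈ Icc 1 M, (ZMod.stdAddChar (a * (i : ZMod p)) : ℂ) =
      Pool.Agent.Helper68.CO2.hat S a := by
    intro a
    unfold Pool.Agent.Helper68.CO2.hat
    rw [hS, Finset.sum_image hinj]
  have h1 : τ * ∑ i ∈ Icc 1 M, ∑ j ∈ Icc 1 M, χ ((i + j : ℕ) : ZMod p) =
      ∑ a : ZMod p, χ⁻¹ a * (Pool.Agent.Helper68.CO2.hat S a) ^ 2 := by
    rw [Finset.mul_sum]
    have e1 : ∀ i ∈ Icc 1 M, τ * ∑ j ∈ Icc 1 M, χ ((i + j : ℕ) : ZMod p) =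
        ∑ a : ZMod p, ∑ j ∈ Icc 1 M, χ⁻¹ a * (ZMod.stdAddChar (a * (i : ZMod p)) *
          ZMod.stdAddChar (a * (j : ZMod p))) := by
      intro i _
      rw [Finset.mul_sum, Finset.sum_congr rfl fun j _ => hτ2 ((i + j : ℕ) : ZMod p),
        Finset.sum_comm]
      refine Finset.sum_congr rfl fun a _ => Finset.sum_congr rfl fun j _ => ?_
      rw [← AddChar.map_add_eq_mul, ← mul_add, Nat.cast_add]
    rw [Finset.sum_congr rfl e1, Finset.sum_comm]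
    refine Finset.sum_congr rfl fun a _ => ?_
    rw [← hhat, pow_two, Finset.sum_mul_sum, Finset.mul_sum]
    refine Finset.sum_congr rfl fun i _ => ?_
    rw [Finset.mul_sum]
  have h2 : ‖∑ a : ZMod p, χ⁻¹ a * (Pool.Agent.Helper68.CO2.hat S a) ^ 2‖ ≤ p * M := by
    refine (norm_sum_le _ _).trans ?_
    have h3 := Pool.Agent.Helper68.CO2.parseval S
    rw [hcard] at h3
    rw [← h3]
    refine Finset.sum_le_sum fun a _ => ?_
    rw [norm_mul, norm_pow]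
    calc ‖χ⁻¹ a‖ * ‖Pool.Agent.Helper68.CO2.hat S a‖ ^ 2
        ≤ 1 * ‖Pool.Agent.Helper68.CO2.hat S a‖ ^ 2 :=
          mul_le_mul_of_nonneg_right (DirichletCharacter.norm_le_one _ a) (by positivity)
      _ = _ := one_mul _
  have h5 : √(p : ℝ) * ‖∑ i ∈ Icc 1 M, ∑ j ∈ Icc 1 M, χ ((i + j : ℕ) : ZMod p)‖ ≤
      √(p : ℝ) * (√(p : ℝ) * M) := by
    rw [← mul_assoc, Real.mul_self_sqrt hp0.le]
    nth_rewrite 1 [← hτ]
    rw [← norm_mul, h1]
    exact h2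
  exact le_of_mul_le_mul_left h5 hs0

end Pool.Agent.Helper26.PE
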