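import Pool.Agent.Helper26.PE.Defs

/-!
# PE-Geo: geometric sums

PROOF.  `ψ = ZMod.stdAddChar`, `z = ψ a ≠ 1`, the sum is `z (z ^ M - 1) / (z - 1)`, so its norm is `≤ 2 / |z - 1|`, and
`|z - 1| = 2 sin (π ‖a‖ / p) ≥ 4 ‖a‖ / p` with `‖a‖ = |valMinAbs a| ≤ p / 2` (`Real.mul_le_sin` / Jordan).
-/

set_option autoImplicit false

namespace Pool.Agent.Helper26.PE

open Finset

variable {p : ℕ} [hp : Fact p.Prime]

private theorem Geo_pow (a : ZMod p) (i : ℕ) :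
    (ZMod.stdAddChar (a * (i : ZMod p)) : ℂ) = (ZMod.stdAddChar a : ℂ) ^ i := by
  rw [← AddChar.map_nsmul_eq_pow, nsmul_eq_mul, mul_comm]

private theorem Geo_norm (a : ZMod p) : ‖(ZMod.stdAddChar a : ℂ)‖ = 1 := by
  rw [ZMod.stdAddChar_apply]
  exact Circle.norm_coe _

private theorem Geo_sum (z : ℂ) (M : ℕ) :
    (∑ i ∈ Icc 1 M, z ^ i) * (z - 1) = z ^ (M + 1) - z := by
  induction M with
  | zero => simp
  | succ M ih =>
    rw [Finset.sum_Icc_succ_top (by omega), add_mul, ih]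
    ring

private theorem Geo_lower {a : ZMod p} (ha : a ≠ 0) :
    4 * (a.valMinAbs.natAbs : ℝ) / p ≤ ‖(ZMod.stdAddChar a : ℂ) - 1‖ := by
  have hp0 : (0 : ℝ) < p := by exact_mod_cast hp.out.pos
  have h1 : (ZMod.stdAddChar a : ℂ) =
      Complex.exp (Complex.I * ((2 * Real.pi * (a.valMinAbs : ℝ) / p : ℝ) : ℂ)) := by
    conv_lhs => rw [← ZMod.coe_valMinAbs a]
    rw [ZMod.stdAddChar_coe]
    congr 1
    push_cast
    ring
  have h2 : |Real.pi * (a.valMinAbs : ℝ) / p| ≤ Real.pi / 2 := by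
    rw [abs_div, abs_mul, abs_of_pos Real.pi_pos, abs_of_pos hp0, div_le_iff₀ hp0]
    have h3 := ZMod.natAbs_valMinAbs_le a
    have h4 : (a.valMinAbs.natAbs : ℝ) * 2 ≤ p := by
      have h5 : a.valMinAbs.natAbs * 2 ≤ p := by omega
      exact_mod_cast h5
    have h5 : |(a.valMinAbs : ℝ)| = (a.valMinAbs.natAbs : ℝ) := by
      rw [Nat.cast_natAbs, Int.cast_abs]
    rw [h5]
    nlinarith [Real.pi_pos]
  have h3 := Real.mul_abs_le_abs_sin h2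
  have h5 : |(a.valMinAbs : ℝ)| = (a.valMinAbs.natAbs : ℝ) := by
    rw [Nat.cast_natAbs, Int.cast_abs]
  rw [abs_div, abs_mul, abs_of_pos Real.pi_pos, abs_of_pos hp0, h5] at h3
  rw [h1, Complex.norm_exp_I_mul_ofReal_sub_one]
  have h6 : 2 * Real.pi * (a.valMinAbs : ℝ) / p / 2 = Real.pi * (a.valMinAbs : ℝ) / p := by ring
  rw [h6, Real.norm_eq_abs, abs_mul, abs_two]
  have h7 : 2 / Real.pi * (Real.pi * (a.valMinAbs.natAbs : ℝ) / p) =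
      2 * (a.valMinAbs.natAbs : ℝ) / p := by
    field_simp
  rw [h7] at h3
  calc 4 * (a.valMinAbs.natAbs : ℝ) / p = 2 * (2 * (a.valMinAbs.natAbs : ℝ) / p) := by ring
    _ ≤ 2 * |Real.sin (Real.pi * (a.valMinAbs : ℝ) / p)| := by linarith

theorem geo_bound (M : ℕ) {a : ZMod p} (ha : a ≠ 0) :
    ‖∑ i ∈ Icc 1 M, (ZMod.stdAddChar (a * (i : ZMod p)) : ℂ)‖ ≤
      p / (2 * (a.valMinAbs.natAbs : ℝ)) := by
  have hp0 : (0 : ℝ) < p := by exact_mod_cast hp.out.pos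
  have hv : (0 : ℝ) < (a.valMinAbs.natAbs : ℝ) := by
    have h1 : a.valMinAbs ≠ 0 := by
      rw [Ne, ZMod.valMinAbs_eq_zero]
      exact ha
    exact_mod_cast Int.natAbs_pos.2 h1
  have h1 := Geo_sum (ZMod.stdAddChar a : ℂ) M
  simp_rw [Geo_pow]
  have h2 : ‖∑ i ∈ Icc 1 M, (ZMod.stdAddChar a : ℂ) ^ i‖ * ‖(ZMod.stdAddChar a : ℂ) - 1‖ ≤ 2 := by
    rw [← norm_mul, h1]
    refine (norm_sub_le _ _).trans ?_
    rw [norm_pow, Geo_norm, one_pow]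
    norm_num
  have h3 := Geo_lower ha
  have h4 : ‖∑ i ∈ Icc 1 M, (ZMod.stdAddChar a : ℂ) ^ i‖ * (4 * (a.valMinAbs.natAbs : ℝ) / p) ≤ 2 :=
    (mul_le_mul_of_nonneg_left h3 (norm_nonneg _)).trans h2
  rw [le_div_iff₀ (by positivity)]
  have h5 : ‖∑ i ∈ Icc 1 M, (ZMod.stdAddChar a : ℂ) ^ i‖ * (4 * (a.valMinAbs.natAbs : ℝ) / p) =
      ‖∑ i ∈ Icc 1 M, (ZMod.stdAddChar a : ℂ) ^ i‖ * (2 * (a.valMinAbs.natAbs : ℝ)) * (2 / p) := by
    ring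
  rw [h5] at h4
  have h6 : ‖∑ i ∈ Icc 1 M, (ZMod.stdAddChar a : ℂ) ^ i‖ * (2 * (a.valMinAbs.natAbs : ℝ)) * (2 / p)
      * p ≤ 2 * p := mul_le_mul_of_nonneg_right h4 hp0.le
  have h7 : ‖∑ i ∈ Icc 1 M, (ZMod.stdAddChar a : ℂ) ^ i‖ * (2 * (a.valMinAbs.natAbs : ℝ)) * (2 / p)
      * p = 2 * (‖∑ i ∈ Icc 1 M, (ZMod.stdAddChar a : ℂ) ^ i‖ * (2 * (a.valMinAbs.natAbs : ℝ))) := by
    field_simp
  linarith

theorem geo_triv (M : ℕ) (a : ZMod p) :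
    ‖∑ i ∈ Icc 1 M, (ZMod.stdAddChar (a * (i : ZMod p)) : ℂ)‖ ≤ M := by
  refine (norm_sum_le _ _).trans ?_
  refine (Finset.sum_le_sum (g := fun _ => (1 : ℝ)) fun i _ => (Geo_norm _).le).trans ?_
  simp

end Pool.Agent.Helper26.PE
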