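import Pool.Agent.Helper26.PE.Defs

/-!
# PE-Mass: Parseval for the characters modulo `p`

PROOF.  Orthogonality of the characters of `(ZMod p)ˣ`: for `G : ZMod p → ℝ`,
`∑ χ, |∑ x, G x conj (χ x)| ^ 2 = (p - 1) ∑ x ≠ 0, |G x| ^ 2`.  Apply it to
`F` and to `x ↦ F (q x) + F x`, whose coefficient is `cf χ * (χ q + 1)` (substitution `x ↦ q x`) and whose values are `0`
off `Bd p q` and `± 2` on `Bd p q`.
-/

set_option autoImplicit false

namespace Pool.Agent.Helper26.PE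

open Finset

variable {p : ℕ} [hp : Fact p.Prime]

/-- the coefficient of `F` at `χ` -/
noncomputable def cf (χ : DirichletCharacter ℂ p) : ℂ :=
  (∑ x : ZMod p, (F x : ℂ) * (starRingEnd ℂ) (χ x)) / ((p : ℂ) - 1)

private theorem conj_char (χ : DirichletCharacter ℂ p) {x : ZMod p} (hx : x ≠ 0) :
    (starRingEnd ℂ) (χ x) = χ x⁻¹ := by
  have h1 : (starRingEnd ℂ) (χ x) * χ x = 1 := by
    have h2 : ‖χ x‖ = 1 := by
      have hu : IsUnit x := isUnit_iff_ne_zero.2 hx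
      have h3 := χ.unit_norm_eq_one hu.unit
      rwa [IsUnit.unit_spec] at h3
    rw [mul_comm, Complex.mul_conj, Complex.normSq_eq_norm_sq, h2]
    norm_num
  have h4 : χ x⁻¹ * χ x = 1 := by
    rw [← map_mul, inv_mul_cancel₀ hx, map_one]
  have h5 : χ x ≠ 0 := by
    intro h0
    rw [h0, mul_zero] at h4
    exact zero_ne_one h4
  exact mul_right_cancel₀ h5 (h1.trans h4.symm)

/-- Parseval -/
private theorem parseval (G : ZMod p → ℝ) :
    ∑ χ : DirichletCharacter ℂ p, ‖∑ x : ZMod p, (G x : ℂ) * (starRingEnd ℂ) (χ x)‖ ^ 2 =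
      ((p : ℝ) - 1) * ∑ x ∈ univ.erase (0 : ZMod p), G x ^ 2 := by
  classical
  have key : ∀ x y : ZMod p, ∑ χ : DirichletCharacter ℂ p,
      (starRingEnd ℂ) (χ x) * χ y = if x ≠ 0 ∧ x = y then ((p : ℂ) - 1) else 0 := by
    intro x y
    rcases eq_or_ne x 0 with rfl | hx
    · rw [if_neg (fun h => h.1 rfl)]
      refine sum_eq_zero fun χ _ => ?_
      rw [χ.map_zero, map_zero, zero_mul]
    · have h1 : ∀ χ : DirichletCharacter ℂ p, (starRingEnd ℂ) (χ x) * χ y = χ x⁻¹ * χ y :=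
        fun χ => by rw [conj_char χ hx]
      rw [sum_congr rfl fun χ _ => h1 χ,
        DirichletCharacter.sum_char_inv_mul_char_eq ℂ (isUnit_iff_ne_zero.2 hx) y]
      by_cases hxy : x = y
      · rw [if_pos hxy, if_pos ⟨hx, hxy⟩, Nat.totient_prime hp.out,
          Nat.cast_sub hp.out.one_le, Nat.cast_one]
      · rw [if_neg hxy, if_neg (fun h => hxy h.2)]
  have h2 : ∀ χ : DirichletCharacter ℂ p,
      ((‖∑ x : ZMod p, (G x : ℂ) * (starRingEnd ℂ) (χ x)‖ ^ 2 : ℝ) : ℂ) =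
        ∑ x : ZMod p, ∑ y : ZMod p, (G x : ℂ) * G y * ((starRingEnd ℂ) (χ x) * χ y) := by
    intro χ
    rw [← Complex.normSq_eq_norm_sq, ← Complex.mul_conj, map_sum, sum_mul_sum]
    refine sum_congr rfl fun x _ => sum_congr rfl fun y _ => ?_
    rw [map_mul, Complex.conj_ofReal, Complex.conj_conj]
    ring
  have h3 : ((∑ χ : DirichletCharacter ℂ p,
      ‖∑ x : ZMod p, (G x : ℂ) * (starRingEnd ℂ) (χ x)‖ ^ 2 : ℝ) : ℂ) =
      ((((p : ℝ) - 1) * ∑ x ∈ univ.erase (0 : ZMod p), G x ^ 2 : ℝ) : ℂ) := by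
    rw [Complex.ofReal_sum, sum_congr rfl fun χ _ => h2 χ, sum_comm]
    have h4 : ∀ x : ZMod p, ∑ χ : DirichletCharacter ℂ p, ∑ y : ZMod p,
        (G x : ℂ) * G y * ((starRingEnd ℂ) (χ x) * χ y) =
        if x ≠ 0 then ((p : ℂ) - 1) * (G x : ℂ) ^ 2 else 0 := by
      intro x
      rw [sum_comm]
      have h5 : ∀ y : ZMod p, ∑ χ : DirichletCharacter ℂ p,
          (G x : ℂ) * G y * ((starRingEnd ℂ) (χ x) * χ y) =
          if x = y then (if x ≠ 0 then ((p : ℂ) - 1) * (G x : ℂ) ^ 2 else 0) else 0 := by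
        intro y
        rw [← mul_sum, key]
        by_cases hxy : x = y
        · subst hxy
          rw [if_pos rfl]
          by_cases hx : x ≠ 0
          · rw [if_pos ⟨hx, rfl⟩, if_pos hx]
            ring
          · rw [if_neg (fun h => hx h.1), if_neg hx, mul_zero]
        · rw [if_neg hxy, if_neg (fun h => hxy h.2), mul_zero]
      rw [sum_congr rfl fun y _ => h5 y, sum_ite_eq]
      simp
    rw [sum_congr rfl fun x _ => h4 x, ← sum_filter, Complex.ofReal_mul, Complex.ofReal_sum,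
      mul_sum]
    have h6 : (univ.filter fun x : ZMod p => x ≠ 0) = univ.erase 0 := by
      ext x; simp
    rw [h6]
    refine sum_congr rfl fun x _ => ?_
    push_cast
    ring
  exact_mod_cast h3

private theorem p_sub_pos : (0 : ℝ) < (p : ℝ) - 1 := by
  have h := hp.out.one_lt
  have h' : (1 : ℝ) < p := by exact_mod_cast h
  linarith

private theorem norm_p_sub : ‖((p : ℂ) - 1)‖ = (p : ℝ) - 1 := by
  have h : ((p : ℂ) - 1) = (((p : ℝ) - 1 : ℝ) : ℂ) := by push_cast; rfl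
  rw [h, Complex.norm_real, Real.norm_of_nonneg p_sub_pos.le]

theorem mass_one : ∑ χ : DirichletCharacter ℂ p, ‖cf χ‖ ^ 2 = 1 := by
  have h1 : ∀ χ : DirichletCharacter ℂ p, ‖cf χ‖ ^ 2 =
      ‖∑ x : ZMod p, (F x : ℂ) * (starRingEnd ℂ) (χ x)‖ ^ 2 / ((p : ℝ) - 1) ^ 2 := by
    intro χ
    rw [cf, norm_div, norm_p_sub, div_pow]
  rw [sum_congr rfl fun χ _ => h1 χ, ← sum_div, parseval]
  have h2 : ∑ x ∈ univ.erase (0 : ZMod p), F x ^ 2 = (p : ℝ) - 1 := by
    rw [sum_congr rfl fun x _ => (sq (F x)).trans (F_sq x), sum_const,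
      card_erase_of_mem (mem_univ _), card_univ, ZMod.card, nsmul_eq_mul, mul_one,
      Nat.cast_sub hp.out.one_le, Nat.cast_one]
  have h3 := p_sub_pos (p := p)
  rw [h2]
  field_simp

theorem mass_prime {q : ℕ} (hq : (q : ZMod p) ≠ 0) :
    ∑ χ : DirichletCharacter ℂ p, ‖cf χ‖ ^ 2 * ‖χ (q : ZMod p) + 1‖ ^ 2 =
      4 * (#(Bd p q) : ℝ) / ((p : ℝ) - 1) := by
  classical
  have h1 : ∀ χ : DirichletCharacter ℂ p, ‖cf χ‖ ^ 2 * ‖χ (q : ZMod p) + 1‖ ^ 2 =
      ‖∑ x : ZMod p, ((F ((q : ZMod p) * x) + F x : ℝ) : ℂ) * (starRingEnd ℂ) (χ x)‖ ^ 2 /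
        ((p : ℝ) - 1) ^ 2 := by
    intro χ
    have h2 : ∑ x : ZMod p, (F x : ℂ) * (starRingEnd ℂ) (χ x) * χ (q : ZMod p) =
        ∑ x : ZMod p, (F ((q : ZMod p) * x) : ℂ) * (starRingEnd ℂ) (χ x) := by
      rw [← Equiv.sum_comp (Equiv.mulLeft₀ (q : ZMod p) hq)]
      refine sum_congr rfl fun x _ => ?_
      rw [Equiv.mulLeft₀_apply, map_mul, map_mul]
      have h3 : (starRingEnd ℂ) (χ (q : ZMod p)) * χ (q : ZMod p) = 1 := by
        rw [conj_char χ hq, ← map_mul, inv_mul_cancel₀ hq, map_one]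
      linear_combination ((F ((q : ZMod p) * x) : ℂ) * (starRingEnd ℂ) (χ x)) * h3
    have h4 : (∑ x : ZMod p, (F x : ℂ) * (starRingEnd ℂ) (χ x)) * (χ (q : ZMod p) + 1) =
        ∑ x : ZMod p, ((F ((q : ZMod p) * x) + F x : ℝ) : ℂ) * (starRingEnd ℂ) (χ x) := by
      rw [mul_add, mul_one, sum_mul, h2, ← sum_add_distrib]
      refine sum_congr rfl fun x _ => ?_
      push_cast
      ring
    rw [← mul_pow, ← norm_mul, cf, div_mul_eq_mul_div, h4, norm_div, norm_p_sub, div_pow]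
  rw [sum_congr rfl fun χ _ => h1 χ, ← sum_div, parseval]
  have h5 : ∑ x ∈ univ.erase (0 : ZMod p), (F ((q : ZMod p) * x) + F x) ^ 2 =
      4 * (#(Bd p q) : ℝ) := by
    have h6 : ∀ x ∈ univ.erase (0 : ZMod p), (F ((q : ZMod p) * x) + F x) ^ 2 =
        if x ∈ Bd p q then (4 : ℝ) else 0 := by
      intro x hx
      have hx0 : x ≠ 0 := ne_of_mem_erase hx
      by_cases hb : x ∈ Bd p q
      · rw [if_pos hb]
        have h7 := (mem_Bd.1 hb).2
        rcases F_eq ((q : ZMod p) * x) with h8 | h8 <;> rcases F_eq x with h9 | h9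
        · rw [h8, h9]; norm_num
        · rw [h8, h9] at h7; norm_num at h7
        · rw [h8, h9] at h7; norm_num at h7
        · rw [h8, h9]; norm_num
      · rw [if_neg hb]
        have h7 : F ((q : ZMod p) * x) = - F x := by
          by_contra hcon
          exact hb (mem_Bd.2 ⟨hx0, hcon⟩)
        rw [h7]
        ring
    rw [sum_congr rfl h6, ← sum_filter, sum_const, nsmul_eq_mul, mul_comm]
    congr 2
    congr 1
    ext x
    rw [mem_filter, mem_erase]
    exact ⟨fun h => h.2, fun h => ⟨⟨(mem_Bd.1 h).1, mem_univ _⟩, h⟩⟩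
  have h3 := p_sub_pos (p := p)
  rw [h5]
  field_simp

end Pool.Agent.Helper26.PE
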