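import Pool.Agent.Helper26.PE.Geo
import Pool.Agent.Helper68.CO2.Four

/-!
# PE-Miss: most cosets of a subgroup have a small element

PROOF.  `h = Nat.card H`, `I = [1, M]`, `S(a) = ∑ i ∈ I, ψ (a i)`, `w(a) = |S(a)| ^ 2 ≤ min (M ^ 2, (p / (2 ‖a‖)) ^ 2)`,
`∑ a, w a = p M`.  `T(x) = #{(i, j, g) : i + j = g x} = h M ^ 2 / p + e(x)`, `e(x) = (1 / p) ∑ a ≠ 0, S(a) ^ 2 ∑ g ∈ H, ψ (- a g x)`.
Then `∑ x, |e(x)| ^ 2 ≤ (h / p) ∑ a ≠ 0, ∑ g ∈ H, w(a) w(g a)` (orthogonality: `∑ x, ψ (x (b g' - a g)) = p` or `0`, so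
`a g = b g'`).  The pairs with `‖a‖ ≤ L`, `‖g a‖ ≤ L` are at most `(2 L) ^ 2`, each `≤ M ^ 4`; the pairs with `‖g a‖ > L`
give at most `∑ a, w(a) * h * (p / 2L) ^ 2 = p M h p ^ 2 / (4 L ^ 2)`, and the same for `‖a‖ > L`.  If `x` is in the set,
`T(x) = 0`, `|e(x)| = h M ^ 2 / p` (`i + j ≤ 2 M < p`).  So `# (h M ^ 2 / p) ^ 2 ≤ (h / p) (4 L ^ 2 M ^ 4 + h p ^ 3 M / (2 L ^ 2))`.
-/

set_option autoImplicit false

namespace Pool.Agent.Helper26.PE

open Finset Pool.Agent.Helper68.CO2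

variable {p : ℕ} [hp : Fact p.Prime]

/-- Parseval -/
theorem Miss_parseval (K : ZMod p → ℂ) :
    ∑ x : ZMod p, ‖∑ b : ZMod p, K b * (ZMod.stdAddChar (b * x) : ℂ)‖ ^ 2 =
      (p : ℝ) * ∑ b : ZMod p, ‖K b‖ ^ 2 := by
  classical
  have h1 : ∀ x : ZMod p, ((‖∑ b : ZMod p, K b * (ZMod.stdAddChar (b * x) : ℂ)‖ ^ 2 : ℝ) : ℂ) =
      ∑ b : ZMod p, ∑ c : ZMod p,
        K b * (starRingEnd ℂ) (K c) * (ZMod.stdAddChar (x * (b - c)) : ℂ) := by
    intro x
    rw [Complex.ofReal_pow, ← Complex.conj_mul', mul_comm, map_sum, Finset.sum_mul_sum]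
    refine Finset.sum_congr rfl fun b _ => Finset.sum_congr rfl fun c _ => ?_
    have e : x * (b - c) = b * x + -(c * x) := by ring
    rw [map_mul (starRingEnd ℂ), ← AddChar.map_neg_eq_conj, e, AddChar.map_add_eq_mul]
    ring
  have h2 : ((∑ x : ZMod p, ‖∑ b : ZMod p, K b * (ZMod.stdAddChar (b * x) : ℂ)‖ ^ 2 : ℝ) : ℂ) =
      (((p : ℝ) * ∑ b : ZMod p, ‖K b‖ ^ 2 : ℝ) : ℂ) := by
    rw [Complex.ofReal_sum]
    simp only [h1]
    rw [Finset.sum_comm]
    have h3 : ∀ b : ZMod p, ∑ x : ZMod p, ∑ c : ZMod p,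
        K b * (starRingEnd ℂ) (K c) * (ZMod.stdAddChar (x * (b - c)) : ℂ) =
          (p : ℂ) * ((‖K b‖ ^ 2 : ℝ) : ℂ) := by
      intro b
      rw [Finset.sum_comm]
      have h4 : ∀ c : ZMod p, ∑ x : ZMod p,
          K b * (starRingEnd ℂ) (K c) * (ZMod.stdAddChar (x * (b - c)) : ℂ) =
            if b = c then K b * (starRingEnd ℂ) (K c) * p else 0 := by
        intro c
        rw [← Finset.mul_sum, orth]
        by_cases h : b = c
        · rw [if_pos h, if_pos (sub_eq_zero.2 h)]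
        · rw [if_neg h, if_neg (sub_ne_zero.2 h), mul_zero]
      rw [Finset.sum_congr rfl (fun c _ => h4 c), Finset.sum_ite_eq, if_pos (Finset.mem_univ b),
        Complex.mul_conj', Complex.ofReal_pow, mul_comm]
    rw [Finset.sum_congr rfl (fun b _ => h3 b), ← Finset.mul_sum, Complex.ofReal_mul,
      Complex.ofReal_sum, Complex.ofReal_natCast]
  exact_mod_cast h2

/-- the interval -/
private noncomputable def In (p M : ℕ) : Finset (ZMod p) :=
  (Icc 1 M).image fun i : ℕ => (i : ZMod p)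

private theorem In_inj {M : ℕ} (hM : M < p) :
    Set.InjOn (fun i : ℕ => (i : ZMod p)) (Icc 1 M : Finset ℕ) := by
  intro i hi j hj hij
  have hi' := (Finset.mem_Icc.1 (Finset.mem_coe.1 hi)).2
  have hj' := (Finset.mem_Icc.1 (Finset.mem_coe.1 hj)).2
  have h1 : ((i : ZMod p)).val = ((j : ZMod p)).val := congrArg ZMod.val hij
  rwa [ZMod.val_natCast_of_lt (by omega), ZMod.val_natCast_of_lt (by omega)] at h1

private theorem In_card {M : ℕ} (hM : M < p) : (In p M).card = M := by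
  unfold In
  rw [Finset.card_image_of_injOn (In_inj hM), Nat.card_Icc, Nat.add_sub_cancel]

private theorem In_hat {M : ℕ} (hM : M < p) (a : ZMod p) :
    hat (In p M) a = ∑ i ∈ Icc 1 M, (ZMod.stdAddChar (a * (i : ZMod p)) : ℂ) := by
  unfold hat In
  rw [Finset.sum_image fun i hi j hj h => In_inj hM (Finset.mem_coe.2 hi) (Finset.mem_coe.2 hj) h]

/-- the elements of small absolute value -/
private noncomputable def Sm (p L : ℕ) [Fact p.Prime] : Finset (ZMod p) :=
  univ.filter fun a : ZMod p => a ≠ 0 ∧ a.valMinAbs.natAbs ≤ L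

private theorem Sm_card (L : ℕ) : (Sm p L).card ≤ 2 * L := by
  have h1 : (Sm p L).card ≤ ((Finset.Icc (-(L : ℤ)) L).erase 0).card := by
    refine Finset.card_le_card_of_injOn (fun a => a.valMinAbs) ?_ ?_
    · intro a ha
      have ha' := (Finset.mem_filter.1 (Finset.mem_coe.1 ha)).2
      refine Finset.mem_coe.2 (Finset.mem_erase.2 ⟨?_, ?_⟩)
      · intro h
        exact ha'.1 ((ZMod.valMinAbs_eq_zero a).1 h)
      · show a.valMinAbs ∈ Finset.Icc (-(L : ℤ)) L
        rw [Finset.mem_Icc]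
        have := ha'.2
        omega
    · intro a _ b _ hab
      exact ZMod.injective_valMinAbs hab
  rw [Finset.card_erase_of_mem (by rw [Finset.mem_Icc]; omega), Int.card_Icc] at h1
  omega

/-- the pointwise bound -/
private theorem w_pair {M L : ℕ} (hM : M < p) (hL : 0 < L) {y z : ZMod p} (hy : y ≠ 0)
    (hz : z ≠ 0) :
    ‖hat (In p M) y‖ ^ 2 * ‖hat (In p M) z‖ ^ 2 ≤
      (M : ℝ) ^ 4 * ((if y ∈ Sm p L then 1 else 0) * (if z ∈ Sm p L then 1 else 0)) +
        ((p : ℝ) / (2 * L)) ^ 2 * (‖hat (In p M) y‖ ^ 2 + ‖hat (In p M) z‖ ^ 2) := by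
  have hL' : (0 : ℝ) < L := by exact_mod_cast hL
  have hp0 : (0 : ℝ) ≤ (p : ℝ) := Nat.cast_nonneg _
  have htriv : ∀ a : ZMod p, ‖hat (In p M) a‖ ^ 2 ≤ (M : ℝ) ^ 2 := by
    intro a
    rw [In_hat hM]
    exact pow_le_pow_left₀ (norm_nonneg _) (geo_triv M a) 2
  have hbig : ∀ a : ZMod p, a ≠ 0 → a ∉ Sm p L → ‖hat (In p M) a‖ ^ 2 ≤ ((p : ℝ) / (2 * L)) ^ 2 := by
    intro a ha haS
    rw [In_hat hM]
    refine pow_le_pow_left₀ (norm_nonneg _) ((geo_bound M ha).trans ?_) 2
    have h1 : L < a.valMinAbs.natAbs := by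
      by_contra h
      exact haS (Finset.mem_filter.2 ⟨Finset.mem_univ _, ha, not_lt.1 h⟩)
    have h2 : (L : ℝ) ≤ (a.valMinAbs.natAbs : ℝ) := by exact_mod_cast h1.le
    exact div_le_div_of_nonneg_left hp0 (by positivity) (by linarith)
  have hc : (0 : ℝ) ≤ ((p : ℝ) / (2 * L)) ^ 2 := by positivity
  have wy : (0 : ℝ) ≤ ‖hat (In p M) y‖ ^ 2 := by positivity
  have wz : (0 : ℝ) ≤ ‖hat (In p M) z‖ ^ 2 := by positivity
  by_cases h1 : y ∈ Sm p L
  · by_cases h2 : z ∈ Sm p L
    · rw [if_pos h1, if_pos h2]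
      have h3 := mul_le_mul (htriv y) (htriv z) wz (by positivity)
      have h4 : (M : ℝ) ^ 2 * (M : ℝ) ^ 2 = (M : ℝ) ^ 4 := by ring
      have h5 := mul_nonneg hc (add_nonneg wy wz)
      linarith
    · rw [if_neg h2, mul_zero, mul_zero, zero_add]
      have h3 := mul_le_mul_of_nonneg_left (hbig z hz h2) wy
      have h4 := mul_nonneg hc wz
      linarith
  · rw [if_neg h1, zero_mul, mul_zero, zero_add]
    have h3 := mul_le_mul_of_nonneg_right (hbig y hy h1) wz
    have h4 := mul_nonneg hc wy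
    linarith

theorem miss_card (H : Subgroup (ZMod p)ˣ) (M L : ℕ) (hM : 0 < M) (h2M : 2 * M < p) (hL : 0 < L) :
    (Set.ncard {x : ZMod p | x ≠ 0 ∧
        ∀ g ∈ H, 2 * M < (((g : (ZMod p)ˣ) : ZMod p) * x).val} : ℝ) ≤
      p * (4 * (L : ℝ) ^ 2 / Nat.card H + (p : ℝ) ^ 3 / (2 * (M : ℝ) ^ 3 * (L : ℝ) ^ 2)) := by
  classical
  have hfin : Fintype H := Fintype.ofFinite H
  have hMp : M < p := by omega
  set h : ℕ := Nat.card H with hh
  have hhc : Fintype.card H = h := by rw [hh, Nat.card_eq_fintype_card]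
  have hh0 : (0 : ℝ) < (h : ℝ) := by
    have : 0 < Nat.card H := Nat.card_pos
    exact_mod_cast this
  have hM0 : (0 : ℝ) < (M : ℝ) := by exact_mod_cast hM
  have hL0 : (0 : ℝ) < (L : ℝ) := by exact_mod_cast hL
  have hp0 : (0 : ℝ) < (p : ℝ) := by exact_mod_cast hp.out.pos
  set S : ZMod p → ℂ := hat (In p M) with hS
  set u : H → ZMod p := fun g => (((g⁻¹ : H) : (ZMod p)ˣ) : ZMod p) with hu
  set v : H → ZMod p := fun g => ((g : (ZMod p)ˣ) : ZMod p) with hv
  have huv : ∀ g, u g * v g = 1 := by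
    intro g
    rw [hu, hv]
    dsimp only
    rw [← Units.val_mul, ← Subgroup.coe_mul, inv_mul_cancel, Subgroup.coe_one, Units.val_one]
  have hu0 : ∀ g, u g ≠ 0 := fun g => left_ne_zero_of_mul_eq_one (huv g)
  have huinj : Function.Injective u := by
    intro g g' hgg
    have h1 : (g⁻¹ : H) = g'⁻¹ := Subtype.ext (Units.ext hgg)
    exact inv_injective h1
  -- reindexing by multiplication with `u g`
  have hre : ∀ (g : H) (f : ZMod p → ℂ), ∑ a : ZMod p, f a = ∑ b : ZMod p, f (u g * b) := by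
    intro g f
    exact (Equiv.sum_comp (Equiv.mulLeft₀ (u g) (hu0 g)) f).symm
  have hreR : ∀ (g : H) (f : ZMod p → ℝ), ∑ a : ZMod p, f a = ∑ b : ZMod p, f (u g * b) := by
    intro g f
    exact (Equiv.sum_comp (Equiv.mulLeft₀ (u g) (hu0 g)) f).symm
  set K' : ZMod p → ℂ := fun b => ∑ g : H, ((starRingEnd ℂ) (S (u g * b))) ^ 2 with hK'
  set K : ZMod p → ℂ := fun b => if b = 0 then 0 else K' b with hK
  have hS0 : S 0 = (M : ℂ) := by
    rw [hS]
    unfold hat
    simp [In_card hMp]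
  have hK0 : K' 0 = (h : ℂ) * (M : ℂ) ^ 2 := by
    rw [hK']
    simp only [mul_zero, hS0, Complex.conj_natCast, Finset.sum_const, Finset.card_univ, hhc,
      nsmul_eq_mul]
  set X : Finset (ZMod p) := univ.filter fun x : ZMod p => x ≠ 0 ∧
    ∀ g ∈ H, 2 * M < (((g : (ZMod p)ˣ) : ZMod p) * x).val with hX
  have hXc : Set.ncard {x : ZMod p | x ≠ 0 ∧
      ∀ g ∈ H, 2 * M < (((g : (ZMod p)ˣ) : ZMod p) * x).val} = X.card := by
    rw [← Set.ncard_coe_finset]
    congr 1
    ext x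
    rw [hX, Finset.mem_coe, Finset.mem_filter]
    exact ⟨fun hx => ⟨Finset.mem_univ _, hx⟩, fun hx => hx.2⟩
  -- the main identity
  have hmain : ∀ x ∈ X, ∑ b : ZMod p, K b * (ZMod.stdAddChar (b * x) : ℂ) =
      -((h : ℂ) * (M : ℂ) ^ 2) := by
    intro x hx
    have hx' := (Finset.mem_filter.1 hx).2
    have e1 : ∑ b : ZMod p, K' b * (ZMod.stdAddChar (b * x) : ℂ) = 0 := by
      have e2 : ∑ b : ZMod p, K' b * (ZMod.stdAddChar (b * x) : ℂ) =
          ∑ g : H, ∑ a : ZMod p, ((starRingEnd ℂ) (S a)) ^ 2 *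
            (ZMod.stdAddChar (a * (v g * x)) : ℂ) := by
        rw [hK']
        simp only [Finset.sum_mul]
        rw [Finset.sum_comm]
        refine Finset.sum_congr rfl fun g _ => ?_
        rw [hre g fun a => ((starRingEnd ℂ) (S a)) ^ 2 * (ZMod.stdAddChar (a * (v g * x)) : ℂ)]
        refine Finset.sum_congr rfl fun b _ => ?_
        have e3 : u g * b * (v g * x) = b * x := by
          have := huv g
          calc u g * b * (v g * x) = (u g * v g) * (b * x) := by ring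
            _ = b * x := by rw [this, one_mul]
        rw [e3]
      rw [e2]
      refine Finset.sum_eq_zero fun g _ => ?_
      have e4 : ∀ a : ZMod p, ((starRingEnd ℂ) (S a)) ^ 2 * (ZMod.stdAddChar (a * (v g * x)) : ℂ) =
          ∑ i ∈ In p M, ∑ j ∈ In p M, (ZMod.stdAddChar (a * (v g * x - i - j)) : ℂ) := by
        intro a
        rw [hS]
        unfold hat
        rw [pow_two, map_sum, Finset.sum_mul_sum, Finset.sum_mul]
        refine Finset.sum_congr rfl fun i _ => ?_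
        rw [Finset.sum_mul]
        refine Finset.sum_congr rfl fun j _ => ?_
        have e5 : a * (v g * x - i - j) = -(a * i) + -(a * j) + a * (v g * x) := by ring
        rw [e5, AddChar.map_add_eq_mul, AddChar.map_add_eq_mul, AddChar.map_neg_eq_conj,
          AddChar.map_neg_eq_conj]
      simp only [e4]
      rw [Finset.sum_comm]
      refine Finset.sum_eq_zero fun i hi => ?_
      rw [Finset.sum_comm]
      refine Finset.sum_eq_zero fun j hj => ?_
      rw [orth, if_neg]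
      intro h0
      obtain ⟨i', hi', rfl⟩ := Finset.mem_image.1 hi
      obtain ⟨j', hj', rfl⟩ := Finset.mem_image.1 hj
      have hi2 := (Finset.mem_Icc.1 hi').2
      have hj2 := (Finset.mem_Icc.1 hj').2
      have e6 : v g * x = ((i' + j' : ℕ) : ZMod p) := by
        push_cast
        linear_combination h0
      have e7 := hx'.2 g.1 g.2
      have e8 : (((g : (ZMod p)ˣ) : ZMod p) * x).val = i' + j' := by
        have e9 : ((g : (ZMod p)ˣ) : ZMod p) * x = ((i' + j' : ℕ) : ZMod p) := e6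
        rw [e9, ZMod.val_natCast_of_lt (by omega)]
      rw [e8] at e7
      omega
    have e10 : ∑ b : ZMod p, K' b * (ZMod.stdAddChar (b * x) : ℂ) =
        (h : ℂ) * (M : ℂ) ^ 2 + ∑ b : ZMod p, K b * (ZMod.stdAddChar (b * x) : ℂ) := by
      have e13 := Finset.add_sum_erase Finset.univ
        (fun b : ZMod p => K' b * (ZMod.stdAddChar (b * x) : ℂ)) (Finset.mem_univ 0)
      have e14 := Finset.add_sum_erase Finset.univ
        (fun b : ZMod p => K b * (ZMod.stdAddChar (b * x) : ℂ)) (Finset.mem_univ 0)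
      have e11 : K 0 = 0 := by rw [hK]; simp
      rw [← e13, ← e14, hK0, zero_mul, AddChar.map_zero_eq_one, mul_one, e11, zero_mul, zero_add]
      congr 1
      refine Finset.sum_congr rfl fun b hb => ?_
      have e12 : K b = K' b := by
        rw [hK]
        exact if_neg (Finset.ne_of_mem_erase hb)
      rw [e12]
    rw [e1] at e10
    linear_combination -e10
  -- the bound for the coefficients
  set w : ZMod p → ℝ := fun a => ‖S a‖ ^ 2 with hw
  set V : ZMod p → ℝ := fun b => ∑ g : H, w (u g * b) with hV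
  have hw0 : ∀ a, 0 ≤ w a := fun a => by
    rw [hw]
    positivity
  have hV0 : ∀ b, 0 ≤ V b := fun b => Finset.sum_nonneg fun g _ => hw0 _
  have hKV : ∀ b, ‖K' b‖ ≤ V b := by
    intro b
    refine (norm_sum_le _ _).trans (le_of_eq ?_)
    refine Finset.sum_congr rfl fun g _ => ?_
    rw [norm_pow, RCLike.norm_conj]
  have hwsum : ∑ a : ZMod p, w a = (p : ℝ) * M := by
    have := parseval (p := p) (In p M)
    rw [In_card hMp] at this
    exact this
  have hVsum : ∑ b : ZMod p, V b = (h : ℝ) * (p * M) := by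
    rw [hV, Finset.sum_comm]
    have : ∀ g : H, ∑ b : ZMod p, w (u g * b) = (p : ℝ) * M := fun g => by
      rw [← hreR g w, hwsum]
    rw [Finset.sum_congr rfl (fun g _ => this g), Finset.sum_const, Finset.card_univ, hhc,
      nsmul_eq_mul]
  set χ : ZMod p → ℝ := fun y => if y ∈ Sm p L then 1 else 0 with hχ
  have hχ0 : ∀ y, 0 ≤ χ y := fun y => by
    rw [hχ]
    dsimp only
    split_ifs <;> norm_num
  set nn : ZMod p → ℝ := fun b => ∑ g : H, χ (u g * b) with hnn
  have hnn0 : ∀ b, 0 ≤ nn b := fun b => Finset.sum_nonneg fun g _ => hχ0 _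
  have hSmc : ((Sm p L).card : ℝ) ≤ 2 * L := by exact_mod_cast Sm_card (p := p) L
  have hχsum : ∑ y : ZMod p, χ y = ((Sm p L).card : ℝ) := by
    rw [hχ]
    simp
  have hnnle : ∀ b, nn b ≤ 2 * L := by
    intro b
    refine le_trans ?_ hSmc
    by_cases hb : b = 0
    · have h1 : nn b = 0 := by
        rw [hnn]
        refine Finset.sum_eq_zero fun g _ => ?_
        rw [hb, mul_zero, hχ]
        exact if_neg fun h0 => (Finset.mem_filter.1 h0).2.1 rfl
      rw [h1]
      exact Nat.cast_nonneg _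
    · rw [← hχsum]
      have hinj : Set.InjOn (fun g : H => u g * b) (Finset.univ : Finset H) := by
        intro g _ g' _ hgg
        exact huinj (mul_right_cancel₀ hb hgg)
      rw [hnn]
      dsimp only
      rw [← Finset.sum_image (f := χ) (g := fun g : H => u g * b) (s := Finset.univ)
        (fun x hx y hy h0 => hinj hx hy h0)]
      exact Finset.sum_le_sum_of_subset_of_nonneg (Finset.subset_univ _) (fun y _ _ => hχ0 y)
  have hnnsum : ∑ b : ZMod p, nn b ≤ (h : ℝ) * (2 * L) := by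
    rw [hnn, Finset.sum_comm]
    have : ∀ g : H, ∑ b : ZMod p, χ (u g * b) = ((Sm p L).card : ℝ) := fun g => by
      rw [← hreR g χ, hχsum]
    rw [Finset.sum_congr rfl (fun g _ => this g), Finset.sum_const, Finset.card_univ, hhc,
      nsmul_eq_mul]
    exact mul_le_mul_of_nonneg_left hSmc hh0.le
  have hnnsq : ∑ b : ZMod p, nn b ^ 2 ≤ (h : ℝ) * (2 * L) * (2 * L) := by
    calc ∑ b : ZMod p, nn b ^ 2 ≤ ∑ b : ZMod p, nn b * (2 * L) := by
          refine Finset.sum_le_sum fun b _ => ?_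
          rw [pow_two]
          exact mul_le_mul_of_nonneg_left (hnnle b) (hnn0 b)
      _ = (∑ b : ZMod p, nn b) * (2 * L) := by rw [Finset.sum_mul]
      _ ≤ _ := mul_le_mul_of_nonneg_right hnnsum (by positivity)
  set c : ℝ := ((p : ℝ) / (2 * L)) ^ 2 with hc
  have hVsq : ∀ b : ZMod p, b ≠ 0 → V b ^ 2 ≤ (M : ℝ) ^ 4 * nn b ^ 2 + 2 * h * c * V b := by
    intro b hb
    have h1 : V b ^ 2 = ∑ g : H, ∑ g' : H, w (u g * b) * w (u g' * b) := by
      rw [pow_two, hV, Finset.sum_mul_sum]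
    have h2 : (M : ℝ) ^ 4 * nn b ^ 2 + 2 * h * c * V b =
        ∑ g : H, ∑ g' : H, ((M : ℝ) ^ 4 * (χ (u g * b) * χ (u g' * b)) +
          c * (w (u g * b) + w (u g' * b))) := by
      simp only [Finset.sum_add_distrib, ← Finset.mul_sum, mul_add, Finset.sum_const,
        Finset.card_univ, hhc, nsmul_eq_mul]
      rw [pow_two, hnn, ← Finset.sum_mul, hV]
      ring
    rw [h1, h2]
    exact Finset.sum_le_sum fun g _ => Finset.sum_le_sum fun g' _ =>
      w_pair hMp hL (mul_ne_zero (hu0 g) hb) (mul_ne_zero (hu0 g') hb)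
  have hKsum : ∑ b : ZMod p, ‖K b‖ ^ 2 ≤
      (M : ℝ) ^ 4 * ((h : ℝ) * (2 * L) * (2 * L)) + 2 * h * c * ((h : ℝ) * (p * M)) := by
    have hc0 : 0 ≤ c := by
      rw [hc]
      positivity
    calc ∑ b : ZMod p, ‖K b‖ ^ 2 ≤ ∑ b : ZMod p, ((M : ℝ) ^ 4 * nn b ^ 2 + 2 * h * c * V b) := by
          refine Finset.sum_le_sum fun b _ => ?_
          by_cases hb : b = 0
          · have h1 : K b = 0 := by
              rw [hK]
              exact if_pos hb
            have h2 := hV0 b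
            rw [h1, norm_zero, zero_pow two_ne_zero]
            positivity
          · have h1 : K b = K' b := by
              rw [hK]
              exact if_neg hb
            rw [h1]
            exact (pow_le_pow_left₀ (norm_nonneg _) (hKV b) 2).trans (hVsq b hb)
      _ = (M : ℝ) ^ 4 * ∑ b : ZMod p, nn b ^ 2 + 2 * h * c * ∑ b : ZMod p, V b := by
          rw [Finset.sum_add_distrib, ← Finset.mul_sum, ← Finset.mul_sum]
      _ ≤ _ := by
          rw [hVsum]
          have := mul_le_mul_of_nonneg_left hnnsq (by positivity : (0 : ℝ) ≤ (M : ℝ) ^ 4)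
          linarith
  -- conclusion
  have hfinal : (X.card : ℝ) * ((h : ℝ) * (M : ℝ) ^ 2) ^ 2 ≤
      (p : ℝ) * ((M : ℝ) ^ 4 * ((h : ℝ) * (2 * L) * (2 * L)) + 2 * h * c * ((h : ℝ) * (p * M))) := by
    calc (X.card : ℝ) * ((h : ℝ) * (M : ℝ) ^ 2) ^ 2 =
          ∑ x ∈ X, ‖∑ b : ZMod p, K b * (ZMod.stdAddChar (b * x) : ℂ)‖ ^ 2 := by
          rw [← nsmul_eq_mul, ← Finset.sum_const]
          refine Finset.sum_congr rfl fun x hx => ?_
          rw [hmain x hx, norm_neg, norm_mul, norm_pow, Complex.norm_natCast, Complex.norm_natCast]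
      _ ≤ ∑ x : ZMod p, ‖∑ b : ZMod p, K b * (ZMod.stdAddChar (b * x) : ℂ)‖ ^ 2 :=
          Finset.sum_le_sum_of_subset_of_nonneg (Finset.subset_univ _) fun _ _ _ => by positivity
      _ = (p : ℝ) * ∑ b : ZMod p, ‖K b‖ ^ 2 := Miss_parseval K
      _ ≤ _ := mul_le_mul_of_nonneg_left hKsum hp0.le
  rw [hXc]
  have hden : (0 : ℝ) < ((h : ℝ) * (M : ℝ) ^ 2) ^ 2 := by positivity
  refine le_of_mul_le_mul_right (hfinal.trans (le_of_eq ?_)) hden
  rw [hc]
  field_simp
  ring

end Pool.Agent.Helper26.PE
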