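import Pool.Agent.Helper26.PE.Defs

/-!
# PE-Scale: the set where `la` and `χ` differ is sparse at all scales

PROOF.  All `n ≤ N` (in fact all `n < p` with prime factors `≤ N`) have `la n * χ n = 1`.  Claim by induction on `j`: if
`p ≤ N ^ (j + 1) * t` then `#(E ∩ [1, t]) ≤ D ^ j N κ t`.  `j = 0`: `#E ≤ κ p ≤ κ N t`.  Step: if `p ≤ N t` as before;
otherwise `(n, d) ↦ n d` maps `[1, N] × (E ∩ [1, t])` to `E ∩ [1, N t]` with fibres of size at most `D`
(`n ∈ divisors (n d)`), so `N #(E ∩ [1, t]) ≤ D #(E ∩ [1, N t]) ≤ D D ^ j N κ N t`.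
-/

set_option autoImplicit false

namespace Pool.Agent.Helper26.PE

open Finset

variable {p : ℕ} [hp : Fact p.Prime]

private theorem scale_good {χ : DirichletCharacter ℂ p} {N : ℕ}
    (hgood : ∀ q : ℕ, q.Prime → q ≤ N → χ (q : ZMod p) = -1) (n : ℕ) :
    0 < n → n ≤ N → (la n : ℂ) * χ (n : ZMod p) = 1 := by
  induction n using Nat.strong_induction_on with
  | _ n ih =>
    intro h0 hN
    by_cases h1 : n = 1
    · subst h1
      rw [la_one]
      simp
    · have hq := Nat.minFac_prime h1
      obtain ⟨m, hm⟩ := Nat.minFac_dvd n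
      have hm0 : 0 < m := by
        rcases Nat.eq_zero_or_pos m with h | h
        · rw [h, mul_zero] at hm
          omega
        · exact h
      have hqn : n.minFac ≤ n := Nat.minFac_le h0
      have hlt : m < n := by
        have h2 := hq.two_le
        calc m < 2 * m := by omega
          _ ≤ n.minFac * m := Nat.mul_le_mul_right _ h2
          _ = n := hm.symm
      have h3 := ih m hlt hm0 (by omega)
      have h4 := hgood n.minFac hq (hqn.trans hN)
      have h5 : la n = - la m := by
        conv_lhs => rw [hm]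
        rw [la_mul hq.ne_zero hm0.ne', la_prime hq]
        ring
      have h6 : χ (n : ZMod p) = - χ (m : ZMod p) := by
        conv_lhs => rw [hm]
        rw [Nat.cast_mul, map_mul, h4]
        ring
      rw [h5, h6]
      push_cast
      linear_combination h3

theorem scale {χ : DirichletCharacter ℂ p} {s : ℝ} {E : Finset ℕ}
    (hE : ∀ n : ℕ, n ∈ E ↔ 0 < n ∧ n < p ∧ (la n : ℂ) * χ (n : ZMod p) ≠ s) {N D J : ℕ} {κ : ℝ}
    (hN : 2 ≤ N) (hNp : N < p) (hgood : ∀ q : ℕ, q.Prime → q ≤ N → χ (q : ZMod p) = -1)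
    (hD1 : 1 ≤ D) (hD : ∀ n : ℕ, 0 < n → n < p → #n.divisors ≤ D) (hκ0 : 0 ≤ κ)
    (hκ : (#E : ℝ) ≤ κ * p) (hJ : p ≤ N ^ (J + 1)) (t : ℕ) (ht : 1 ≤ t) (htp : t < p) :
    (#(E.filter fun n => n ≤ t) : ℝ) ≤ (D : ℝ) ^ J * N * κ * t := by
  have hD1' : (1 : ℝ) ≤ D := by exact_mod_cast hD1
  have hN0 : (0 : ℝ) < N := by exact_mod_cast (by omega : 0 < N)
  -- the first case
  have base : ∀ (j t : ℕ), p ≤ N * t →
      (#(E.filter fun n => n ≤ t) : ℝ) ≤ (D : ℝ) ^ j * N * κ * t := by
    intro j t h
    have h1 : (#(E.filter fun n => n ≤ t) : ℝ) ≤ #E := by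
      exact_mod_cast card_le_card (filter_subset _ _)
    have h2 : (p : ℝ) ≤ N * t := by exact_mod_cast h
    have h3 : (1 : ℝ) ≤ (D : ℝ) ^ j := one_le_pow₀ hD1'
    have h4 : (0 : ℝ) ≤ N * κ * t := by positivity
    calc (#(E.filter fun n => n ≤ t) : ℝ) ≤ κ * p := h1.trans hκ
      _ ≤ κ * (N * t) := mul_le_mul_of_nonneg_left h2 hκ0
      _ = 1 * (N * κ * t) := by ring
      _ ≤ (D : ℝ) ^ j * (N * κ * t) := mul_le_mul_of_nonneg_right h3 h4
      _ = (D : ℝ) ^ j * N * κ * t := by ring
  have main : ∀ (j t : ℕ), 1 ≤ t → t < p → p ≤ N ^ (j + 1) * t →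
      (#(E.filter fun n => n ≤ t) : ℝ) ≤ (D : ℝ) ^ j * N * κ * t := by
    intro j
    induction j with
    | zero =>
      intro t _ _ h
      refine base 0 t ?_
      simpa using h
    | succ j ih =>
      intro t ht1 htp' h
      by_cases hc : p ≤ N * t
      · exact base (j + 1) t hc
      · have hc' : N * t < p := not_le.1 hc
        have h1 := ih (N * t) (Nat.mul_pos (by omega) (by omega)) hc' (by
          calc p ≤ N ^ (j + 1 + 1) * t := h
            _ = N ^ (j + 1) * (N * t) := by ring)
        have h2 : #(Icc 1 N ×ˢ E.filter fun n => n ≤ t) ≤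
            D * #(E.filter fun n => n ≤ N * t) := by
          refine card_le_mul_card_image_of_maps_to (f := fun a : ℕ × ℕ => a.1 * a.2) ?_ D ?_
          · rintro ⟨n, d⟩ hnd
            rw [mem_product, mem_Icc, mem_filter] at hnd
            obtain ⟨⟨hn1, hnN⟩, hdE, hdt⟩ := hnd
            simp only at hn1 hnN hdE hdt
            obtain ⟨hd0, hdp, hd⟩ := (hE d).1 hdE
            rw [mem_filter]
            have hle : n * d ≤ N * t := Nat.mul_le_mul hnN hdt
            refine ⟨(hE _).2 ⟨Nat.mul_pos (by omega) hd0, hle.trans_lt hc', ?_⟩, hle⟩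
            have h3 := scale_good hgood n (by omega) hnN
            have h4 : ((la (n * d) : ℝ) : ℂ) * χ ((n * d : ℕ) : ZMod p) =
                (la d : ℂ) * χ (d : ZMod p) := by
              rw [la_mul (by omega) hd0.ne', Nat.cast_mul, map_mul]
              push_cast
              linear_combination ((la d : ℂ) * χ (d : ZMod p)) * h3
            rw [h4]
            exact hd
          · intro b hb
            have hbE : b ∈ E := (mem_filter.1 hb).1
            obtain ⟨hb0, hbp, -⟩ := (hE b).1 hbE
            refine le_trans ?_ (hD b hb0 hbp)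
            refine card_le_card_of_injOn (fun a => a.1) ?_ ?_
            · rintro ⟨n, d⟩ hnd
              rw [mem_coe, mem_filter] at hnd
              rw [mem_coe, Nat.mem_divisors]
              exact ⟨⟨d, hnd.2.symm⟩, hb0.ne'⟩
            · rintro ⟨n, d⟩ hnd ⟨n', d'⟩ hnd' hnn
              rw [mem_coe, mem_filter, mem_product, mem_Icc] at hnd hnd'
              obtain ⟨⟨⟨hn1, -⟩, -⟩, e1⟩ := hnd
              obtain ⟨-, e2⟩ := hnd'
              simp only at hnn hn1 e1 e2
              subst hnn
              have h3 : n * d = n * d' := e1.trans e2.symm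
              have h4 : d = d' := Nat.eq_of_mul_eq_mul_left (by omega) h3
              rw [h4]
        rw [card_product, Nat.card_Icc, Nat.add_sub_cancel] at h2
        have h3 : (N : ℝ) * #(E.filter fun n => n ≤ t) ≤
            D * #(E.filter fun n => n ≤ N * t) := by exact_mod_cast h2
        have h4 : (D : ℝ) * #(E.filter fun n => n ≤ N * t) ≤
            D * ((D : ℝ) ^ j * N * κ * ((N * t : ℕ) : ℝ)) :=
          mul_le_mul_of_nonneg_left h1 (by linarith)
        have h5 : (N : ℝ) * #(E.filter fun n => n ≤ t) ≤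
            N * ((D : ℝ) ^ (j + 1) * N * κ * t) := by
          refine h3.trans (h4.trans (le_of_eq ?_))
          push_cast
          ring
        exact le_of_mul_le_mul_left h5 hN0
  exact main J t ht htp (hJ.trans (Nat.le_mul_of_pos_right _ (by omega)))

end Pool.Agent.Helper26.PE
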