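import Pool.Agent.Helper26.PE.Mass

/-!
# PE-Uniq: `F` is close to a quadratic character

PROOF.  `W χ = ∑ q ≤ Y, |χ q + 1| ^ 2 / q`.  `mass_prime`: `∑ χ, |cf χ| ^ 2 W χ = ∑ q, 4 #Bd / ((p - 1) q) ≤ 8 Δ`, so the
mass of `{W > θ}` is `≤ 8 Δ / θ < 1` and some `χ` has `W χ ≤ θ`.  Such a `χ` has `χ ^ 2 = 1` and `χ ≠ 1` (else
`W χ ≥ 4 / 2 > θ`); there is only one (the group of characters is cyclic, or: `(ZMod p)ˣ` is cyclic, `χ` is `-1` at a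
generator).  So `|cf χ| ^ 2 ≥ 1 - 8 Δ / θ`, `|cf χ| ≥ 1 - 8 Δ / θ` (`|cf χ| ≤ 1`); `(p - 1) cf χ = ∑ F χ` is real,
`= s (#{F χ = s} - #{F χ = - s})` with `s = ± 1` its sign, so `#{F χ ≠ s} = (p - 1) (1 - |cf χ|) / 2 ≤ 4 Δ / θ p`.
-/

set_option autoImplicit false

namespace Pool.Agent.Helper26.PE

open Finset

variable {p : ℕ} [hp : Fact p.Prime]

private theorem uniq (χ ψ : DirichletCharacter ℂ p) (h1 : χ ^ 2 = 1) (h2 : ψ ^ 2 = 1)
    (h3 : χ ≠ 1) (h4 : ψ ≠ 1) : χ = ψ := by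
  obtain ⟨g, hg⟩ := IsCyclic.exists_generator (α := (ZMod p)ˣ)
  have key : ∀ φ : DirichletCharacter ℂ p, φ ^ 2 = 1 → φ ≠ 1 → φ (g : ZMod p) = -1 := by
    intro φ hφ hφ1
    have e1 : φ (g : ZMod p) ^ 2 = 1 := by
      have e2 := DFunLike.congr_fun hφ (g : ZMod p)
      rw [MulChar.pow_apply_coe, MulChar.one_apply_coe] at e2
      exact e2
    have e3 : (φ (g : ZMod p) - 1) * (φ (g : ZMod p) + 1) = 0 := by linear_combination e1
    rcases mul_eq_zero.1 e3 with h | h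
    · exfalso
      apply hφ1
      rw [MulChar.eq_iff hg, MulChar.one_apply_coe]
      exact sub_eq_zero.1 h
    · exact eq_neg_of_add_eq_zero_left h
  rw [MulChar.eq_iff hg, key χ h1 h3, key ψ h2 h4]

theorem legendre_close {Y : ℕ} {θ Δ : ℝ} (hY : 2 ≤ Y) (hYp : Y < p) (hθ : 0 < θ) (hθ2 : θ < 2)
    (hΔ : ∑ q ∈ (Icc 1 Y).filter Nat.Prime, dl p q / q ≤ Δ) (h8 : 8 * Δ < θ)
    (hreal : ∀ χ : DirichletCharacter ℂ p,
      ∑ q ∈ (Icc 1 Y).filter Nat.Prime, ‖χ (q : ZMod p) + 1‖ ^ 2 / q ≤ θ → χ ^ 2 = 1) :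
    ∃ (χ : DirichletCharacter ℂ p) (s : ℝ), χ ^ 2 = 1 ∧ χ ≠ 1 ∧
      ∑ q ∈ (Icc 1 Y).filter Nat.Prime, ‖χ (q : ZMod p) + 1‖ ^ 2 / q ≤ θ ∧ (s = 1 ∨ s = -1) ∧
      (Set.ncard {x : ZMod p | x ≠ 0 ∧ (F x : ℂ) * χ x ≠ s} : ℝ) ≤ 4 * Δ / θ * p := by
  classical
  have hp1 : (1 : ℝ) < p := by exact_mod_cast hp.out.one_lt
  have hp2 : (2 : ℝ) ≤ p := by exact_mod_cast hp.out.two_le
  set Pr := (Icc 1 Y).filter Nat.Prime with hPr
  obtain ⟨W, hW⟩ : ∃ W : DirichletCharacter ℂ p → ℝ,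
      ∀ χ, W χ = ∑ q ∈ Pr, ‖χ (q : ZMod p) + 1‖ ^ 2 / q := ⟨_, fun χ => rfl⟩
  have hW0 : ∀ χ, 0 ≤ W χ := by
    intro χ
    rw [hW]
    exact sum_nonneg fun q _ => by positivity
  have hq0 : ∀ q ∈ Pr, (q : ZMod p) ≠ 0 := by
    intro q hq h
    have h1 := (ZMod.natCast_eq_zero_iff q p).1 h
    rw [hPr, mem_filter, mem_Icc] at hq
    have h2 := Nat.le_of_dvd hq.2.pos h1
    omega
  have hS0 : 0 ≤ ∑ q ∈ Pr, dl p q / q := by
    refine sum_nonneg fun q _ => ?_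
    rw [dl]
    positivity
  have hsum : ∑ χ : DirichletCharacter ℂ p, ‖cf χ‖ ^ 2 * W χ ≤ 8 * Δ := by
    have e1 : ∑ χ : DirichletCharacter ℂ p, ‖cf χ‖ ^ 2 * W χ =
        ∑ q ∈ Pr, (∑ χ : DirichletCharacter ℂ p, ‖cf χ‖ ^ 2 * ‖χ (q : ZMod p) + 1‖ ^ 2) / q := by
      simp only [hW, mul_sum]
      rw [sum_comm]
      refine sum_congr rfl fun q _ => ?_
      rw [sum_div]
      exact sum_congr rfl fun χ _ => (mul_div_assoc _ _ _).symm
    have e2 : ∑ q ∈ Pr, (∑ χ : DirichletCharacter ℂ p,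
        ‖cf χ‖ ^ 2 * ‖χ (q : ZMod p) + 1‖ ^ 2) / q =
        4 * ((p : ℝ) / (p - 1)) * ∑ q ∈ Pr, dl p q / q := by
      rw [mul_sum]
      refine sum_congr rfl fun q hq => ?_
      rw [mass_prime (hq0 q hq), dl]
      have h1 : (p : ℝ) ≠ 0 := by positivity
      have h2 : (p : ℝ) - 1 ≠ 0 := by linarith
      have h3 : (q : ℝ) ≠ 0 := by
        rw [hPr, mem_filter] at hq
        exact_mod_cast hq.2.ne_zero
      field_simp
    have e3 : (p : ℝ) / (p - 1) ≤ 2 := by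
      rw [div_le_iff₀ (by linarith)]
      linarith
    rw [e1, e2]
    have e4 : 4 * ((p : ℝ) / (p - 1)) * ∑ q ∈ Pr, dl p q / q ≤ 8 * ∑ q ∈ Pr, dl p q / q :=
      mul_le_mul_of_nonneg_right (by linarith) hS0
    linarith
  have hΔ0 : 0 ≤ Δ := hS0.trans hΔ
  -- the mass of the large `W`
  have hbad : (∑ χ ∈ univ.filter (fun χ : DirichletCharacter ℂ p => θ < W χ), ‖cf χ‖ ^ 2) * θ ≤
      8 * Δ := by
    rw [sum_mul]
    refine le_trans (sum_le_sum fun χ hχ =>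
      mul_le_mul_of_nonneg_left (mem_filter.1 hχ).2.le (sq_nonneg ‖cf χ‖)) (le_trans ?_ hsum)
    exact sum_le_sum_of_subset_of_nonneg (filter_subset _ _) fun χ _ _ =>
      mul_nonneg (sq_nonneg _) (hW0 χ)
  have hbad2 : (∑ χ ∈ univ.filter (fun χ : DirichletCharacter ℂ p => θ < W χ), ‖cf χ‖ ^ 2) ≤
      8 * Δ / θ := by
    rw [le_div_iff₀ hθ]
    exact hbad
  have hη : 8 * Δ / θ < 1 := by
    rw [div_lt_one hθ]
    exact h8
  have htot : (∑ χ ∈ univ.filter (fun χ : DirichletCharacter ℂ p => θ < W χ), ‖cf χ‖ ^ 2) +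
      ∑ χ ∈ univ.filter (fun χ : DirichletCharacter ℂ p => ¬ θ < W χ), ‖cf χ‖ ^ 2 = 1 := by
    rw [sum_filter_add_sum_filter_not, mass_one]
  have hgood : ∀ χ : DirichletCharacter ℂ p, W χ ≤ θ → χ ^ 2 = 1 ∧ χ ≠ 1 := by
    intro χ hχ
    refine ⟨hreal χ (by rw [← hW]; exact hχ), ?_⟩
    rintro rfl
    have h2 : (2 : ℕ) ∈ Pr := by
      rw [hPr, mem_filter, mem_Icc]
      exact ⟨⟨by norm_num, hY⟩, Nat.prime_two⟩
    have h3 : ‖(1 : DirichletCharacter ℂ p) ((2 : ℕ) : ZMod p) + 1‖ ^ 2 / ((2 : ℕ) : ℝ) ≤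
        W 1 := by
      rw [hW]
      exact single_le_sum
        (f := fun q : ℕ => ‖(1 : DirichletCharacter ℂ p) (q : ZMod p) + 1‖ ^ 2 / (q : ℝ))
        (fun q _ => by positivity) h2
    rw [MulChar.one_apply (isUnit_iff_ne_zero.2 (hq0 2 h2))] at h3
    norm_num at h3
    linarith
  obtain ⟨χ, hχ⟩ : (univ.filter (fun χ : DirichletCharacter ℂ p => ¬ θ < W χ)).Nonempty := by
    by_contra hcon
    rw [not_nonempty_iff_eq_empty] at hcon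
    rw [hcon, sum_empty, add_zero] at htot
    linarith
  have hχW : W χ ≤ θ := not_lt.1 (mem_filter.1 hχ).2
  obtain ⟨hχ2, hχ1⟩ := hgood χ hχW
  have hcf : 1 - 8 * Δ / θ ≤ ‖cf χ‖ ^ 2 := by
    have e1 : ∑ χ ∈ univ.filter (fun χ : DirichletCharacter ℂ p => ¬ θ < W χ), ‖cf χ‖ ^ 2 ≤
        ∑ χ ∈ {χ}, ‖cf χ‖ ^ 2 := by
      refine sum_le_sum_of_subset_of_nonneg (fun ψ hψ => ?_) fun _ _ _ => sq_nonneg _
      obtain ⟨h1, h2⟩ := hgood ψ (not_lt.1 (mem_filter.1 hψ).2)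
      rw [mem_singleton]
      exact uniq ψ χ h1 hχ2 h2 hχ1
    rw [sum_singleton] at e1
    linarith
  have hcf1 : ‖cf χ‖ ≤ 1 := by
    have e1 : ‖cf χ‖ ^ 2 ≤ 1 := by
      rw [← mass_one (p := p)]
      exact single_le_sum (f := fun χ : DirichletCharacter ℂ p => ‖cf χ‖ ^ 2)
        (fun χ _ => sq_nonneg _) (mem_univ χ)
    nlinarith [norm_nonneg (cf χ)]
  have hcf2 : 1 - 8 * Δ / θ ≤ ‖cf χ‖ := by nlinarith [norm_nonneg (cf χ)]
  -- the values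
  have hval : ∀ x : ZMod p, x ≠ 0 → χ x = 1 ∨ χ x = -1 := by
    intro x hx
    have e1 : χ x ^ 2 = 1 := by
      have hu : IsUnit x := isUnit_iff_ne_zero.2 hx
      have e2 := DFunLike.congr_fun hχ2 ((hu.unit : (ZMod p)ˣ) : ZMod p)
      rw [MulChar.pow_apply_coe, MulChar.one_apply_coe, IsUnit.unit_spec] at e2
      exact e2
    have e3 : (χ x - 1) * (χ x + 1) = 0 := by linear_combination e1
    rcases mul_eq_zero.1 e3 with h | h
    · exact Or.inl (sub_eq_zero.1 h)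
    · exact Or.inr (eq_neg_of_add_eq_zero_left h)
  obtain ⟨v, hv⟩ : ∃ v : ZMod p → ℝ, ∀ x, v x = F x * (χ x).re := ⟨_, fun x => rfl⟩
  have hv1 : ∀ x : ZMod p, x ≠ 0 → v x = 1 ∨ v x = -1 := by
    intro x hx
    rw [hv]
    rcases hval x hx with h | h <;> rcases F_eq x with h' | h' <;> rw [h, h'] <;> simp
  have hv2 : ∀ x : ZMod p, x ≠ 0 → (F x : ℂ) * χ x = (v x : ℂ) := by
    intro x hx
    rw [hv]
    rcases hval x hx with h | h <;> rw [h] <;> simp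
  have hR : ((p : ℂ) - 1) * cf χ = ((∑ x ∈ univ.erase (0 : ZMod p), v x : ℝ) : ℂ) := by
    have h1 : ((p : ℂ) - 1) ≠ 0 := by
      have h2 : ((p : ℂ) - 1) = (((p : ℝ) - 1 : ℝ) : ℂ) := by push_cast; rfl
      rw [h2]
      exact_mod_cast (by linarith : (p : ℝ) - 1 ≠ 0)
    rw [cf, mul_div_cancel₀ _ h1, Complex.ofReal_sum, ← sum_erase (s := univ) (a := (0 : ZMod p))]
    · refine sum_congr rfl fun x hx => ?_
      have hx0 : x ≠ 0 := ne_of_mem_erase hx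
      rw [← hv2 x hx0]
      rcases hval x hx0 with h | h <;> rw [h] <;> simp
    · rw [MulChar.map_zero, map_zero, mul_zero]
  have hRn : |∑ x ∈ univ.erase (0 : ZMod p), v x| = ((p : ℝ) - 1) * ‖cf χ‖ := by
    have h1 := congrArg norm hR
    rw [norm_mul, Complex.norm_real, Real.norm_eq_abs] at h1
    have h2 : ((p : ℂ) - 1) = (((p : ℝ) - 1 : ℝ) : ℂ) := by push_cast; rfl
    rw [h2, Complex.norm_real, Real.norm_of_nonneg (by linarith)] at h1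
    exact h1.symm
  obtain ⟨s, hs, hsR⟩ : ∃ s : ℝ, (s = 1 ∨ s = -1) ∧
      s * ∑ x ∈ univ.erase (0 : ZMod p), v x = |∑ x ∈ univ.erase (0 : ZMod p), v x| := by
    rcases le_total 0 (∑ x ∈ univ.erase (0 : ZMod p), v x) with h | h
    · exact ⟨1, Or.inl rfl, by rw [abs_of_nonneg h, one_mul]⟩
    · exact ⟨-1, Or.inr rfl, by rw [abs_of_nonpos h]; ring⟩
  refine ⟨χ, s, hχ2, hχ1, by rw [← hW]; exact hχW, hs, ?_⟩
  have hset : {x : ZMod p | x ≠ 0 ∧ (F x : ℂ) * χ x ≠ s} =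
      (((univ.erase (0 : ZMod p)).filter fun x => v x ≠ s : Finset (ZMod p)) : Set (ZMod p)) := by
    ext x
    rw [Set.mem_setOf_eq, Finset.mem_coe, mem_filter, mem_erase]
    constructor
    · rintro ⟨h1, h2⟩
      refine ⟨⟨h1, mem_univ _⟩, fun h3 => h2 ?_⟩
      rw [hv2 x h1, h3]
    · rintro ⟨⟨h1, -⟩, h2⟩
      refine ⟨h1, fun h3 => h2 ?_⟩
      rw [hv2 x h1] at h3
      exact_mod_cast h3
  rw [hset, Set.ncard_coe_finset]
  have hcount : (2 : ℝ) * #((univ.erase (0 : ZMod p)).filter fun x => v x ≠ s) =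
      ((p : ℝ) - 1) - |∑ x ∈ univ.erase (0 : ZMod p), v x| := by
    rw [← hsR, mul_sum]
    have h1 : ((p : ℝ) - 1) = ∑ x ∈ univ.erase (0 : ZMod p), (1 : ℝ) := by
      rw [sum_const, card_erase_of_mem (mem_univ _), card_univ, ZMod.card, nsmul_eq_mul, mul_one,
        Nat.cast_sub hp.out.one_le, Nat.cast_one]
    rw [h1, ← sum_sub_distrib]
    have h2 : ∀ x ∈ univ.erase (0 : ZMod p), (1 : ℝ) - s * v x = if v x ≠ s then 2 else 0 := by
      intro x hx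
      have hx0 : x ≠ 0 := ne_of_mem_erase hx
      rcases hs with h | h <;> rcases hv1 x hx0 with h' | h' <;> rw [h, h'] <;> norm_num
    rw [sum_congr rfl h2, ← sum_filter, sum_const, nsmul_eq_mul, mul_comm]
  rw [hRn] at hcount
  have h9 : (2 : ℝ) * #((univ.erase (0 : ZMod p)).filter fun x => v x ≠ s) ≤
      ((p : ℝ) - 1) * (8 * Δ / θ) := by
    rw [hcount]
    have h10 : ((p : ℝ) - 1) * (1 - 8 * Δ / θ) ≤ ((p : ℝ) - 1) * ‖cf χ‖ :=
      mul_le_mul_of_nonneg_left hcf2 (by linarith)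
    linarith
  have h11 : 0 ≤ Δ / θ := by positivity
  have h12 : 8 * Δ / θ = 8 * (Δ / θ) := mul_div_assoc _ _ _
  have h13 : 4 * Δ / θ = 4 * (Δ / θ) := mul_div_assoc _ _ _
  rw [h12] at h9
  rw [h13]
  nlinarith

end Pool.Agent.Helper26.PE
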