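import Pool.Agent.Helper26.PE.Geo
import Pool.Agent.Helper68.CO2.Four

/-!
# PE-Var: the number of representations `w = n z` is nearly constant in the mean square

PROOF.  `ψ = ZMod.stdAddChar`, `S(a) = ∑ i ∈ Icc 1 M, ψ (a i)`.  For `b ≠ 0`:
`∑ w, TT w ψ (b w) = ∑ t ∈ Tup k P, S (b n) ^ m`, `n = pr t` (prime to `p`, `0 < n ≤ Q ^ k < p`).  Parseval:
`∑ w, (TT w - mean) ^ 2 = (1 / p) ∑ b ≠ 0, |∑ t, S (b n) ^ m| ^ 2`.  `|S (a)| ^ m ≤ M ^ m`, and `≤ (p / (2 L)) ^ m` if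
`‖a‖ > L` (`‖a‖ = |valMinAbs a|`).  So `|∑ t, ..| ≤ M ^ m c(b) + #P ^ k (p / (2 L)) ^ m`, `c(b) = #{t : ‖b n‖ ≤ L}`,
`(x + y) ^ 2 ≤ 2 x ^ 2 + 2 y ^ 2`.  `∑ b ≠ 0, c(b) ^ 2 = #{(b, t, t')}`; with `a = valMinAbs (b n)`, `a' = valMinAbs (b n')`:
`a n' = a' n` modulo `p`, hence as integers (`2 L Q ^ k < p`); `N = |a| n' < p` is divisible by all `t j`; so for given
`(a, t')` (at most `2 L #P ^ k`) there are at most `K0 ^ k` tuples `t`, and `b = a / n`: `∑ c(b) ^ 2 ≤ 2 L #P ^ k K0 ^ k`.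
-/

set_option autoImplicit false

namespace Pool.Agent.Helper26.PE

open Finset

variable {p : ℕ} [hp : Fact p.Prime]

private theorem var_parseval (f : ZMod p → ℝ) :
    ∑ b : ZMod p, ‖∑ w : ZMod p, (f w : ℂ) * (ZMod.stdAddChar (b * w) : ℂ)‖ ^ 2 =
      (p : ℝ) * ∑ w, f w ^ 2 := by
  classical
  have h1 : ∀ b : ZMod p,
      ((‖∑ w : ZMod p, (f w : ℂ) * (ZMod.stdAddChar (b * w) : ℂ)‖ ^ 2 : ℝ) : ℂ) =
      ∑ w : ZMod p, ∑ v : ZMod p,
        (f w : ℂ) * (f v : ℂ) * (ZMod.stdAddChar (b * (w - v)) : ℂ) := by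
    intro b
    rw [Complex.ofReal_pow, ← Complex.conj_mul', mul_comm, map_sum, Finset.sum_mul_sum]
    refine Finset.sum_congr rfl fun w _ => Finset.sum_congr rfl fun v _ => ?_
    rw [map_mul (starRingEnd ℂ), Complex.conj_ofReal, ← AddChar.map_neg_eq_conj]
    have h2 : (ZMod.stdAddChar (b * (w - v)) : ℂ) =
        ZMod.stdAddChar (b * w) * ZMod.stdAddChar (-(b * v)) := by
      rw [← AddChar.map_add_eq_mul]
      congr 1
      ring
    rw [h2]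
    ring
  have h2 : ((∑ b : ZMod p, ‖∑ w : ZMod p, (f w : ℂ) * (ZMod.stdAddChar (b * w) : ℂ)‖ ^ 2 : ℝ) : ℂ) =
      ((p : ℝ) * ∑ w, f w ^ 2 : ℝ) := by
    rw [Complex.ofReal_sum]
    simp only [h1]
    rw [Finset.sum_comm]
    have h3 : ∀ w ∈ (univ : Finset (ZMod p)), ∑ b : ZMod p, ∑ v : ZMod p,
        (f w : ℂ) * (f v : ℂ) * (ZMod.stdAddChar (b * (w - v)) : ℂ) = (p : ℂ) * (f w : ℂ) ^ 2 := by
      intro w _
      rw [Finset.sum_comm]
      have h4 : ∀ v ∈ (univ : Finset (ZMod p)), ∑ b : ZMod p,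
          (f w : ℂ) * (f v : ℂ) * (ZMod.stdAddChar (b * (w - v)) : ℂ) =
          if w = v then (f w : ℂ) * (f v : ℂ) * (p : ℂ) else 0 := by
        intro v _
        rw [← Finset.mul_sum, Helper68.CO2.orth]
        by_cases h : w = v
        · rw [if_pos h, if_pos (sub_eq_zero.2 h)]
        · rw [if_neg h, if_neg (sub_ne_zero.2 h), mul_zero]
      rw [Finset.sum_congr rfl h4, Finset.sum_ite_eq, if_pos (mem_univ _)]
      ring
    rw [Finset.sum_congr rfl h3, ← Finset.mul_sum]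
    push_cast
    ring
  exact_mod_cast h2

private theorem var_char_sum {ι : Type} (s : Finset ι) (f : ι → ZMod p) :
    (ZMod.stdAddChar (∑ i ∈ s, f i) : ℂ) = ∏ i ∈ s, (ZMod.stdAddChar (f i) : ℂ) := by
  classical
  induction s using Finset.induction_on with
  | empty => simp
  | insert a s ha ih => rw [sum_insert ha, prod_insert ha, AddChar.map_add_eq_mul, ih]

private theorem var_inner (m M : ℕ) (a : ZMod p) :
    ∑ z ∈ Tup m (Icc 1 M), (ZMod.stdAddChar (a * ((sm z : ℕ) : ZMod p)) : ℂ) =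
      (∑ i ∈ Icc 1 M, (ZMod.stdAddChar (a * (i : ZMod p)) : ℂ)) ^ m := by
  classical
  have h1 : (∑ i ∈ Icc 1 M, (ZMod.stdAddChar (a * (i : ZMod p)) : ℂ)) ^ m =
      ∏ _j : Fin m, ∑ i ∈ Icc 1 M, (ZMod.stdAddChar (a * (i : ZMod p)) : ℂ) := by
    rw [Finset.prod_const, Finset.card_univ, Fintype.card_fin]
  rw [h1, Finset.prod_univ_sum]
  refine Finset.sum_congr rfl fun z _ => ?_
  rw [sm, Nat.cast_sum, Finset.mul_sum, var_char_sum]

private theorem var_hat (k m M : ℕ) (P : Finset ℕ) (b : ZMod p) :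
    ∑ w : ZMod p, (TT p k m M P w : ℂ) * (ZMod.stdAddChar (b * w) : ℂ) =
      ∑ t ∈ Tup k P,
        (∑ i ∈ Icc 1 M, (ZMod.stdAddChar (b * ((pr t : ℕ) : ZMod p) * (i : ZMod p)) : ℂ)) ^ m := by
  classical
  have h1 : ∀ w : ZMod p, (TT p k m M P w : ℂ) * (ZMod.stdAddChar (b * w) : ℂ) =
      ∑ c ∈ (Tup k P ×ˢ Tup m (Icc 1 M)) with
        ((pr c.1 : ℕ) : ZMod p) * ((sm c.2 : ℕ) : ZMod p) = w,
        (ZMod.stdAddChar (b * (((pr c.1 : ℕ) : ZMod p) * ((sm c.2 : ℕ) : ZMod p))) : ℂ) := by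
    intro w
    have h2 : ∀ c ∈ (Tup k P ×ˢ Tup m (Icc 1 M)).filter (fun c =>
        ((pr c.1 : ℕ) : ZMod p) * ((sm c.2 : ℕ) : ZMod p) = w),
        (ZMod.stdAddChar (b * (((pr c.1 : ℕ) : ZMod p) * ((sm c.2 : ℕ) : ZMod p))) : ℂ) =
          ZMod.stdAddChar (b * w) := by
      intro c hc
      rw [(mem_filter.1 hc).2]
    rw [Finset.sum_congr rfl h2, Finset.sum_const, nsmul_eq_mul]
    unfold TT
    congr 1
  rw [Finset.sum_congr rfl fun w _ => h1 w, Finset.sum_fiberwise, Finset.sum_product]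
  refine Finset.sum_congr rfl fun t _ => ?_
  rw [← var_inner]
  refine Finset.sum_congr rfl fun z _ => ?_
  rw [mul_assoc]

private theorem var_pr_pos {k Q : ℕ} {P : Finset ℕ} (hP : ∀ q ∈ P, q.Prime ∧ q ≤ Q)
    {t : Fin k → ℕ} (ht : t ∈ Tup k P) : 0 < pr t :=
  Finset.prod_pos fun j _ => (hP _ (mem_Tup.1 ht j)).1.pos

private theorem var_pr_le {k Q : ℕ} {P : Finset ℕ} (hP : ∀ q ∈ P, q.Prime ∧ q ≤ Q)
    {t : Fin k → ℕ} (ht : t ∈ Tup k P) : pr t ≤ Q ^ k := by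
  have h := Finset.prod_le_pow_card (univ : Finset (Fin k)) t Q
    (fun j _ => (hP _ (mem_Tup.1 ht j)).2)
  rwa [Finset.card_univ, Fintype.card_fin] at h

private theorem var_pr_ne {k L Q : ℕ} {P : Finset ℕ} (hP : ∀ q ∈ P, q.Prime ∧ q ≤ Q) (hL : 0 < L)
    (hLQ : 2 * L * Q ^ k < p) {t : Fin k → ℕ} (ht : t ∈ Tup k P) :
    ((pr t : ℕ) : ZMod p) ≠ 0 := by
  intro h
  rw [ZMod.natCast_eq_zero_iff] at h
  have h1 := Nat.le_of_dvd (var_pr_pos hP ht) h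
  have h2 := var_pr_le hP ht
  have h3 : Q ^ k ≤ 2 * L * Q ^ k := Nat.le_mul_of_pos_left _ (by omega)
  omega

private noncomputable def vC (p : ℕ) [Fact p.Prime] (k L : ℕ) (P : Finset ℕ) (b : ZMod p) :
    Finset (Fin k → ℕ) :=
  (Tup k P).filter fun t => (b * ((pr t : ℕ) : ZMod p)).valMinAbs.natAbs ≤ L

private theorem var_count {k L Q K0 : ℕ} {P : Finset ℕ} (hP : ∀ q ∈ P, q.Prime ∧ q ≤ Q)
    (hL : 0 < L) (hLQ : 2 * L * Q ^ k < p)
    (hK : ∀ n : ℕ, 0 < n → n < p → #(P.filter fun q => q ∣ n) ≤ K0) :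
    ∑ b ∈ (univ : Finset (ZMod p)).erase 0, #(vC p k L P b) ^ 2 ≤ 2 * L * #P ^ k * K0 ^ k := by
  classical
  have hQ : ∀ t ∈ Tup k P, ∀ a : ℕ, a ≤ L → 2 * (a * pr t) < p := by
    intro t ht a ha
    have h1 : a * pr t ≤ L * Q ^ k := Nat.mul_le_mul ha (var_pr_le hP ht)
    have h2 : 2 * L * Q ^ k = 2 * (L * Q ^ k) := by ring
    omega
  let X : Finset (Σ _ : ZMod p, (Fin k → ℕ) × (Fin k → ℕ)) :=
    ((univ : Finset (ZMod p)).erase 0).sigma fun b => vC p k L P b ×ˢ vC p k L P b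
  let Y : Finset (Σ _ : ℤ × (Fin k → ℕ), Fin k → ℕ) :=
    (((Icc (-(L : ℤ)) L).erase 0) ×ˢ Tup k P).sigma fun x =>
      Tup k (P.filter fun q => q ∣ x.1.natAbs * pr x.2)
  have hX : ∑ b ∈ (univ : Finset (ZMod p)).erase 0, #(vC p k L P b) ^ 2 = #X := by
    rw [Finset.card_sigma]
    refine Finset.sum_congr rfl fun b _ => ?_
    rw [Finset.card_product, pow_two]
  have hY : #Y ≤ 2 * L * #P ^ k * K0 ^ k := by
    rw [Finset.card_sigma]
    have h1 : ∀ x ∈ ((Icc (-(L : ℤ)) L).erase 0) ×ˢ Tup k P,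
        #(Tup k (P.filter fun q => q ∣ x.1.natAbs * pr x.2)) ≤ K0 ^ k := by
      intro x hx
      rw [mem_product, mem_erase, mem_Icc] at hx
      obtain ⟨⟨h0, h2, h3⟩, h4⟩ := hx
      rw [card_Tup]
      refine Nat.pow_le_pow_left (hK _ ?_ ?_) k
      · exact Nat.mul_pos (Int.natAbs_pos.2 h0) (var_pr_pos hP h4)
      · have := hQ x.2 h4 x.1.natAbs (by omega)
        omega
    refine (Finset.sum_le_sum h1).trans ?_
    rw [Finset.sum_const, smul_eq_mul, Finset.card_product, card_Tup]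
    have h5 : #((Icc (-(L : ℤ)) L).erase 0) = 2 * L := by
      rw [Finset.card_erase_of_mem (by rw [mem_Icc]; omega), Int.card_Icc]
      omega
    rw [h5]
  rw [hX]
  refine le_trans ?_ hY
  refine Finset.card_le_card_of_injOn
    (fun x => ⟨((x.1 * ((pr x.2.1 : ℕ) : ZMod p)).valMinAbs, x.2.2), x.2.1⟩) ?_ ?_
  · rintro ⟨b, t, t'⟩ hx
    rw [Finset.mem_coe, Finset.mem_sigma, mem_erase, mem_product] at hx
    obtain ⟨⟨hb, -⟩, ht, ht'⟩ := hx
    dsimp only at hb ht ht'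
    rw [vC, mem_filter] at ht ht'
    obtain ⟨ht, hta⟩ := ht
    obtain ⟨ht', hta'⟩ := ht'
    set a : ℤ := (b * ((pr t : ℕ) : ZMod p)).valMinAbs with ha
    set a' : ℤ := (b * ((pr t' : ℕ) : ZMod p)).valMinAbs with ha'
    have hne : b * ((pr t : ℕ) : ZMod p) ≠ 0 := mul_ne_zero hb (var_pr_ne hP hL hLQ ht)
    have ha0 : a ≠ 0 := by
      rw [ha, Ne, ZMod.valMinAbs_eq_zero]
      exact hne
    have hc : (a : ZMod p) = b * ((pr t : ℕ) : ZMod p) := ZMod.coe_valMinAbs _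
    have hc' : (a' : ZMod p) = b * ((pr t' : ℕ) : ZMod p) := ZMod.coe_valMinAbs _
    have h1 : ((a * (pr t' : ℤ) - a' * (pr t : ℤ) : ℤ) : ZMod p) = 0 := by
      push_cast
      rw [hc, hc']
      ring
    rw [ZMod.intCast_zmod_eq_zero_iff_dvd] at h1
    have h2 := hQ t' ht' a.natAbs hta
    have h3 := hQ t ht a'.natAbs hta'
    have h4 : a * (pr t' : ℤ) - a' * (pr t : ℤ) = 0 := by
      refine Int.eq_zero_of_abs_lt_dvd h1 ?_
      refine lt_of_le_of_lt (abs_sub _ _) ?_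
      have h5 : |a * (pr t' : ℤ)| = ((a.natAbs * pr t' : ℕ) : ℤ) := by
        rw [abs_mul, Int.abs_eq_natAbs, Int.abs_eq_natAbs, Int.natAbs_natCast]
        push_cast
        rfl
      have h6 : |a' * (pr t : ℤ)| = ((a'.natAbs * pr t : ℕ) : ℤ) := by
        rw [abs_mul, Int.abs_eq_natAbs, Int.abs_eq_natAbs, Int.natAbs_natCast]
        push_cast
        rfl
      rw [h5, h6]
      omega
    have h5 : a.natAbs * pr t' = a'.natAbs * pr t := by
      have h6 : a * (pr t' : ℤ) = a' * (pr t : ℤ) := by linarith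
      have h7 := congrArg Int.natAbs h6
      rwa [Int.natAbs_mul, Int.natAbs_mul, Int.natAbs_natCast, Int.natAbs_natCast] at h7
    show _ ∈ Y
    rw [Finset.mem_sigma, mem_product, mem_erase, mem_Icc]
    refine ⟨⟨⟨ha0, ?_, ?_⟩, ht'⟩, mem_Tup.2 fun j => ?_⟩
    · show -(L : ℤ) ≤ a
      omega
    · show a ≤ (L : ℤ)
      omega
    · rw [mem_filter]
      refine ⟨mem_Tup.1 ht j, ?_⟩
      show t j ∣ a.natAbs * pr t'
      rw [h5]
      exact Dvd.dvd.mul_left (Finset.dvd_prod_of_mem t (mem_univ j)) _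
  · rintro ⟨b, t, t'⟩ hx ⟨c, u, u'⟩ hy hxy
    rw [Finset.mem_coe, Finset.mem_sigma, mem_erase, mem_product] at hx
    obtain ⟨⟨hb, -⟩, ht, ht'⟩ := hx
    dsimp only at hb ht ht'
    rw [vC, mem_filter] at ht
    dsimp only at hxy
    rw [Sigma.mk.injEq, Prod.mk.injEq, heq_eq_eq] at hxy
    obtain ⟨⟨h1, h2⟩, h3⟩ := hxy
    subst h2 h3
    have h4 : b * ((pr t : ℕ) : ZMod p) = c * ((pr t : ℕ) : ZMod p) :=
      ZMod.injective_valMinAbs h1
    have h5 : b = c := mul_right_cancel₀ (var_pr_ne hP hL hLQ ht.1) h4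
    rw [h5]

private theorem var_term {m M L : ℕ} (hL : 0 < L) {a : ZMod p} (ha : a ≠ 0) :
    ‖(∑ i ∈ Icc 1 M, (ZMod.stdAddChar (a * (i : ZMod p)) : ℂ)) ^ m‖ ≤
      (if a.valMinAbs.natAbs ≤ L then (M : ℝ) ^ m else 0) + ((p : ℝ) / (2 * L)) ^ m := by
  have hL' : (0 : ℝ) < L := by exact_mod_cast hL
  rw [norm_pow]
  split_ifs with h
  · have h1 := pow_le_pow_left₀ (norm_nonneg _) (geo_triv M a) m
    have h2 : 0 ≤ ((p : ℝ) / (2 * L)) ^ m := by positivity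
    linarith
  · rw [zero_add]
    refine pow_le_pow_left₀ (norm_nonneg _) ((geo_bound M ha).trans ?_) m
    have h3 : (L : ℝ) ≤ (a.valMinAbs.natAbs : ℝ) := by
      have : L ≤ a.valMinAbs.natAbs := by omega
      exact_mod_cast this
    gcongr

theorem var_TT {k m M L Q K0 : ℕ} {P : Finset ℕ} (hP : ∀ q ∈ P, q.Prime ∧ q ≤ Q) (hL : 0 < L)
    (hmM : m * M < p) (hLQ : 2 * L * Q ^ k < p)
    (hK : ∀ n : ℕ, 0 < n → n < p → #(P.filter fun q => q ∣ n) ≤ K0) :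
    ∑ w : ZMod p, (TT p k m M P w - (#P : ℝ) ^ k * (M : ℝ) ^ m / p) ^ 2 ≤
      (1 / (p : ℝ)) * (4 * (K0 : ℝ) ^ k * (M : ℝ) ^ (2 * m) * L * (#P : ℝ) ^ k +
        2 * p * (#P : ℝ) ^ (2 * k) * ((p : ℝ) / (2 * L)) ^ (2 * m)) := by
  classical
  have hp0 : (0 : ℝ) < p := by
    have := hp.out.pos
    exact_mod_cast this
  have hp0' : (p : ℂ) ≠ 0 := by
    have := hp.out.ne_zero
    exact_mod_cast this
  set μ : ℝ := (#P : ℝ) ^ k * (M : ℝ) ^ m / p with hμ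
  set A : ZMod p → ℝ := fun b =>
    ‖∑ w : ZMod p, ((TT p k m M P w - μ : ℝ) : ℂ) * (ZMod.stdAddChar (b * w) : ℂ)‖ with hA
  have h1 := var_parseval (fun w : ZMod p => TT p k m M P w - μ)
  have h2 : ∑ w : ZMod p, (TT p k m M P w - μ) ^ 2 = (1 / (p : ℝ)) * ∑ b : ZMod p, A b ^ 2 := by
    rw [hA, h1]
    field_simp
  rw [h2]
  refine mul_le_mul_of_nonneg_left ?_ (by positivity)
  have h3 : ∀ b : ZMod p, ∑ w : ZMod p, ((TT p k m M P w - μ : ℝ) : ℂ) *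
      (ZMod.stdAddChar (b * w) : ℂ) =
      ∑ t ∈ Tup k P,
        (∑ i ∈ Icc 1 M, (ZMod.stdAddChar (b * ((pr t : ℕ) : ZMod p) * (i : ZMod p)) : ℂ)) ^ m -
        (μ : ℂ) * (if b = 0 then (p : ℂ) else 0) := by
    intro b
    rw [← var_hat]
    have h4 := Helper68.CO2.orth b
    rw [← h4, Finset.mul_sum, ← Finset.sum_sub_distrib]
    refine Finset.sum_congr rfl fun w _ => ?_
    rw [mul_comm w b]
    push_cast
    ring
  have h0 : A 0 = 0 := by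
    rw [hA]
    dsimp only
    rw [h3, if_pos rfl]
    have h4 : ∀ t ∈ Tup k P, (∑ i ∈ Icc 1 M,
        (ZMod.stdAddChar ((0 : ZMod p) * ((pr t : ℕ) : ZMod p) * (i : ZMod p)) : ℂ)) ^ m =
        (M : ℂ) ^ m := by
      intro t _
      simp
    rw [Finset.sum_congr rfl h4, Finset.sum_const, card_Tup, nsmul_eq_mul, hμ]
    push_cast
    rw [div_mul_cancel₀ _ hp0', sub_self, norm_zero]
  rw [← Finset.add_sum_erase _ _ (Finset.mem_univ (0 : ZMod p)), h0]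
  have hb : ∀ b ∈ (univ : Finset (ZMod p)).erase 0, A b ^ 2 ≤
      2 * (M : ℝ) ^ (2 * m) * ((#(vC p k L P b) ^ 2 : ℕ) : ℝ) +
        2 * (#P : ℝ) ^ (2 * k) * ((p : ℝ) / (2 * L)) ^ (2 * m) := by
    intro b hb
    have hb0 : b ≠ 0 := (mem_erase.1 hb).1
    have h5 : A b ≤ (M : ℝ) ^ m * (#(vC p k L P b) : ℝ) +
        (#P : ℝ) ^ k * ((p : ℝ) / (2 * L)) ^ m := by
      rw [hA]
      dsimp only
      rw [h3, if_neg hb0, mul_zero, sub_zero]
      refine (norm_sum_le _ _).trans ?_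
      refine (Finset.sum_le_sum fun t ht =>
        var_term hL (mul_ne_zero hb0 (var_pr_ne hP hL hLQ ht))).trans ?_
      rw [Finset.sum_add_distrib, Finset.sum_const, card_Tup, nsmul_eq_mul, ← Finset.sum_filter,
        Finset.sum_const, nsmul_eq_mul]
      push_cast
      rw [mul_comm ((M : ℝ) ^ m)]
      rfl
    have h6 : 0 ≤ A b := norm_nonneg _
    have h7 := pow_le_pow_left₀ h6 h5 2
    refine h7.trans ?_
    push_cast
    have h8 : ∀ x y : ℝ, (x + y) ^ 2 ≤ 2 * x ^ 2 + 2 * y ^ 2 := fun x y => by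
      nlinarith [sq_nonneg (x - y)]
    refine (h8 _ _).trans (le_of_eq ?_)
    ring
  have h9 := Finset.sum_le_sum hb
  rw [Finset.sum_add_distrib, ← Finset.mul_sum, Finset.sum_const, nsmul_eq_mul,
    ← Nat.cast_sum] at h9
  have h10 : ((∑ b ∈ (univ : Finset (ZMod p)).erase 0, #(vC p k L P b) ^ 2 : ℕ) : ℝ) ≤
      ((2 * L * #P ^ k * K0 ^ k : ℕ) : ℝ) := by
    exact_mod_cast var_count hP hL hLQ hK
  push_cast at h10
  have h11 : (#((univ : Finset (ZMod p)).erase 0) : ℝ) ≤ p := by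
    have h12 : #((univ : Finset (ZMod p)).erase 0) ≤ #(univ : Finset (ZMod p)) :=
      Finset.card_le_card (Finset.erase_subset _ _)
    rw [Finset.card_univ, ZMod.card] at h12
    exact_mod_cast h12
  have h13 : 2 * (M : ℝ) ^ (2 * m) *
      ((∑ b ∈ (univ : Finset (ZMod p)).erase 0, #(vC p k L P b) ^ 2 : ℕ) : ℝ) ≤
      2 * (M : ℝ) ^ (2 * m) * (2 * L * (#P : ℝ) ^ k * (K0 : ℝ) ^ k) := by
    push_cast
    exact mul_le_mul_of_nonneg_left h10 (by positivity)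
  have h16 : 0 ≤ 2 * (#P : ℝ) ^ (2 * k) * ((p : ℝ) / (2 * L)) ^ (2 * m) :=
    mul_nonneg (mul_nonneg zero_le_two (pow_nonneg (Nat.cast_nonneg _) _))
      (pow_nonneg (div_nonneg hp0.le (mul_nonneg zero_le_two (Nat.cast_nonneg _))) _)
  have h14 : (#((univ : Finset (ZMod p)).erase 0) : ℝ) *
      (2 * (#P : ℝ) ^ (2 * k) * ((p : ℝ) / (2 * L)) ^ (2 * m)) ≤
      p * (2 * (#P : ℝ) ^ (2 * k) * ((p : ℝ) / (2 * L)) ^ (2 * m)) :=
    mul_le_mul_of_nonneg_right h11 h16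
  have h15 : (0 : ℝ) ^ 2 + ∑ b ∈ (univ : Finset (ZMod p)).erase 0, A b ^ 2 ≤
      2 * (M : ℝ) ^ (2 * m) * (2 * L * (#P : ℝ) ^ k * (K0 : ℝ) ^ k) +
      p * (2 * (#P : ℝ) ^ (2 * k) * ((p : ℝ) / (2 * L)) ^ (2 * m)) := by
    rw [zero_pow (by norm_num), zero_add]
    linarith
  refine h15.trans (le_of_eq ?_)
  ring

end Pool.Agent.Helper26.PE
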